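import Pool.Agent.TInc.Ord

/-!
# Functions with simple poles in given places (Riemann's inequality)
-/

set_option autoImplicit false

noncomputable section

namespace Pool.Agent.TInc

open Pool.Agent.ZCyc Pool.Agent.Dess Module
open scoped Classical

variable {k L : Type} [Field k] [IsAlgClosed k] [CharZero k] [Field L] [Algebra k L]

/-- the sum of the places -/
private def linD {n : ℕ} (c : Fin n → Place k L) : Place k L →₀ ℤ :=
  Finsupp.onFinset (Finset.univ.image c) (fun v => if v ∈ Finset.univ.image c then 1 else 0)
    (fun v hv => by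
      by_contra h
      exact hv (if_neg h))

omit [IsAlgClosed k] [CharZero k] in
private theorem linD_apply {n : ℕ} (c : Fin n → Place k L) (v : Place k L) :
    linD c v = if v ∈ Finset.univ.image c then 1 else 0 := rfl

omit [IsAlgClosed k] [CharZero k] in
private theorem deg_linD {n : ℕ} {c : Fin n → Place k L} (hc : Function.Injective c) :
    deg (linD c) = n := by
  unfold deg linD
  rw [Finsupp.onFinset_sum _ (fun _ => rfl)]
  rw [Finset.sum_congr rfl (fun v hv => if_pos hv), Finset.sum_const,
    Finset.card_image_of_injective _ hc, Finset.card_univ, Fintype.card_fin, nsmul_eq_mul, mul_one]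

/-- `n` different places, `ρ + g ≤ n`: there are `ρ` functions in `L(c_1 + .. + c_n)` which are
linearly independent modulo the constants: `dim L(D) ≥ n + 1 - g ≥ ρ + 1` and the constants are a
subspace of dimension one. -/
theorem exists_phi {hL : IsCurve k L} {g : ℕ} (hg : Riemann hL g) {n ρ : ℕ} (hρ : ρ + g ≤ n)
    (c : Fin n → Place k L) (hc : Function.Injective c) :
    ∃ φ : Fin ρ → L, (∀ m v, (∀ j, c j ≠ v) → φ m ∈ v.ring) ∧
      (∀ m j, φ m ≠ 0 → -1 ≤ ord (c j) (φ m)) ∧
      ∀ z : Fin ρ → k, z ≠ 0 → ∀ a : k, ∑ m, algebraMap k L (z m) * φ m ≠ algebraMap k L a := by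
  obtain ⟨hfin, hr⟩ := hg (linD c)
  rw [deg_linD hc] at hr
  have h1 : (1 : L) ∈ LD hL (linD c) := by
    intro _ v
    have h2 : ord v (1 : L) = 0 := by
      have := ord_const hL v (1 : k)
      rwa [map_one] at this
    rw [h2, linD_apply]
    split_ifs <;> norm_num
  set e : LD hL (linD c) := ⟨1, h1⟩ with he
  set C : Submodule k (LD hL (linD c)) := Submodule.span k {e} with hC
  have hC1 : finrank k C ≤ 1 := by
    have h3 := finrank_span_le_card (R := k) ({e} : Set (LD hL (linD c)))
    simpa using h3
  have hq : ρ ≤ finrank k (LD hL (linD c) ⧸ C) := by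
    have h3 := Submodule.finrank_quotient_add_finrank C
    omega
  set b := Module.finBasis k (LD hL (linD c) ⧸ C) with hb
  have hsurj := Submodule.mkQ_surjective C
  choose f hf using fun m : Fin ρ => hsurj (b (Fin.castLE hq m))
  refine ⟨fun m => (f m : L), ?_, ?_, ?_⟩
  · intro m v hv
    show (f m : L) ∈ v.ring
    by_cases h0 : (f m : L) = 0
    · rw [h0]
      exact zero_mem _
    · rw [mem_iff_ord hL h0]
      have h3 := (f m).2 h0 v
      rw [linD_apply, if_neg, add_zero] at h3
      · exact h3
      · intro h4
        obtain ⟨j, -, hj⟩ := Finset.mem_image.1 h4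
        exact hv j hj
  · intro m j h0
    show -1 ≤ ord (c j) (f m : L)
    have h3 := (f m).2 h0 (c j)
    rw [linD_apply, if_pos (Finset.mem_image_of_mem c (Finset.mem_univ j))] at h3
    omega
  · intro z hz a h
    apply hz
    have h3 : ∑ m, z m • f m = a • e := by
      apply Subtype.ext
      rw [Submodule.coe_sum, Submodule.coe_smul]
      simp only [Submodule.coe_smul]
      rw [he]
      simp only [Algebra.smul_def, mul_one]
      exact h
    have h4 : ∑ m, z m • b (Fin.castLE hq m) = 0 := by
      have h5 := congrArg C.mkQ h3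
      rw [map_sum, map_smul] at h5
      simp only [map_smul, hf] at h5
      rw [h5]
      have h6 : C.mkQ e = 0 := by
        rw [Submodule.mkQ_apply, Submodule.Quotient.mk_eq_zero]
        exact Submodule.subset_span rfl
      rw [h6, smul_zero]
    have hli : LinearIndependent k fun m : Fin ρ => b (Fin.castLE hq m) :=
      b.linearIndependent.comp _ (Fin.castLE_injective hq)
    funext m
    exact (Fintype.linearIndependent_iff.1 hli) z h4 m

end Pool.Agent.TInc
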