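import Mathlib

/-!
# Products of linear factors `1 + τ φ_z(q)` as polynomials in `z` and `τ`
-/

set_option autoImplicit false

noncomputable section

namespace Pool.Agent.TInc

open Polynomial

variable {k : Type*} [Field k] {ρ : ℕ} {Q : Type*}

/-- the linear factor `1 + τ ∑ z_m a_m` -/
def lin (a : Fin ρ → k) : MvPolynomial (Fin ρ) k[X] :=
  1 + ∑ m, MvPolynomial.X m * MvPolynomial.C (C (a m) * X)

/-- the product of the linear factors, and a constant -/
def nmP (T : Finset Q) (a : Q → Fin ρ → k) (e : Q → ℕ) (c : k) : MvPolynomial (Fin ρ) k[X] :=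
  MvPolynomial.C (C c) * ∏ q ∈ T, lin (a q) ^ e q

private theorem lin_eval (a : Fin ρ → k) (z : Fin ρ → k) :
    ((lin a).eval fun m => C (z m)) = 1 + C (∑ m, z m * a m) * X := by
  unfold lin
  rw [map_add, map_one, map_sum, map_sum, Finset.sum_mul]
  congr 1
  refine Finset.sum_congr rfl fun m _ => ?_
  rw [map_mul, MvPolynomial.eval_X, MvPolynomial.eval_C, C_mul, mul_assoc]

theorem nmP_eval (T : Finset Q) (a : Q → Fin ρ → k) (e : Q → ℕ) (c : k) (z : Fin ρ → k) :
    ((nmP T a e c).eval fun m => C (z m)) =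
      C c * ∏ q ∈ T, (1 + C (∑ m, z m * a q m) * X) ^ e q := by
  unfold nmP
  rw [map_mul, MvPolynomial.eval_C, map_prod]
  congr 1
  refine Finset.prod_congr rfl fun q _ => ?_
  rw [map_pow, lin_eval]

theorem nmP_aeval {K : Type*} [Field K] [Algebra k K] (T : Finset Q) (a : Q → Fin ρ → k)
    (e : Q → ℕ) (c : k) (z : Fin ρ → k) (τ : K) :
    aeval τ ((nmP T a e c).eval fun m => C (z m)) =
      algebraMap k K c * ∏ q ∈ T, (1 + τ * algebraMap k K (∑ m, z m * a q m)) ^ e q := by
  rw [nmP_eval, map_mul, aeval_C, map_prod]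
  congr 1
  refine Finset.prod_congr rfl fun q _ => ?_
  rw [map_pow, map_add, map_one, map_mul, aeval_C, aeval_X, mul_comm]

theorem nmP_eval_zero (T : Finset Q) (a : Q → Fin ρ → k) (e : Q → ℕ) (c : k) (z : Fin ρ → k) :
    ((nmP T a e c).eval fun m => C (z m)).eval 0 = c := by
  rw [nmP_eval, eval_mul, eval_C, eval_prod]
  have : ∏ q ∈ T, eval 0 ((1 + C (∑ m, z m * a q m) * X) ^ e q) = (1 : k) := by
    refine Finset.prod_eq_one fun q _ => ?_
    simp
  rw [this, mul_one]

theorem nmP_zero (T : Finset Q) (a : Q → Fin ρ → k) (e : Q → ℕ) (c : k) :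
    (nmP T a e c).eval 0 = C c := by
  have h := nmP_eval T a e c 0
  have h0 : (fun m : Fin ρ => C ((0 : Fin ρ → k) m)) = (0 : Fin ρ → k[X]) := by
    funext m
    simp
  rw [h0] at h
  rw [h]
  have : ∏ q ∈ T, (1 + C (∑ m, (0 : Fin ρ → k) m * a q m) * X) ^ e q = (1 : k[X]) := by
    refine Finset.prod_eq_one fun q _ => ?_
    simp
  rw [this, mul_one]

/-- all coefficients have degree at most `n` -/
private def nmHd (P : MvPolynomial (Fin ρ) k[X]) (n : ℕ) : Prop :=
  ∀ z, (P.coeff z).natDegree ≤ n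

private theorem nmHd_mul {P P' : MvPolynomial (Fin ρ) k[X]} {n n' : ℕ} (h : nmHd P n)
    (h' : nmHd P' n') : nmHd (P * P') (n + n') := by
  classical
  intro z
  rw [MvPolynomial.coeff_mul]
  refine natDegree_sum_le_of_forall_le _ _ fun x _ => ?_
  exact natDegree_mul_le.trans (add_le_add (h _) (h' _))

private theorem nmHd_C (c : k) : nmHd (MvPolynomial.C (C c) : MvPolynomial (Fin ρ) k[X]) 0 := by
  classical
  intro z
  rw [MvPolynomial.coeff_C]
  split_ifs <;> simp

private theorem nmHd_one : nmHd (1 : MvPolynomial (Fin ρ) k[X]) 0 := by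
  have := nmHd_C (ρ := ρ) (1 : k)
  simpa using this

private theorem nmHd_lin (a : Fin ρ → k) : nmHd (lin a) 1 := by
  classical
  intro z
  unfold lin
  rw [MvPolynomial.coeff_add, MvPolynomial.coeff_sum]
  refine (natDegree_add_le _ _).trans (max_le ((nmHd_one z).trans zero_le_one) ?_)
  refine natDegree_sum_le_of_forall_le _ _ fun m _ => ?_
  rw [mul_comm, MvPolynomial.coeff_C_mul, mul_comm]
  refine natDegree_mul_le.trans ?_
  have h1 : (MvPolynomial.coeff z (MvPolynomial.X m : MvPolynomial (Fin ρ) k[X])).natDegree = 0 := by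
    rw [MvPolynomial.coeff_X]
    split_ifs <;> simp
  rw [h1, zero_add]
  exact natDegree_mul_le.trans (by simp)

private theorem nmHd_pow {P : MvPolynomial (Fin ρ) k[X]} (h : nmHd P 1) (e : ℕ) :
    nmHd (P ^ e) e := by
  induction e with
  | zero => rw [pow_zero]; exact nmHd_one
  | succ e ih => rw [pow_succ]; exact nmHd_mul ih h

/-- the coefficients have at most the degree `∑ e q` -/
theorem nmP_natDegree (T : Finset Q) (a : Q → Fin ρ → k) (e : Q → ℕ) (c : k)
    (z : Fin ρ →₀ ℕ) : ((nmP T a e c).coeff z).natDegree ≤ ∑ q ∈ T, e q := by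
  classical
  have h : nmHd (∏ q ∈ T, lin (a q) ^ e q) (∑ q ∈ T, e q) := by
    induction T using Finset.induction_on with
    | empty => rw [Finset.prod_empty, Finset.sum_empty]; exact nmHd_one
    | insert q T hq ih =>
      rw [Finset.prod_insert hq, Finset.sum_insert hq]
      exact nmHd_mul (nmHd_pow (nmHd_lin _) _) ih
  have h2 := nmHd_mul (nmHd_C (ρ := ρ) c) h z
  rwa [zero_add] at h2

end Pool.Agent.TInc
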