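import Pool.Agent.TInc.Points
import Pool.Agent.TInc.Lin
import Pool.Agent.TInc.Nm

/-!
# The family of deformations of a tuple of points of the curve
-/

set_option autoImplicit false

noncomputable section

namespace Pool.Agent.TInc

open Pool.Agent.ZCyc Pool.Agent.Dess Pool.Agent.KFam Module Polynomial
open Pool.Agent.VFP (Om tt)
open scoped Classical

variable {k L : Type} [Field k] [IsAlgClosed k] [CharZero k] [Field L] [Algebra k L] {n r : ℕ}

omit [IsAlgClosed k] [CharZero k] in
private theorem fam_deg_add (A B : Place k L →₀ ℤ) : deg (A + B) = deg A + deg B := by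
  unfold deg
  exact Finsupp.sum_add_index' (fun _ => rfl) (fun _ _ _ => rfl)

omit [IsAlgClosed k] [CharZero k] in
private theorem fam_deg_smul (w : ℤ) (A : Place k L →₀ ℤ) : deg (w • A) = w * deg A := by
  unfold deg
  rw [Finsupp.sum_smul_index (fun _ => rfl)]
  simp only [Finsupp.sum, Finset.mul_sum]

/-- the divisor of `f` plus `w D` -/
private def famE (hL : IsCurve k L) (f : L) (w : ℕ) (D : Place k L →₀ ℤ) : Place k L →₀ ℤ :=
  dv hL f + (w : ℤ) • D

private theorem famE_apply (hL : IsCurve k L) (f : L) (w : ℕ) (D : Place k L →₀ ℤ)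
    (q : Place k L) : famE hL f w D q = ord q f + w * D q := by
  unfold famE
  rw [Finsupp.add_apply, dv_apply, Finsupp.smul_apply, smul_eq_mul]

/-- the support of the divisor, it is empty for `f = 0` -/
private def famT (hL : IsCurve k L) (f : L) (w : ℕ) (D : Place k L →₀ ℤ) : Finset (Place k L) :=
  if f = 0 then ∅ else (famE hL f w D).support

/-- the norm of `f` -/
private def famN (hL : IsCurve k L) {ρ : ℕ} (φ : Fin ρ → L) (c : Fin n → Place k L) (f : L)
    (w : ℕ) (D : Place k L →₀ ℤ) : MvPolynomial (Fin ρ) k[X] :=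
  nmP (famT hL f w D) (fun q m => val q (φ m)) (fun q => (ord q f + w * D q).toNat)
    (∏ j, val (c j) f)

private theorem famN_deg (hL : IsCurve k L) {ρ : ℕ} (φ : Fin ρ → L) (c : Fin n → Place k L)
    (f : L) (w : ℕ) (D : Place k L →₀ ℤ) {d : ℕ} (hd : deg D = d)
    (h : f ≠ 0 → ∀ q, 0 ≤ ord q f + w * D q) (z : Fin ρ →₀ ℕ) :
    ((famN hL φ c f w D).coeff z).natDegree ≤ w * d := by
  by_cases hf : f = 0
  · refine (nmP_natDegree _ _ _ _ z).trans ?_
    unfold famT
    rw [if_pos hf, Finset.sum_empty]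
    exact Nat.zero_le _
  refine (nmP_natDegree _ _ _ _ z).trans (le_of_eq ?_)
  unfold famT
  rw [if_neg hf]
  have h1 : ((∑ q ∈ (famE hL f w D).support, (ord q f + w * D q).toNat : ℕ) : ℤ) =
      deg (famE hL f w D) := by
    unfold deg Finsupp.sum
    rw [Nat.cast_sum]
    refine Finset.sum_congr rfl fun q _ => ?_
    rw [Int.toNat_of_nonneg (h hf q), famE_apply]
  have h2 : deg (famE hL f w D) = w * d := by
    unfold famE
    rw [fam_deg_add, deg_dv, fam_deg_smul, hd, zero_add]
  rw [h2] at h1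
  exact_mod_cast h1

/-- the value of `∑ z m * φ m` -/
private theorem fam_at_sum {ρ : ℕ} (hL : IsCurve k L) (φ : Fin ρ → L) (z : Fin ρ → k)
    {q : Place k L} (hq : ∀ m, φ m ∈ q.ring) :
    q.At (∑ m, algebraMap k L (z m) * φ m) (∑ m, z m * val q (φ m)) :=
  Place.At.sum fun m _ => (Place.at_const _).mul (at_val hL (hq m))

private theorem fam_ord_sum {ρ : ℕ} (hL : IsCurve k L) (φ : Fin ρ → L) (z : Fin ρ → k)
    {q : Place k L} (hq : ∀ m, φ m ≠ 0 → -1 ≤ ord q (φ m)) (t : Finset (Fin ρ)) :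
    ∑ m ∈ t, algebraMap k L (z m) * φ m ≠ 0 →
      -1 ≤ ord q (∑ m ∈ t, algebraMap k L (z m) * φ m) := by
  induction t using Finset.induction_on with
  | empty =>
    intro h
    exact absurd Finset.sum_empty h
  | insert a t ha ih =>
    rw [Finset.sum_insert ha]
    intro h
    refine le_ord_add hL h (fun h1 => ?_) ih
    have h2 := left_ne_zero_of_mul h1
    have h3 := right_ne_zero_of_mul h1
    rw [ord_mul hL q h2 h3, ord_const hL, zero_add]
    exact hq a h3

omit [IsAlgClosed k] [CharZero k] in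
private theorem fam_ne {τ : Om k} (hτ : Transcendental k τ) (a : k) :
    1 + τ * algebraMap k (Om k) a ≠ 0 := by
  intro h
  by_cases ha : a = 0
  · rw [ha, map_zero, mul_zero, add_zero] at h
    exact one_ne_zero h
  · apply hτ
    have ha' : algebraMap k (Om k) a ≠ 0 := (_root_.map_ne_zero _).2 ha
    have h1 : τ = algebraMap k (Om k) (-a⁻¹) := by
      rw [map_neg, map_inv₀]
      field_simp
      linear_combination h
    rw [h1]
    exact isAlgebraic_algebraMap _

omit [IsAlgClosed k] [CharZero k] in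
private theorem fam_scl_one {K : Type} [Field K] (l : Place k L → Kˣ) (h : ∀ q, l q = 1)
    (D : Place k L →₀ ℤ) : scl l D = 1 := by
  unfold scl Finsupp.prod
  refine Finset.prod_eq_one fun q _ => ?_
  show ((l q ^ D q : Kˣ) : K) = 1
  rw [h, one_zpow, Units.val_one]

/-- the conditions for a function `f` of weight `w` -/
private structure FamOk (c : Fin n → Place k L) (f : L) (w : ℕ) (D : Place k L →₀ ℤ) :
    Prop where
  unit : ∀ j, ord (c j) f = 0
  eff : f ≠ 0 → ∀ q, 0 ≤ ord q f + w * D q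

private theorem famN_aeval (hL : IsCurve k L) {ρ : ℕ} (φ : Fin ρ → L) (z : Fin ρ → k)
    {U : Set (Place k L)} (c : Fin n → U)
    (hreg : ∀ m v, (∀ j, (c j).1 ≠ v) → φ m ∈ v.ring) {f : L} {w : ℕ} {D : Place k L →₀ ℤ}
    (hf : FamOk (k := k) (fun j => (c j).1) f w D) (hD : ∀ j, D (c j).1 = 0) (T : Finset (Place k L))
    (hT : ∀ q, D q ≠ 0 → q ∈ T) {τ : Om k} (S : Fin n → (L →ₐ[k] Om k) ⊕ U) (j₀ : Fin n)
    (h1 : ∀ (w : ℕ) (D : Place k L →₀ ℤ) (f : L), f ≠ 0 → (∀ j, ord (c j).1 f = 0) →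
        (∀ q, 0 ≤ ord q f + w * D q) → (∀ q, D q ≠ 0 → q ∈ T) → ∀ T' : Finset (Place k L),
        (∀ q, ord q f + w * D q ≠ 0 → q ∈ T') → (∀ j, (c j).1 ∉ T') →
        (∏ q ∈ T, (1 + τ * algebraMap k (Om k)
          (val q (∑ m, algebraMap k L (z m) * φ m))) ^ (D q)) ^ w * ∏ j, evO (S j) f =
          algebraMap k (Om k) (∏ j, val (c j).1 f) *
            ∏ q ∈ T', (1 + τ * algebraMap k (Om k)
              (val q (∑ m, algebraMap k L (z m) * φ m))) ^ (ord q f + w * D q).toNat) :
    (∏ q ∈ T, (1 + τ * algebraMap k (Om k)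
      (val q (∑ m, algebraMap k L (z m) * φ m))) ^ (D q)) ^ w * ∏ j, evO (S j) f =
      aeval τ ((famN hL φ (fun j => (c j).1) f w D).eval fun m => C (z m)) := by
  by_cases hf0 : f = 0
  · have e1 : evO (S j₀) f = 0 := by
      rw [hf0]
      rcases S j₀ with σ | q
      · exact map_zero σ
      · show algebraMap k (Om k) (val q.1 (0 : L)) = 0
        have e2 : val q.1 (0 : L) = (0 : k) := val_eq (by
          have h := Place.at_const (v := q.1) (0 : k)
          rwa [map_zero] at h)
        rw [e2, map_zero]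
    have e3 : val (c j₀).1 f = 0 := by
      rw [hf0]
      exact val_eq (by
        have h := Place.at_const (v := (c j₀).1) (0 : k)
        rwa [map_zero] at h)
    unfold famN
    rw [nmP_aeval, Finset.prod_eq_zero (Finset.mem_univ j₀) e1,
      Finset.prod_eq_zero (Finset.mem_univ j₀) e3, map_zero, zero_mul, mul_zero]
  have hc : ∀ j, (c j).1 ∉ (famE hL f w D).support := by
    intro j
    rw [Finsupp.notMem_support_iff, famE_apply, hD, mul_zero, add_zero]
    exact hf.unit j
  rw [h1 w D f hf0 hf.unit (hf.eff hf0) hT (famE hL f w D).support (fun q hq => by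
    rw [Finsupp.mem_support_iff, famE_apply]
    exact hq) hc]
  unfold famN famT
  rw [if_neg hf0, nmP_aeval]
  congr 1
  refine Finset.prod_congr rfl fun q hq => ?_
  rw [val_eq (fam_at_sum hL φ z fun m => hreg m q fun j hj => hc j (hj ▸ hq))]

/-- The conditions of `Cub.Ok` without the assumption that the coefficients are not zero. -/
structure Cub.OkZ (X : Cub k L r) (d : Fin r → ℕ) : Prop where
  disc : ∀ i, X.B i ^ 2 - 4 * X.α i ^ 3 ≠ 0
  α_mem : ∀ i, X.α i ≠ 0 → ∀ v, 0 ≤ ord v (X.α i) + 2 * X.D i v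
  B_mem : ∀ i, X.B i ≠ 0 → ∀ v, 0 ≤ ord v (X.B i) + 3 * X.D i v
  deg : ∀ i, deg (X.D i) = d i

omit [IsAlgClosed k] [CharZero k] in
theorem Cub.Ok.toZ {X : Cub k L r} {d : Fin r → ℕ} (hX : X.Ok d) : X.OkZ d :=
  ⟨hX.disc, fun i _ => hX.α_mem i, fun i _ => hX.B_mem i, hX.deg⟩

/-- The deformations of a tuple of points with different places and trivial scalings. Coefficients
which are zero are allowed.
Proof. `φ m` from `exists_phi`, `φ_z = ∑ z m * φ m`. `T` = the union of the supports of the `D i`.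
`θ j` are different, not `0`, such that `f_(i, j) = b_i ² - θ j (b_i ² - α_i ³)` (`b_i = -B_i / 2`)
is not zero at the places `c l` (finitely many conditions on `θ j`, the discriminant is a unit).
`α_i`, `b_i`, `f_(i, j)` have the weights `2`, `3`, `6`. For `f` of weight `w` take
`nmP T' (fun q m => val q (φ m)) (fun q => (ord q f + w D_i q).toNat) (∏ val (c j) f)` with
`T' = {q | ord q f + w D_i q ≠ 0}`, the sum of the exponents is `w * d i` (`deg_dv`, `deg`).
`u = 1`, `h z = ∑ z m * val δ (φ m)`. Points: `exists_points`; the scaling of the point `j₀` is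
`1 + τ φ_z(q)` for `q ∈ T` and `1` otherwise (it is not `0` because `τ` is transcendental), the
others have the scaling `1`; `scl` is the product over `T`. If `v.At τ τ₁`, `1 + τ₁ h z = 0` then
`τ₁ ≠ 0`, and `-1/τ` has the value `-1/τ₁ = h z = φ_z(δ)`. If `τ` is not in `v.ring`, and
`h z = 0` then `-1/τ` has the value `0 = φ_z(δ)`. -/
theorem exists_familyZ (X : Cub k L r) (hL : IsCurve k L) {d : Fin r → ℕ} (hX : X.OkZ d)
    {U : Set (Place k L)} (hU : ∀ c ∈ U, X.Good c) (Z : Fin r → Set (Place k L)) {g : ℕ}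
    (hg : Riemann hL g) (s : Fin n → (X.base hL U hU Z).P)
    (hs : Function.Injective fun j => (s j).1) (hs1 : ∀ j q, (s j).2 q = 1) {i₀ : Fin r}
    {δ : Place k L} (hδ : δ ∈ Z i₀) (hδU : δ ∉ U) {ρ : ℕ} (hρ : ρ + g ≤ n) :
    ∃ F : CurveFam (X.base hL U hU Z) d s, F.ρ = ρ := by
  have h2k : (2 : k) ≠ 0 := two_ne_zero
  have h4L : (4 : L) ≠ 0 := by
    have h4k : (4 : k) ≠ 0 := by norm_num
    have h := (_root_.map_ne_zero (algebraMap k L)).2 h4k
    rwa [map_ofNat] at h
  have h2L : (2 : L) ≠ 0 := by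
    have h := (_root_.map_ne_zero (algebraMap k L)).2 h2k
    rwa [map_ofNat] at h
  let c : Fin n → U := fun j => (s j).1
  have hc : Function.Injective c := hs
  have hc' : Function.Injective fun j => (c j).1 := Subtype.val_injective.comp hc
  have hgood : ∀ j, X.Good (c j).1 := fun j => hU _ (c j).2
  obtain ⟨φ, hreg, hpole, hind⟩ := exists_phi hg hρ (fun j => (c j).1) hc'
  -- values at good places
  have hval : ∀ (q : Place k L), X.Good q → ∀ i, q.At (X.α i) (val q (X.α i)) ∧
      q.At (X.B i) (val q (X.B i)) := fun q hq i =>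
    ⟨at_val hL (hq i).1.1, at_val hL (hq i).2.1.1⟩
  have hat2 : ∀ q : Place k L, q.At (2 : L) (2 : k) := fun q => by
    have h := Place.at_const (v := q) (2 : k)
    rwa [map_ofNat] at h
  have hbat : ∀ (q : Place k L), X.Good q → ∀ i,
      q.At (-X.B i / 2) (-val q (X.B i) / 2) := fun q hq i =>
    (hval q hq i).2.neg.div (hat2 q) h2k
  have hθat : ∀ (q : Place k L), X.Good q → ∀ i (θ : k),
      q.At ((-X.B i / 2) ^ 2 - algebraMap k L θ * ((-X.B i / 2) ^ 2 - X.α i ^ 3))
        ((-val q (X.B i) / 2) ^ 2 - θ * ((-val q (X.B i) / 2) ^ 2 - val q (X.α i) ^ 3)) :=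
    fun q hq i θ => ((hbat q hq i).pow 2).sub ((Place.at_const θ).mul
      (((hbat q hq i).pow 2).sub ((hval q hq i).1.pow 3)))
  have hdisc : ∀ (q : Place k L), X.Good q → ∀ i,
      (-val q (X.B i) / 2) ^ 2 - val q (X.α i) ^ 3 ≠ 0 := by
    intro q hq i h0
    have h1 : q.At ((-X.B i / 2) ^ 2 - X.α i ^ 3)
        ((-val q (X.B i) / 2) ^ 2 - val q (X.α i) ^ 3) :=
      ((hbat q hq i).pow 2).sub ((hval q hq i).1.pow 3)
    rw [h0] at h1
    have h2 : q.At (4 : L) (4 : k) := by
      have h := Place.at_const (v := q) (4 : k)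
      rwa [map_ofNat] at h
    have h3 : q.At (X.B i ^ 2 - 4 * X.α i ^ 3) (4 * 0) := by
      have h4 := h2.mul h1
      convert h4 using 1
      field_simp
      ring
    have h4 := h3.mul (at_val hL (hq i).2.2.1)
    rw [mul_inv_cancel₀ (hX.disc i), mul_zero, zero_mul] at h4
    have h5 : q.At (1 : L) (1 : k) := by
      have h := Place.at_const (v := q) (1 : k)
      rwa [map_one] at h
    exact one_ne_zero (h5.unique h4)
  -- the numbers `θ`
  obtain ⟨θ, hθinj, hθ0, hθ⟩ : ∃ θ : Fin n → k, Function.Injective θ ∧ (∀ j, θ j ≠ 0) ∧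
      ∀ i l j, (-val (c l).1 (X.B i) / 2) ^ 2 - θ j * ((-val (c l).1 (X.B i) / 2) ^ 2 -
        val (c l).1 (X.α i) ^ 3) ≠ 0 := by
    let Bd : Set k := insert 0 (Set.range fun x : Fin r × Fin n =>
      (-val (c x.2).1 (X.B x.1) / 2) ^ 2 / ((-val (c x.2).1 (X.B x.1) / 2) ^ 2 -
        val (c x.2).1 (X.α x.1) ^ 3))
    have hBd : Bd.Finite := (Set.finite_range _).insert 0
    have hinf : Bdᶜ.Infinite := hBd.infinite_compl
    let e := hinf.natEmbedding
    refine ⟨fun j => (e j).1, fun i j h => ?_, fun j h => ?_, fun i l j h => ?_⟩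
    · exact Fin.ext (e.injective (Subtype.ext h))
    · apply (e j).2
      have h' : (e j).1 = 0 := h
      rw [h']
      exact Set.mem_insert _ _
    · apply (e j).2
      right
      refine ⟨(i, l), ?_⟩
      have h1 := hdisc _ (hgood l) i
      simp only
      rw [div_eq_iff h1]
      linear_combination h
  let T : Finset (Place k L) := Finset.univ.biUnion fun i => (X.D i).support
  have hT : ∀ i q, X.D i q ≠ 0 → q ∈ T := fun i q hq =>
    Finset.mem_biUnion.2 ⟨i, Finset.mem_univ i, Finsupp.mem_support_iff.2 hq⟩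
  have hDc : ∀ i j, X.D i (c j).1 = 0 := fun i j => (hgood j i).2.2.2
  have hTc : ∀ j, (c j).1 ∉ T := by
    intro j hj
    obtain ⟨i, _, hi⟩ := Finset.mem_biUnion.1 hj
    exact Finsupp.mem_support_iff.1 hi (hDc i j)
  -- the functions
  have hB0 : ∀ i, -X.B i / 2 ≠ 0 → X.B i ≠ 0 := fun i h h0 => h (by
    rw [h0, neg_zero, zero_div])
  have hbord : ∀ (i : Fin r) (q : Place k L), ord q (-X.B i / 2) = ord q (X.B i) := by
    intro i q
    by_cases hB : X.B i = 0
    · rw [hB, neg_zero, zero_div]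
    have h1 : -X.B i / 2 = algebraMap k L (-1 / 2) * X.B i := by
      rw [map_div₀, map_neg, map_one, map_ofNat]
      ring
    have h3 : algebraMap k L (-1 / 2) ≠ 0 := (_root_.map_ne_zero _).2 (by norm_num)
    rw [h1, ord_mul hL q h3 hB, ord_const hL, zero_add]
  have okα : ∀ i, FamOk (k := k) (fun j => (c j).1) (X.α i) 2 (X.D i) := fun i =>
    ⟨fun j => by
      by_cases h0 : X.α i = 0
      · rw [h0, ord_zero]
      · exact (ord_eq_zero_iff hL h0).2 (hgood j i).1, fun h0 q => by
      have := hX.α_mem i h0 q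
      push_cast
      exact this⟩
  have okb : ∀ i, FamOk (k := k) (fun j => (c j).1) (-X.B i / 2) 3 (X.D i) := fun i =>
    ⟨fun j => by
      rw [hbord]
      by_cases h0 : X.B i = 0
      · rw [h0, ord_zero]
      · exact (ord_eq_zero_iff hL h0).2 (hgood j i).2.1, fun h0 q => by
      rw [hbord]
      have := hX.B_mem i (hB0 i h0) q
      push_cast
      exact this⟩
  have okθ : ∀ i j, FamOk (k := k) (fun j => (c j).1)
      ((-X.B i / 2) ^ 2 - algebraMap k L (θ j) * ((-X.B i / 2) ^ 2 - X.α i ^ 3)) 6 (X.D i) := by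
    intro i j
    have h0 : (-X.B i / 2) ^ 2 - algebraMap k L (θ j) * ((-X.B i / 2) ^ 2 - X.α i ^ 3) ≠ 0 := by
      intro h
      have h1 := hθat _ (hgood j) i (θ j)
      rw [h] at h1
      have h2 : (c j).1.At (0 : L) (0 : k) := by
        have h := Place.at_const (v := (c j).1) (0 : k)
        rwa [map_zero] at h
      exact hθ i j j (h1.unique h2)
    refine ⟨fun l => ord_of_at hL (hθat _ (hgood l) i (θ j)) (hθ i l j), fun _ q => ?_⟩
    have e1 : (-X.B i / 2) ^ 2 - algebraMap k L (θ j) * ((-X.B i / 2) ^ 2 - X.α i ^ 3) =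
        algebraMap k L (1 - θ j) * (-X.B i / 2) ^ 2 + algebraMap k L (θ j) * X.α i ^ 3 := by
      rw [map_sub, map_one]
      ring
    have h3 : -(6 * X.D i q) ≤
        ord q (algebraMap k L (1 - θ j) * (-X.B i / 2) ^ 2 + algebraMap k L (θ j) * X.α i ^ 3) := by
      refine le_ord_add hL (e1 ▸ h0) (fun h => ?_) (fun h => ?_)
      · have hB1 : X.B i ≠ 0 := hB0 i (fun h5 => right_ne_zero_of_mul h (by
          rw [h5]
          exact zero_pow two_ne_zero))
        rw [ord_mul hL q (left_ne_zero_of_mul h) (right_ne_zero_of_mul h), ord_const hL, zero_add,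
          ord_pow hL, hbord]
        have := hX.B_mem i hB1 q
        push_cast
        omega
      · have hA1 : X.α i ≠ 0 := fun h5 => right_ne_zero_of_mul h (by
          rw [h5]
          exact zero_pow three_ne_zero)
        rw [ord_mul hL q (left_ne_zero_of_mul h) (right_ne_zero_of_mul h), ord_const hL, zero_add,
          ord_pow hL]
        have := hX.α_mem i hA1 q
        push_cast
        omega
    have h6 : ((6 : ℕ) : ℤ) = 6 := rfl
    rw [e1, h6]
    omega
  -- values of the tuple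
  have hscl : ∀ i j, scl (s j).2 (X.D i) = 1 := fun i j => fam_scl_one _ (hs1 j) _
  have hea : ∀ i j, (X.base hL U hU Z).ea s i j = val (c j).1 (X.α i) := by
    intro i j
    show scl (s j).2 (X.D i) ^ 2 * val (s j).1.1 (X.α i) = _
    rw [hscl, one_pow, one_mul]
  have heb : ∀ i j, (X.base hL U hU Z).eb s i j = val (c j).1 (X.B i) := by
    intro i j
    show scl (s j).2 (X.D i) ^ 3 * val (s j).1.1 (X.B i) = _
    rw [hscl, one_pow, one_mul]
  have hvb : ∀ i j, val (c j).1 (-X.B i / 2) = -(X.base hL U hU Z).eb s i j / 2 := fun i j => by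
    rw [heb]
    exact val_eq (hbat _ (hgood j) i)
  have hvθ : ∀ i j l, val (c l).1
      ((-X.B i / 2) ^ 2 - algebraMap k L (θ j) * ((-X.B i / 2) ^ 2 - X.α i ^ 3)) =
      (-(X.base hL U hU Z).eb s i l / 2) ^ 2 - θ j * ((-(X.base hL U hU Z).eb s i l / 2) ^ 2 -
        (X.base hL U hU Z).ea s i l ^ 3) := fun i j l => by
    rw [heb, hea]
    exact val_eq (hθat _ (hgood l) i (θ j))
  let cc : Fin n → Place k L := fun j => (c j).1
  refine ⟨{
    ρ := ρ
    nα := fun i => famN hL φ cc (X.α i) 2 (X.D i)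
    nb := fun i => famN hL φ cc (-X.B i / 2) 3 (X.D i)
    nθ := fun i j => famN hL φ cc
      ((-X.B i / 2) ^ 2 - algebraMap k L (θ j) * ((-X.B i / 2) ^ 2 - X.α i ^ 3)) 6 (X.D i)
    θ := θ
    inj := hθinj
    ne := hθ0
    dα := fun i z => famN_deg hL φ cc _ _ _ (hX.deg i) (okα i).eff z
    db := fun i z => famN_deg hL φ cc _ _ _ (hX.deg i) (okb i).eff z
    dθ := fun i j z => famN_deg hL φ cc _ _ _ (hX.deg i) (okθ i j).eff z
    zα := fun i z => by
      rw [famN, nmP_eval_zero]
      exact Finset.prod_congr rfl fun j _ => (hea i j).symm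
    zb := fun i z => by
      rw [famN, nmP_eval_zero]
      exact Finset.prod_congr rfl fun j _ => hvb i j
    zθ := fun i j z => by
      rw [famN, nmP_eval_zero]
      exact Finset.prod_congr rfl fun l _ => hvθ i j l
    cα := fun i => by
      rw [famN, nmP_zero]
      congr 1
      exact Finset.prod_congr rfl fun j _ => (hea i j).symm
    cb := fun i => by
      rw [famN, nmP_zero]
      congr 1
      exact Finset.prod_congr rfl fun j _ => hvb i j
    cθ := fun i j => by
      rw [famN, nmP_zero]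
      congr 1
      exact Finset.prod_congr rfl fun l _ => hvθ i j l
    u := 1
    h := fun z => ∑ m, z m * val δ (φ m)
    u_ne := one_ne_zero
    pts := ?_ }, rfl⟩
  intro z hz τ hτ _
  set φz : L := ∑ m, algebraMap k L (z m) * φ m with hφz
  have hφreg : ∀ v : Place k L, (∀ j, (c j).1 ≠ v) → φz ∈ v.ring := fun v hv =>
    sum_mem fun m _ => mul_mem (v.const_mem _) (hreg m v hv)
  have hφ0 : φz ≠ 0 := by
    have := hind z hz 0
    rwa [map_zero] at this
  have hφpole : ∀ j, -1 ≤ ord (c j).1 φz := fun j =>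
    fam_ord_sum hL φ z (fun m => hpole m j) Finset.univ hφ0
  obtain ⟨S, j₀, h1, h2, h3⟩ := exists_points hL c hc (hind z hz) hφreg hφpole T hTc hτ
  let lam : Fin n → Place k L → (Om k)ˣ := fun j q =>
    if j = j₀ ∧ q ∈ T then Units.mk0 _ (fam_ne hτ (val q φz)) else 1
  let SS : Fin n → (X.base hL U hU Z).Q := fun j => (S j, lam j)
  have hprod : ∀ i (w : ℕ), ∏ j, scl (lam j) (X.D i) ^ w =
      (∏ q ∈ T, (1 + τ * algebraMap k (Om k) (val q φz)) ^ (X.D i q)) ^ w := by
    intro i w
    rw [Finset.prod_pow]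
    congr 1
    rw [Finset.prod_eq_single j₀]
    · unfold scl
      rw [Finsupp.prod_of_support_subset (s := T)]
      · refine Finset.prod_congr rfl fun q hq => ?_
        have hl : lam j₀ q = Units.mk0 _ (fam_ne hτ (val q φz)) := if_pos ⟨rfl, hq⟩
        rw [hl, Units.val_zpow_eq_zpow_val, Units.val_mk0]
      · intro q hq
        exact hT i q (Finsupp.mem_support_iff.1 hq)
      · intro q _
        rw [zpow_zero, Units.val_one]
    · intro j _ hj
      exact fam_scl_one _ (fun q => if_neg fun h => hj h.1) _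
    · intro h
      exact absurd (Finset.mem_univ _) h
  -- `evO` is compatible with the operations
  have evb : ∀ i j, evO (S j) (-X.B i / 2) = -evO (S j) (X.B i) / 2 := by
    intro i j
    rcases S j with σ | q
    · show σ _ = -σ _ / 2
      rw [map_div₀, map_neg, map_ofNat]
    · show algebraMap k (Om k) _ = -algebraMap k (Om k) _ / 2
      rw [val_eq (hbat q.1 (hU q.1 q.2) i), map_div₀, map_neg, map_ofNat]
  have evθ : ∀ i j l, evO (S l)
      ((-X.B i / 2) ^ 2 - algebraMap k L (θ j) * ((-X.B i / 2) ^ 2 - X.α i ^ 3)) =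
      (-evO (S l) (X.B i) / 2) ^ 2 - algebraMap k (Om k) (θ j) *
        ((-evO (S l) (X.B i) / 2) ^ 2 - evO (S l) (X.α i) ^ 3) := by
    intro i j l
    rcases S l with σ | q
    · show σ _ = (-σ _ / 2) ^ 2 - _ * ((-σ _ / 2) ^ 2 - σ _ ^ 3)
      rw [map_sub, map_mul, map_sub, map_pow, map_pow, map_div₀, map_neg, map_ofNat,
        AlgHom.commutes]
    · show algebraMap k (Om k) _ = (-algebraMap k (Om k) _ / 2) ^ 2 -
        _ * ((-algebraMap k (Om k) _ / 2) ^ 2 - algebraMap k (Om k) _ ^ 3)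
      rw [val_eq (hθat q.1 (hU q.1 q.2) i (θ j)), map_sub, map_mul, map_sub, map_pow, map_pow,
        map_div₀, map_neg, map_ofNat]
  have hEA : ∀ i j, (X.base hL U hU Z).EA SS i j = scl (lam j) (X.D i) ^ 2 * evO (S j) (X.α i) :=
    fun _ _ => rfl
  have hEB : ∀ i j, (X.base hL U hU Z).EB SS i j = scl (lam j) (X.D i) ^ 3 * evO (S j) (X.B i) :=
    fun _ _ => rfl
  have hδc : ∀ j, (c j).1 ≠ δ := fun j h => hδU (h ▸ (c j).2)
  have hδat : δ.At φz (∑ m, z m * val δ (φ m)) :=
    fam_at_sum hL φ z fun m => hreg m δ hδc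
  refine ⟨SS, fun i => ?_, fun i => ?_, fun i j => ?_, fun v hv => ?_, fun v hv => ?_⟩
  · rw [← famN_aeval hL φ z c hreg (okα i) (hDc i) T (hT i) S j₀ h1]
    simp only [hEA]
    rw [Finset.prod_mul_distrib, hprod]
  · rw [← famN_aeval hL φ z c hreg (okb i) (hDc i) T (hT i) S j₀ h1]
    have e1 : ∀ j, -(X.base hL U hU Z).EB SS i j / 2 =
        scl (lam j) (X.D i) ^ 3 * evO (S j) (-X.B i / 2) := by
      intro j
      rw [hEB, evb]
      ring
    simp only [e1]
    rw [Finset.prod_mul_distrib, hprod]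
  · rw [← famN_aeval hL φ z c hreg (okθ i j) (hDc i) T (hT i) S j₀ h1]
    have e1 : ∀ l, (-(X.base hL U hU Z).EB SS i l / 2) ^ 2 - algebraMap k (Om k) (θ j) *
        ((-(X.base hL U hU Z).EB SS i l / 2) ^ 2 - (X.base hL U hU Z).EA SS i l ^ 3) =
        scl (lam l) (X.D i) ^ 6 * evO (S l)
          ((-X.B i / 2) ^ 2 - algebraMap k L (θ j) * ((-X.B i / 2) ^ 2 - X.α i ^ 3)) := by
      intro l
      rw [hEB, hEA, evθ]
      ring
    simp only [e1]
    rw [Finset.prod_mul_distrib, hprod]
  · obtain ⟨π, hπ⟩ := h2 v hv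
    refine ⟨π, fun j => ⟨hπ j, fun q => ?_⟩⟩
    show v.At ((lam j q : (Om k)ˣ) : Om k) (((s (π j)).2 q : kˣ) : k)
    rw [hs1, Units.val_one]
    simp only [lam]
    have e1 : v.At (1 : Om k) (1 : k) := by
      have h := Place.at_const (v := v) (1 : k)
      rwa [map_one] at h
    by_cases hj : j = j₀ ∧ q ∈ T
    · rw [if_pos hj, Units.val_mk0]
      have e2 := e1.add (hv.mul (Place.at_const (v := v) (val q φz)))
      rwa [zero_mul, add_zero] at e2
    · rw [if_neg hj, Units.val_one]
      exact e1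
  · have e0 : v.At (-τ⁻¹) (∑ m, z m * val δ (φ m)) := by
      rcases hv with ⟨τ₁, hτ₁, he⟩ | ⟨hτv, he⟩
      · have hτ0 : τ₁ ≠ 0 := by
          rintro rfl
          rw [zero_mul, add_zero] at he
          exact one_ne_zero he
        have e1 := (hτ₁.inv hτ0).neg
        have e2 : ∑ m, z m * val δ (φ m) = -τ₁⁻¹ := by
          field_simp
          linear_combination he
        rw [e2]
        exact e1
      · rw [he]
        have e1 : v.At τ⁻¹ 0 := by
          rw [Place.at_zero_iff, Place.vanishes_iff_or]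
          right
          rwa [inv_inv]
        have e2 := e1.neg
        rwa [neg_zero] at e2
    obtain ⟨j, hj⟩ := h3 v _ δ e0 hδat
    exact ⟨j, i₀, δ, hδ, hj⟩

/-- The deformations of a tuple of points with different places and trivial scalings. -/
theorem exists_family (X : Cub k L r) (hL : IsCurve k L) {d : Fin r → ℕ} (hX : X.Ok d)
    {U : Set (Place k L)} (hU : ∀ c ∈ U, X.Good c) (Z : Fin r → Set (Place k L)) {g : ℕ}
    (hg : Riemann hL g) (s : Fin n → (X.base hL U hU Z).P)
    (hs : Function.Injective fun j => (s j).1) (hs1 : ∀ j q, (s j).2 q = 1) {i₀ : Fin r}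
    {δ : Place k L} (hδ : δ ∈ Z i₀) (hδU : δ ∉ U) {ρ : ℕ} (hρ : ρ + g ≤ n) :
    ∃ F : CurveFam (X.base hL U hU Z) d s, F.ρ = ρ :=
  exists_familyZ X hL hX.toZ hU Z hg s hs hs1 hδ hδU hρ

end Pool.Agent.TInc
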