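import Pool.Agent.TInc.Defs

/-!
# General tuples
-/

set_option autoImplicit false

noncomputable section

namespace Pool.Agent.TInc

open Pool.Agent.ZCyc Pool.Agent.Dess Pool.Agent.KFam Pool.Agent.TInf Module
open Pool.Agent.VFP (Om tt)
open scoped Classical

variable {k L : Type} [Field k] [IsAlgClosed k] [CharZero k] [Field L] [Algebra k L] {n r : ℕ}
  {W : Type*} [AddCommGroup W] [Module ℚ W]

private theorem gb_val_ne (hL : IsCurve k L) {c : Place k L} {f : L} (h : f ∈ c.ring)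
    (h' : f⁻¹ ∈ c.ring) (hf : f ≠ 0) : val c f ≠ 0 := by
  intro h0
  have h1 := at_val hL h
  rw [h0] at h1
  have h2 := h1.mul (at_val hL h')
  rw [mul_inv_cancel₀ hf, zero_mul] at h2
  have h3 : c.At (1 : L) (1 : k) := by
    have h4 := Place.at_const (v := c) (1 : k)
    rwa [map_one] at h4
  exact one_ne_zero (h3.unique h2)

omit [IsAlgClosed k] [CharZero k] in
private theorem gb_scl_ne {K : Type} [Field K] (l : Place k L → Kˣ) (D : Place k L →₀ ℤ) :
    scl l D ≠ 0 := by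
  unfold scl Finsupp.prod
  exact Finset.prod_ne_zero_iff.2 fun q _ => Units.ne_zero _

private theorem gb_disc (hL : IsCurve k L) {c : Place k L} {a b : L} (ha : a ∈ c.ring)
    (hb : b ∈ c.ring) (hd : b ^ 2 - 4 * a ^ 3 ≠ 0) (hi : (b ^ 2 - 4 * a ^ 3)⁻¹ ∈ c.ring) :
    val c b ^ 2 - 4 * val c a ^ 3 ≠ 0 := by
  have h1 : c.At (b ^ 2 - 4 * a ^ 3) (val c b ^ 2 - 4 * val c a ^ 3) := by
    have h2 := Place.at_const (v := c) (4 : k)
    rw [map_ofNat] at h2
    exact ((at_val hL hb).pow 2).sub (h2.mul ((at_val hL ha).pow 3))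
  have h3 := gb_val_ne hL h1.mem hi hd
  rwa [val_eq h1] at h3

private theorem gb_quot (hL : IsCurve k L) {c : Place k L} {a b : L} (ha : a ∈ c.ring)
    (hb : b ∈ c.ring) (hi : a⁻¹ ∈ c.ring) (h0 : a ≠ 0) :
    val c (b ^ 2 / a ^ 3) = val c b ^ 2 / val c a ^ 3 :=
  val_eq (((at_val hL hb).pow 2).div ((at_val hL ha).pow 3)
    (pow_ne_zero 3 (gb_val_ne hL ha hi h0)))

private theorem gb_const (hL : IsCurve k L) {c : Place k L} {a b : L} (ha : a ∈ c.ring)
    (hb : b ∈ c.ring) {e : k} (h : b ^ 2 = algebraMap k L e * a ^ 3) :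
    val c b ^ 2 = e * val c a ^ 3 := by
  have h1 := (at_val hL hb).pow 2
  rw [h] at h1
  exact h1.unique ((Place.at_const (v := c) e).mul ((at_val hL ha).pow 3))

/-- For every index `B_i ² / α_i ³` is constant, or its values at the places are different. -/
theorem base_gen (X : Cub k L r) (hL : IsCurve k L) {d : Fin r → ℕ} (hX : X.Ok d)
    {U : Set (Place k L)} (hU : ∀ c ∈ U, X.Good c) (Z : Fin r → Set (Place k L))
    (s : Fin n → (X.base hL U hU Z).P)
    (h : ∀ i, (∃ c : k, X.B i ^ 2 = algebraMap k L c * X.α i ^ 3) ∨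
      ∀ j j', j ≠ j' → val (s j).1.1 (X.B i ^ 2 / X.α i ^ 3) ≠
        val (s j').1.1 (X.B i ^ 2 / X.α i ^ 3)) : (X.base hL U hU Z).Gen s := by
  -- the values are not zero
  have hg : ∀ j, X.Good (s j).1.1 := fun j => hU _ (s j).1.2
  have ha : ∀ i j, val (s j).1.1 (X.α i) ≠ 0 := fun i j =>
    gb_val_ne hL (hg j i).1.1 (hg j i).1.2 (hX.α_ne i)
  have hb : ∀ i j, val (s j).1.1 (X.B i) ≠ 0 := fun i j =>
    gb_val_ne hL (hg j i).2.1.1 (hg j i).2.1.2 (hX.B_ne i)
  have hd : ∀ i j, val (s j).1.1 (X.B i) ^ 2 - 4 * val (s j).1.1 (X.α i) ^ 3 ≠ 0 := fun i j =>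
    gb_disc hL (hg j i).1.1 (hg j i).2.1.1 (hX.disc i) (hg j i).2.2.1
  have hm : ∀ i j, scl (s j).2 (X.D i) ≠ 0 := fun i j => gb_scl_ne _ _
  have ea : ∀ i j, (X.base hL U hU Z).ea s i j =
      scl (s j).2 (X.D i) ^ 2 * val (s j).1.1 (X.α i) := fun i j => rfl
  have eb : ∀ i j, (X.base hL U hU Z).eb s i j =
      scl (s j).2 (X.D i) ^ 3 * val (s j).1.1 (X.B i) := fun i j => rfl
  -- the distinct case
  have hdist : ∀ i, (∀ j j', j ≠ j' → val (s j).1.1 (X.B i ^ 2 / X.α i ^ 3) ≠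
      val (s j').1.1 (X.B i ^ 2 / X.α i ^ 3)) → ∀ j j', j ≠ j' →
      (X.base hL U hU Z).eb s i j ^ 2 * (X.base hL U hU Z).ea s i j' ^ 3 ≠
        (X.base hL U hU Z).eb s i j' ^ 2 * (X.base hL U hU Z).ea s i j ^ 3 := by
    intro i h1 j j' hj h2
    apply h1 j j' hj
    rw [gb_quot hL (hg j i).1.1 (hg j i).2.1.1 (hg j i).1.2 (hX.α_ne i),
      gb_quot hL (hg j' i).1.1 (hg j' i).2.1.1 (hg j' i).1.2 (hX.α_ne i),
      div_eq_div_iff (pow_ne_zero 3 (ha i j)) (pow_ne_zero 3 (ha i j'))]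
    rw [ea, ea, eb, eb] at h2
    have h3 : (scl (s j).2 (X.D i) ^ 6 * scl (s j').2 (X.D i) ^ 6) ≠ 0 :=
      mul_ne_zero (pow_ne_zero 6 (hm i j)) (pow_ne_zero 6 (hm i j'))
    apply mul_left_cancel₀ h3
    linear_combination h2
  -- the constant case
  have hcst : ∀ i (e : k), X.B i ^ 2 = algebraMap k L e * X.α i ^ 3 →
      ∀ x : (X.base hL U hU Z).P, (X.base hL U hU Z).be i x ^ 2 =
        e * (X.base hL U hU Z).al i x ^ 3 := by
    intro i e he x
    have h1 := hU _ x.1.2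
    have h2 := gb_const hL (h1 i).1.1 (h1 i).2.1.1 he
    change (scl x.2 (X.D i) ^ 3 * val x.1.1 (X.B i)) ^ 2 =
      e * (scl x.2 (X.D i) ^ 2 * val x.1.1 (X.α i)) ^ 3
    linear_combination (scl x.2 (X.D i)) ^ 6 * h2
  refine ⟨fun i => ⟨fun j => ?_, fun j => ?_, fun j => ?_, ?_⟩, fun i => ?_⟩
  · rw [ea]
    exact mul_ne_zero (pow_ne_zero 2 (hm i j)) (ha i j)
  · rw [eb]
    exact mul_ne_zero (pow_ne_zero 3 (hm i j)) (hb i j)
  · intro h1
    rw [ea, eb] at h1
    apply mul_ne_zero (pow_ne_zero 6 (hm i j)) (hd i j)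
    linear_combination h1
  · rcases h i with ⟨e, he⟩ | h1
    · right
      intro j j'
      have h1 : (X.base hL U hU Z).eb s i j ^ 2 = e * (X.base hL U hU Z).ea s i j ^ 3 :=
        hcst i e he (s j)
      have h2 : (X.base hL U hU Z).eb s i j' ^ 2 = e * (X.base hL U hU Z).ea s i j' ^ 3 :=
        hcst i e he (s j')
      rw [h1, h2]
      ring
    · left
      exact hdist i h1
  · rcases h i with ⟨e, he⟩ | h1
    · right
      refine ⟨e, ?_, hcst i e he, ?_⟩
      · rintro rfl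
        rw [map_zero, zero_mul] at he
        exact hX.B_ne i (pow_eq_zero_iff (by norm_num) |>.1 he)
      · rintro ⟨S, l⟩
        change (scl l (X.D i) ^ 3 * evO S (X.B i)) ^ 2 =
          algebraMap k (Om k) e * (scl l (X.D i) ^ 2 * evO S (X.α i)) ^ 3
        have h2 : evO S (X.B i) ^ 2 = algebraMap k (Om k) e * evO S (X.α i) ^ 3 := by
          rcases S with σ | c
          · change σ (X.B i) ^ 2 = algebraMap k (Om k) e * σ (X.α i) ^ 3
            rw [← map_pow, he, map_mul, AlgHom.commutes, map_pow]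
          · change algebraMap k (Om k) (val c.1 (X.B i)) ^ 2 =
              algebraMap k (Om k) e * algebraMap k (Om k) (val c.1 (X.α i)) ^ 3
            have h3 := hU _ c.2
            rw [← map_pow, ← map_pow, ← map_mul,
              gb_const hL (h3 i).1.1 (h3 i).2.1.1 he]
        linear_combination (scl l (X.D i)) ^ 6 * h2
    · left
      exact hdist i h1

end Pool.Agent.TInc
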