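import Pool.Agent.TInc.Fam
import Pool.Agent.TInc.GenB

/-!
# The classes for the base defined by cubics over a function field
-/

set_option autoImplicit false

noncomputable section

namespace Pool.Agent.TInc

open Pool.Agent.ZCyc Pool.Agent.Dess Pool.Agent.KFam Pool.Agent.TInf Module
open Pool.Agent.VFP (Om tt)
open scoped Classical

variable {k L : Type} [Field k] [IsAlgClosed k] [CharZero k] [Field L] [Algebra k L] {n r : ℕ}
  {W : Type*} [AddCommGroup W] [Module ℚ W]

/-- The class of an `n`-tuple of points over different places is zero if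
`n ≥ (∑ d i) / 2 + g`. -/
theorem zero_base (X : Cub k L r) (hL : IsCurve k L) {d : Fin r → ℕ} (hX : X.Ok d)
    {U : Set (Place k L)} (hU : ∀ c ∈ U, X.Good c) (Z : Fin r → Set (Place k L)) {g : ℕ}
    (hg : Riemann hL g) {n₀ : ℕ} (hd : ∑ i, d i = 2 * n₀) (hn₀ : 0 < n₀) (hn : n₀ + g ≤ n)
    (Y : SysB (X.base hL U hU Z) n W) (s : Fin n → (X.base hL U hU Z).P)
    (hgen : (X.base hL U hU Z).Gen s) (hs : Function.Injective fun j => (s j).1)
    (hs1 : ∀ j q, (s j).2 q = 1) {i₀ : Fin r} {δ : Place k L} (hδ : δ ∈ Z i₀) (hδU : δ ∉ U)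
    (p : Fin r → Fin n → EPt k) : Y.F s p = 0 := by
  obtain ⟨F, hF⟩ := exists_family X hL hX hU Z hg s hs hs1 hδ hδU (ρ := n₀) hn
  exact Y.zero_gen hd hn₀ (by omega) hgen F (le_of_eq hF.symm) p

end Pool.Agent.TInc
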