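import Pool.Agent.TInc.Ord
import Pool.Agent.ZCyc.Places

/-!
# Riemann's inequality for function fields of one variable

`LDu D` is the space of the functions whose poles are bounded by the divisor `D`, a function from
the places to the integers which is zero outside a finite set.
-/

set_option autoImplicit false

noncomputable section

namespace Pool.Agent.TInc

open Pool.Agent.ZCyc Pool.Agent.Dess Polynomial Module
open scoped Classical IntermediateField.algebraAdjoinAdjoin

section Riem

variable {k F : Type} [Field k] [IsAlgClosed k] [CharZero k] [Field F] [Algebra k F]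

omit [IsAlgClosed k] [CharZero k] in
private lemma riem_unif_zpow {v : Place k F} {π π' : F} (h : IsUnif v π) (h' : IsUnif v π')
    (n : ℤ) : (π' / π) ^ n ∈ v.ring := by
  obtain ⟨m, rfl | rfl⟩ := n.eq_nat_or_neg
  · rw [zpow_natCast]
    exact pow_mem (h.2.2 _ h'.2.1) _
  · rw [zpow_neg, zpow_natCast, ← inv_pow, inv_div]
    exact pow_mem (h'.2.2 _ h.2.1) _

omit [IsAlgClosed k] [CharZero k] in
/-- The condition does not depend on the uniformizer. -/
theorem unif_iff {v : Place k F} {π π' : F} (h : IsUnif v π) (h' : IsUnif v π') (f : F) (n : ℤ) :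
    f * π ^ n ∈ v.ring ↔ f * π' ^ n ∈ v.ring := by
  have key : ∀ {π π' : F}, IsUnif v π → IsUnif v π' → f * π ^ n ∈ v.ring →
      f * π' ^ n ∈ v.ring := by
    intro π π' h h' h1
    have h2 : f * π' ^ n = f * π ^ n * (π' / π) ^ n := by
      have := zpow_ne_zero n h.1
      rw [div_zpow]
      field_simp
    rw [h2]
    exact mul_mem h1 (riem_unif_zpow h h' n)
  exact ⟨key h h', key h' h⟩

/-- the functions `f` for which `f * a` is regular at `v` -/
def subv (v : Place k F) (a : F) : Submodule k F where
  carrier := {f | f * a ∈ v.ring}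
  add_mem' := by
    intro f g hf hg
    rw [Set.mem_ofPred_eq, add_mul]
    exact add_mem hf hg
  zero_mem' := by
    rw [Set.mem_ofPred_eq, zero_mul]
    exact zero_mem _
  smul_mem' := by
    intro c f hf
    rw [Set.mem_ofPred_eq, Algebra.smul_def, mul_assoc]
    exact mul_mem (v.const_mem c) hf

omit [IsAlgClosed k] [CharZero k] in
theorem mem_subv {v : Place k F} {a f : F} : f ∈ subv v a ↔ f * a ∈ v.ring := Iff.rfl

/-- The functions whose poles are bounded by the divisor `D`. -/
def LDu (D : Place k F → ℤ) : Submodule k F where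
  carrier := {f | ∀ (v : Place k F) (π : F), IsUnif v π → f * π ^ D v ∈ v.ring}
  add_mem' := by
    intro f g hf hg v π hπ
    rw [add_mul]
    exact add_mem (hf v π hπ) (hg v π hπ)
  zero_mem' := by
    intro v π _
    rw [zero_mul]
    exact zero_mem _
  smul_mem' := by
    intro c f hf v π hπ
    rw [Algebra.smul_def, mul_assoc]
    exact mul_mem (v.const_mem c) (hf v π hπ)

omit [IsAlgClosed k] [CharZero k] in
theorem mem_LDu {D : Place k F → ℤ} {f : F} :
    f ∈ LDu D ↔ ∀ (v : Place k F) (π : F), IsUnif v π → f * π ^ D v ∈ v.ring := Iff.rfl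

omit [IsAlgClosed k] [CharZero k] in
private lemma riem_zpow_le {v : Place k F} {π : F} (hπ : IsUnif v π) {a b : ℤ} (h : a ≤ b) {f : F}
    (hf : f * π ^ a ∈ v.ring) : f * π ^ b ∈ v.ring := by
  obtain ⟨m, hm⟩ := Int.eq_ofNat_of_zero_le (sub_nonneg.2 h)
  have h1 : f * π ^ b = f * π ^ a * π ^ m := by
    rw [← zpow_natCast, mul_assoc, ← zpow_add₀ hπ.1]
    congr 2
    omega
  rw [h1]
  exact mul_mem hf (pow_mem hπ.2.1.mem _)

omit [IsAlgClosed k] [CharZero k] in
theorem LDu_mono {D D' : Place k F → ℤ} (h : ∀ v, D v ≤ D' v) : LDu D ≤ LDu D' :=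
  fun _ hf v π hπ => riem_zpow_le hπ (h v) (hf v π hπ)

omit [CharZero k] in
/-- one condition is a linear function -/
private lemma riem_functional [CharZero k] (hF : IsCurve k F) {v : Place k F} {π : F}
    (hπ : IsUnif v π) (a : ℤ) (V : Submodule k F) (hV : V ≤ subv v (π ^ (a + 1))) :
    ∃ L : V →ₗ[k] k, (LinearMap.ker L).map V.subtype = V ⊓ subv v (π ^ a) := by
  have hex : ∀ f : V, ∃ c, v.At ((f : F) * π ^ (a + 1)) c := fun f => exists_at hF v (hV f.2)
  choose l hl using hex
  let L : V →ₗ[k] k :=
    { toFun := l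
      map_add' := by
        intro f g
        apply (hl (f + g)).unique
        have := (hl f).add (hl g)
        rwa [← add_mul] at this
      map_smul' := by
        intro c f
        apply (hl (c • f)).unique
        have := (Place.at_const (v := v) c).mul (hl f)
        rw [← mul_assoc, ← Algebra.smul_def] at this
        simpa using this }
  refine ⟨L, ?_⟩
  have h4 : ∀ f : F, f * π ^ (a + 1) / π = f * π ^ a := by
    intro f
    rw [zpow_add_one₀ hπ.1, ← mul_assoc, mul_div_assoc, div_self hπ.1, mul_one]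
  apply le_antisymm
  · rintro f ⟨g, hg, rfl⟩
    refine ⟨g.2, ?_⟩
    have h1 : l g = 0 := hg
    have h2 := hl g
    rw [h1, Place.at_zero_iff] at h2
    have h3 := hπ.2.2 _ h2
    rw [h4] at h3
    exact h3
  · rintro f ⟨hf1, hf2⟩
    refine ⟨⟨f, hf1⟩, ?_, rfl⟩
    change l ⟨f, hf1⟩ = 0
    apply (hl ⟨f, hf1⟩).unique
    rw [Place.at_zero_iff]
    have h5 : ((⟨f, hf1⟩ : V) : F) * π ^ (a + 1) = π * (f * π ^ a) := by
      rw [zpow_add_one₀ hπ.1]
      ring
    rw [h5]
    exact hπ.2.1.mul _ hf2

/-- one condition cuts the dimension down by at most one -/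
private lemma riem_step (hF : IsCurve k F) {v : Place k F} {π : F} (hπ : IsUnif v π) (a : ℤ)
    (V : Submodule k F) [FiniteDimensional k V] (hV : V ≤ subv v (π ^ (a + 1))) :
    finrank k V ≤ finrank k (V ⊓ subv v (π ^ a) : Submodule k F) + 1 := by
  obtain ⟨L, hL⟩ := riem_functional hF hπ a V hV
  rw [← hL, Submodule.finrank_map_subtype_eq, ← LinearMap.finrank_range_add_finrank_ker L,
    add_comm]
  have h1 := Submodule.finrank_le (LinearMap.range L)
  rw [Module.finrank_self] at h1
  omega

private lemma riem_fd (hF : IsCurve k F) {v : Place k F} {π : F} (hπ : IsUnif v π) (a : ℤ)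
    (V : Submodule k F) (hV : V ≤ subv v (π ^ (a + 1)))
    (h : FiniteDimensional k (V ⊓ subv v (π ^ a) : Submodule k F)) : FiniteDimensional k V := by
  obtain ⟨L, hL⟩ := riem_functional hF hπ a V hV
  rw [← hL] at h
  have h1 : FiniteDimensional k (LinearMap.ker L) :=
    Module.Finite.equiv (Submodule.equivMapOfInjective V.subtype V.injective_subtype
      (LinearMap.ker L)).symm
  have h2 : FiniteDimensional k (V ⧸ LinearMap.ker L) :=
    Module.Finite.equiv L.quotKerEquivRange.symm
  exact Module.Finite.of_submodule_quotient (LinearMap.ker L)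

omit [IsAlgClosed k] [CharZero k] in
private lemma riem_inf {v : Place k F} {π : F} (hπ : IsUnif v π) {a b : ℤ} (h : a ≤ b)
    (V : Submodule k F) : V ⊓ subv v (π ^ b) ⊓ subv v (π ^ a) = V ⊓ subv v (π ^ a) := by
  apply le_antisymm
  · exact inf_le_inf inf_le_left le_rfl
  · exact le_inf (le_inf inf_le_left fun f hf => riem_zpow_le hπ h hf.2) inf_le_right

private lemma riem_steps (hF : IsCurve k F) {v : Place k F} {π : F} (hπ : IsUnif v π) (a : ℤ)
    (m : ℕ) : ∀ (V : Submodule k F) [FiniteDimensional k V], V ≤ subv v (π ^ (a + m)) →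
      finrank k V ≤ finrank k (V ⊓ subv v (π ^ a) : Submodule k F) + m := by
  induction m with
  | zero =>
    intro V _ hV
    rw [Nat.cast_zero, add_zero] at hV
    rw [inf_eq_left.2 hV, add_zero]
  | succ m ih =>
    intro V _ hV
    have h1 := riem_step hF hπ (a + m) V (by
      have : a + (m : ℤ) + 1 = a + ((m + 1 : ℕ) : ℤ) := by push_cast; ring
      rwa [this])
    have h2 := ih (V ⊓ subv v (π ^ (a + m))) inf_le_right
    rw [riem_inf hπ (by omega)] at h2
    omega

private lemma riem_places (hF : IsCurve k F) {π : Place k F → F} (hπ : ∀ v, IsUnif v (π v))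
    (E E' : Place k F → ℤ) (T : Finset (Place k F)) (V : Submodule k F) [FiniteDimensional k V]
    (hV : ∀ v ∈ T, V ≤ subv v (π v ^ E v)) (hle : ∀ v ∈ T, E' v ≤ E v) :
    (finrank k V : ℤ) ≤ finrank k (V ⊓ ⨅ v ∈ T, subv v (π v ^ E' v) : Submodule k F) +
      ∑ v ∈ T, (E v - E' v) := by
  induction T using Finset.induction_on with
  | empty =>
    have h0 : (⨅ v ∈ (∅ : Finset (Place k F)), subv v (π v ^ E' v)) = ⊤ := by simp
    rw [h0, inf_top_eq, Finset.sum_empty, add_zero]
  | insert u T hu ih =>
    have h1 := ih (fun v hv => hV v (Finset.mem_insert_of_mem hv))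
      (fun v hv => hle v (Finset.mem_insert_of_mem hv))
    have hle' := hle u (Finset.mem_insert_self u T)
    obtain ⟨m, hm⟩ := Int.eq_ofNat_of_zero_le (sub_nonneg.2 hle')
    have h2 := riem_steps hF (hπ u) (E' u) m (V ⊓ ⨅ v ∈ T, subv v (π v ^ E' v)) (by
      have : E' u + (m : ℤ) = E u := by omega
      rw [this]
      exact inf_le_left.trans (hV u (Finset.mem_insert_self u T)))
    rw [Finset.iInf_insert, Finset.sum_insert hu, inf_comm (subv u _), ← inf_assoc]
    omega

omit [IsAlgClosed k] [CharZero k] in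
/-- the space of `D'` in the space of `D` -/
private lemma riem_LDu_inf {π : Place k F → F} (hπ : ∀ v, IsUnif v (π v))
    (T : Finset (Place k F)) {D D' : Place k F → ℤ} (h : ∀ v, v ∉ T → D' v = D v)
    (hle : ∀ v, D' v ≤ D v) : LDu D ⊓ ⨅ v ∈ T, subv v (π v ^ D' v) = LDu D' := by
  apply le_antisymm
  · rintro f ⟨hf1, hf2⟩ v π' hπ'
    by_cases hv : v ∈ T
    · have h3 : f ∈ subv v (π v ^ D' v) := by
        have := (Submodule.mem_iInf _).1 hf2 v
        exact (Submodule.mem_iInf _).1 this hv
      exact (unif_iff (hπ v) hπ' f _).1 h3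
    · rw [h v hv]
      exact hf1 v π' hπ'
  · refine le_inf (LDu_mono hle) ?_
    rw [le_iInf_iff]
    intro v
    rw [le_iInf_iff]
    intro _ f hf
    exact hf v (π v) (hπ v)

/-- A divisor which is smaller by `m` has a space which is smaller by at most `m` dimensions. -/
theorem finrank_LDu_le (hF : IsCurve k F) (T : Finset (Place k F)) {D D' : Place k F → ℤ}
    (h : ∀ v, v ∉ T → D' v = D v) (hle : ∀ v, D' v ≤ D v) [FiniteDimensional k (LDu D)] :
    (finrank k (LDu D) : ℤ) ≤ finrank k (LDu D') + ∑ v ∈ T, (D v - D' v) := by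
  choose π hπ using fun v => exists_unif hF v
  have h1 := riem_places hF hπ D D' T (LDu D) (fun v _ f hf => hf v (π v) (hπ v))
    (fun v _ => hle v)
  rwa [riem_LDu_inf hπ T h hle] at h1

omit [CharZero k] in
/-- elements which are algebraic over the constants are constant -/
private lemma riem_transc {f : F} (hf : ∀ c : k, f ≠ algebraMap k F c) : Transcendental k f := by
  intro h
  have h1 : IsIntegral k f := h.isIntegral
  have h2 : (minpoly k f).degree = 1 :=
    IsAlgClosed.degree_eq_one_of_irreducible k (minpoly.irreducible h1)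
  rw [minpoly.degree_eq_one_iff] at h2
  obtain ⟨c, hc⟩ := h2
  exact hf c hc.symm

/-- functions without poles are constant -/
theorem LDu_zero (hF : IsCurve k F) :
    (LDu (fun _ => 0) : Submodule k F) = LinearMap.range (Algebra.linearMap k F) := by
  apply le_antisymm
  · intro f hf
    by_contra hcon
    have h1 : ∀ c : k, f ≠ algebraMap k F c := fun c hc => hcon ⟨c, hc.symm⟩
    have h2 : Transcendental k f⁻¹ := by
      apply riem_transc
      intro c hc
      apply h1 c⁻¹
      rw [map_inv₀, ← hc, inv_inv]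
    obtain ⟨v, hv⟩ := exists_place h2 (0 : k)
    rw [Place.at_zero_iff, Place.vanishes_iff_or] at hv
    obtain ⟨π, hπ⟩ := exists_unif hF v
    have h3 := hf v π hπ
    rw [zpow_zero, mul_one] at h3
    rcases hv with hv | hv
    · exact h1 0 (by rw [map_zero]; exact inv_eq_zero.1 hv)
    · rw [inv_inv] at hv
      exact hv h3
  · rintro f ⟨c, rfl⟩ v π _
    rw [zpow_zero, mul_one]
    exact v.const_mem c

theorem finrank_LDu_zero (hF : IsCurve k F) :
    finrank k (LDu (fun _ => 0) : Submodule k F) = 1 := by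
  rw [LDu_zero hF, LinearMap.finrank_range_of_inj (algebraMap k F).injective, Module.finrank_self]

/-- The space of a divisor has finite dimension. -/
theorem finite_LDu (hF : IsCurve k F) (S : Finset (Place k F)) (D : Place k F → ℤ)
    (hD : ∀ v, v ∉ S → D v = 0) : FiniteDimensional k (LDu D) := by
  choose π hπ using fun v => exists_unif hF v
  have key : ∀ (m : ℕ) (D : Place k F → ℤ), (∀ v, v ∉ S → D v = 0) → (∀ v, 0 ≤ D v) →
      ∑ v ∈ S, D v = m → FiniteDimensional k (LDu D) := by
    intro m
    induction m with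
    | zero =>
      intro D hD hpos hsum
      have h1 : D = fun _ => 0 := by
        funext v
        by_cases hv : v ∈ S
        · exact (Finset.sum_eq_zero_iff_of_nonneg fun v _ => hpos v).1 (by simpa using hsum) v hv
        · exact hD v hv
      rw [h1, LDu_zero hF]
      infer_instance
    | succ m ih =>
      intro D hD hpos hsum
      obtain ⟨u, hu, hu'⟩ : ∃ u ∈ S, D u ≠ 0 := by
        by_contra hcon
        push Not at hcon
        rw [Finset.sum_eq_zero hcon] at hsum
        push_cast at hsum
        omega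
      have hup : 1 ≤ D u := by
        have := hpos u
        omega
      set D' : Place k F → ℤ := Function.update D u (D u - 1) with hD'
      have hs : ∑ v ∈ S, D' v = m := by
        rw [hD', Finset.sum_update_of_mem hu]
        have := Finset.sum_eq_add_sum_sdiff_singleton_of_mem hu D
        push_cast at hsum
        omega
      have h1 := ih D' (by
        intro v hv
        have hvu : v ≠ u := by
          rintro rfl
          exact hv hu
        rw [hD', Function.update_of_ne hvu]
        exact hD v hv) (by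
        intro v
        by_cases h : v = u
        · subst h
          rw [hD', Function.update_self]
          omega
        · rw [hD', Function.update_of_ne h]
          exact hpos v) hs
      have h2 : LDu D ⊓ ⨅ v ∈ ({u} : Finset (Place k F)), subv v (π v ^ D' v) = LDu D' := by
        apply riem_LDu_inf hπ
        · intro v hv
          rw [Finset.mem_singleton] at hv
          rw [hD', Function.update_of_ne hv]
        · intro v
          by_cases h : v = u
          · subst h
            rw [hD', Function.update_self]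
            omega
          · rw [hD', Function.update_of_ne h]
      have h3 : (⨅ v ∈ ({u} : Finset (Place k F)), subv v (π v ^ D' v)) =
          subv u (π u ^ (D u - 1)) := by
        simp [hD']
      rw [h3] at h2
      apply riem_fd hF (hπ u) (D u - 1) (LDu D)
      · intro f hf
        rw [sub_add_cancel]
        exact hf u (π u) (hπ u)
      · rw [h2]
        exact h1
  have h1 := key (∑ v ∈ S, max (D v) 0).toNat (fun v => max (D v) 0) (by
    intro v hv
    simp only [hD v hv, max_self]) (fun v => le_max_right _ _) (by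
    rw [Int.toNat_of_nonneg]
    exact Finset.sum_nonneg fun v _ => le_max_right _ _)
  exact Submodule.finiteDimensional_of_le (LDu_mono fun v => le_max_left (D v) 0)

/-- the order of vanishing -/
private lemma riem_vanish (hF : IsCurve k F) {v : Place k F} {π f : F} (hπ : IsUnif v π)
    (hf : f ≠ 0) (hv : v.Vanishes f) :
    ∃ e : ℕ, 1 ≤ e ∧ f / π ^ e ∈ v.ring ∧ (f / π ^ e)⁻¹ ∈ v.ring := by
  obtain ⟨n, hn1, hn2⟩ := exists_ord hF v hπ hf
  have hpos : 1 ≤ n := by
    by_contra hlt
    push Not at hlt
    rw [Place.vanishes_iff_or] at hv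
    rcases hv with hv | hv
    · exact hf hv
    · apply hv
      have h1 : f⁻¹ = (f / π ^ n)⁻¹ * π ^ (-n) := by
        rw [zpow_neg, inv_div]
        have := zpow_ne_zero n hπ.1
        field_simp
      rw [h1]
      obtain ⟨l, hl⟩ := Int.eq_ofNat_of_zero_le (show (0 : ℤ) ≤ -n by omega)
      rw [hl, zpow_natCast]
      exact mul_mem hn2 (pow_mem hπ.2.1.mem _)
  obtain ⟨e, rfl⟩ := Int.eq_ofNat_of_zero_le (show (0 : ℤ) ≤ n by omega)
  rw [zpow_natCast] at hn1 hn2
  exact ⟨e, by omega, hn1, hn2⟩

omit [IsAlgClosed k] [CharZero k] in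
private lemma riem_adjoin (x : F) (c : k) :
    IntermediateField.adjoin k {(x - algebraMap k F c)⁻¹} = IntermediateField.adjoin k {x} := by
  apply le_antisymm
  · rw [IntermediateField.adjoin_simple_le_iff]
    exact inv_mem (sub_mem (IntermediateField.mem_adjoin_simple_self k x)
      (IntermediateField.algebraMap_mem _ c))
  · rw [IntermediateField.adjoin_simple_le_iff]
    have h1 := add_mem (inv_mem (IntermediateField.mem_adjoin_simple_self k
      (x - algebraMap k F c)⁻¹)) (IntermediateField.algebraMap_mem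
      (IntermediateField.adjoin k {(x - algebraMap k F c)⁻¹}) c)
    rw [inv_inv, sub_add_cancel] at h1
    exact h1

/-- powers of a function with a zero kill the poles -/
private lemma riem_clear (hF : IsCurve k F) {v : Place k F} {w π : F} (hπ : IsUnif v π)
    {e : ℕ} (he : 1 ≤ e) (hw : w / π ^ e ∈ v.ring) (f : F) : ∃ c : ℕ, w ^ c * f ∈ v.ring := by
  by_cases hf : f = 0
  · exact ⟨0, by rw [hf, mul_zero]; exact zero_mem _⟩
  obtain ⟨n, hn, -⟩ := exists_ord hF v hπ hf
  refine ⟨n.natAbs, ?_⟩
  have h1 : w ^ n.natAbs * f = (w / π ^ e) ^ n.natAbs * (f / π ^ n) *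
      π ^ ((e * n.natAbs : ℕ) + n : ℤ) := by
    have hπ0 := hπ.1
    rw [zpow_add₀ hπ0, zpow_natCast, div_pow, ← pow_mul]
    field_simp
  rw [h1]
  have h2 : (0 : ℤ) ≤ (e * n.natAbs : ℕ) + n := by
    have : (n.natAbs : ℤ) ≤ (e * n.natAbs : ℕ) := by
      exact_mod_cast Nat.le_mul_of_pos_left _ he
    omega
  obtain ⟨l, hl⟩ := Int.eq_ofNat_of_zero_le h2
  rw [hl, zpow_natCast]
  exact mul_mem (mul_mem (pow_mem hw _) hn) (pow_mem hπ.2.1.mem _)

omit [IsAlgClosed k] [CharZero k] in
/-- the dimension of the space of the functions `x ^ l * b i` -/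
private lemma riem_dim {x : F} (hxt : Transcendental k x) {s : Type} [Fintype s]
    (bb : Basis s (IntermediateField.adjoin k {x}) F) (N : ℕ) :
    finrank k (Submodule.span k (Set.range fun p : Fin (N + 1) × s =>
      x ^ (p.1 : ℕ) * bb p.2)) = (N + 1) * Fintype.card s := by
  have hli : LinearIndependent k fun p : Fin (N + 1) × s => x ^ (p.1 : ℕ) * bb p.2 := by
    have h1 : LinearIndependent k fun l : Fin (N + 1) =>
        (IntermediateField.AdjoinSimple.gen k x) ^ (l : ℕ) := by
      rw [Fintype.linearIndependent_iff]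
      intro g hg
      have h2 : aeval x (∑ l : Fin (N + 1), C (g l) * X ^ (l : ℕ)) = 0 := by
        have h3 := congrArg (algebraMap (IntermediateField.adjoin k {x}) F) hg
        rw [map_sum, map_zero] at h3
        rw [map_sum, ← h3]
        apply Finset.sum_congr rfl
        intro l _
        rw [_root_.map_mul, aeval_C, map_pow, aeval_X, Algebra.smul_def, _root_.map_mul,
          map_pow]
        rfl
      have h4 := (transcendental_iff.1 hxt) _ h2
      intro l
      have h5 := congrArg (fun q => q.coeff (l : ℕ)) h4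
      simp only [finsetSum_coeff, coeff_C_mul, coeff_X_pow, coeff_zero] at h5
      rw [Finset.sum_eq_single l] at h5
      · simpa using h5
      · intro l' _ hl'
        rw [if_neg (fun h => hl' (Fin.ext h).symm), mul_zero]
      · intro h
        exact absurd (Finset.mem_univ l) h
    exact linearIndependent_smul h1 bb.linearIndependent
  rw [finrank_span_eq_card hli, Fintype.card_prod, Fintype.card_fin]

private lemma riem_arith {N n₀ c M d : ℕ} {r s E : ℤ} (hN : N = d + M) (hn : 1 ≤ n₀)
    (h1 : (((N + 1) * n₀ : ℕ) : ℤ) ≤ r + (E - s))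
    (h2 : E ≤ ((d * n₀ + (M + c) * n₀ : ℕ) : ℤ)) : s + 1 ≤ r + ((n₀ * c : ℕ) : ℤ) := by
  subst hN
  push_cast at *
  have h3 : (1 : ℤ) ≤ n₀ := by exact_mod_cast hn
  nlinarith

theorem riem_main (hF : IsCurve k F) : ∃ g : ℕ, ∀ (S : Finset (Place k F))
    (D : Place k F → ℤ), (∀ v, v ∉ S → D v = 0) →
    (∑ v ∈ S, D v) + 1 ≤ finrank k (LDu D) + (g : ℤ) := by
  obtain ⟨x, hxt, -⟩ := id hF
  have hx0 : x ≠ 0 := by
    rintro rfl
    exact hxt isAlgebraic_zero
  set w := x⁻¹ with hw
  have hw0 : w ≠ 0 := inv_ne_zero hx0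
  have hwt : Transcendental k w := by
    intro h
    apply hxt
    have := h.inv
    rwa [hw, inv_inv] at this
  have hxw : x = w⁻¹ := by rw [hw, inv_inv]
  have hxc : ∀ c : k, x - algebraMap k F c ≠ 0 := by
    intro c h
    apply hxt
    rw [sub_eq_zero.1 h]
    exact isAlgebraic_algebraMap c
  have hxct : ∀ c : k, Transcendental k (x - algebraMap k F c) := by
    intro c h
    apply hxt
    have := h.add (isAlgebraic_algebraMap (R := k) (A := F) c)
    rwa [sub_add_cancel] at this
  have := fin_adjoin hF hxt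
  obtain ⟨s, bb, hbb⟩ := FiniteDimensional.exists_is_basis_integral (Algebra.adjoin k {x})
    (IntermediateField.adjoin k {x}) F
  set n₀ := finrank (IntermediateField.adjoin k {x}) F with hn₀
  have hn₀' : n₀ = Fintype.card s := Module.finrank_eq_card_basis bb
  have hn₀1 : 1 ≤ n₀ := Module.finrank_pos
  -- the places
  set P := (finite_pole hF hxt).toFinset with hPdef
  have hmemP : ∀ v, v ∈ P ↔ x ∉ v.ring := by
    intro v
    rw [hPdef, Set.Finite.mem_toFinset]
    rfl
  have hPw : ∀ v : Place k F, x ∉ v.ring → v.Vanishes w := by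
    intro v hv
    rw [Place.vanishes_iff_or]
    right
    rwa [hw, inv_inv]
  choose π hπ using fun v => exists_unif hF v
  have hval : ∀ v : Place k F, ∃ c : k, x ∈ v.ring → v.At x c := by
    intro v
    by_cases hv : x ∈ v.ring
    · obtain ⟨c, hc⟩ := exists_at hF v hv
      exact ⟨c, fun _ => hc⟩
    · exact ⟨0, fun h => absurd h hv⟩
  choose X hX using hval
  have hex : ∀ v : Place k F, ∃ e : ℕ, 1 ≤ e ∧
      (if x ∈ v.ring then x - algebraMap k F (X v) else w) / π v ^ e ∈ v.ring ∧
      ((if x ∈ v.ring then x - algebraMap k F (X v) else w) / π v ^ e)⁻¹ ∈ v.ring := by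
    intro v
    by_cases hv : x ∈ v.ring
    · rw [if_pos hv]
      exact riem_vanish hF (hπ v) (hxc _) (hX v hv)
    · rw [if_neg hv]
      exact riem_vanish hF (hπ v) hw0 (hPw v hv)
  choose e hepos he1 he2 using hex
  have hfinf : ∑ v ∈ P, e v ≤ n₀ := by
    apply pole_fund hF hxw hw0 hwt hxt P (fun v hv => hPw v ((hmemP v).1 hv)) hπ e
    intro v hv
    have := he1 v
    rwa [if_neg ((hmemP v).1 hv)] at this
  have hfund : ∀ (c : k) (T : Finset (Place k F)), (∀ v ∈ T, v.At x c) → ∑ v ∈ T, e v ≤ n₀ := by
    intro c T hT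
    have h1 := pole_fund hF (w := x - algebraMap k F c) (x := (x - algebraMap k F c)⁻¹) rfl
      (hxc c) (hxct c) (fun h => hxct c (by simpa using h.inv)) T (fun v hv => hT v hv) hπ e (by
        intro v hv
        have h2 := he1 v
        rw [if_pos (hT v hv).mem, (hX v (hT v hv).mem).unique (hT v hv)] at h2
        exact h2)
    rwa [riem_adjoin] at h1
  -- bound for the poles of the basis
  have hc : ∃ c : ℕ, ∀ v ∈ P, ∀ i : s, w ^ c * bb i ∈ v.ring := by
    have h1 : ∀ (v : P) (i : s), ∃ c : ℕ, w ^ c * bb i ∈ (v : Place k F).ring := by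
      intro v i
      have h2 := he1 v
      rw [if_neg ((hmemP v).1 v.2)] at h2
      exact riem_clear hF (hπ v) (hepos v) h2 _
    choose c hc using h1
    refine ⟨Finset.univ.sup fun p : P × s => c p.1 p.2, fun v hv i => ?_⟩
    have h2 : c ⟨v, hv⟩ i ≤ Finset.univ.sup fun p : P × s => c p.1 p.2 :=
      Finset.le_sup (f := fun p : P × s => c p.1 p.2) (Finset.mem_univ (⟨v, hv⟩, i))
    obtain ⟨l, hl⟩ := Nat.exists_eq_add_of_le h2
    rw [hl, pow_add, mul_comm (w ^ _) (w ^ l), mul_assoc]
    exact mul_mem (pow_mem (hPw v ((hmemP v).1 hv)).mem _) (hc ⟨v, hv⟩ i)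
  obtain ⟨c, hc⟩ := hc
  refine ⟨n₀ * c, fun S D hD => ?_⟩
  -- the auxiliary polynomial in `x`
  set Dn := S.filter fun v => x ∈ v.ring with hDn
  set m : Place k F → ℕ := fun v => (D v).toNat with hm
  set d := ∑ v ∈ Dn, m v with hd
  set M := ∑ v ∈ S, m v with hM
  set p : F := ∏ v ∈ Dn, (x - algebraMap k F (X v)) ^ m v with hp
  have hp0 : p ≠ 0 := Finset.prod_ne_zero_iff.2 fun v _ => pow_ne_zero _ (hxc _)
  set q : Place k F → ℕ := fun u => ∑ v ∈ Dn, if X v = X u then m v else 0 with hq
  have claim1 : ∀ u : Place k F, x ∈ u.ring → p⁻¹ * π u ^ (e u * q u) ∈ u.ring := by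
    intro u hu
    have h1 : p⁻¹ * π u ^ (e u * q u) = ∏ v ∈ Dn, (((x - algebraMap k F (X v)) ^ m v)⁻¹ *
        (if X v = X u then π u ^ (e u * m v) else 1)) := by
      rw [Finset.prod_mul_distrib, hp, Finset.prod_inv_distrib]
      congr 1
      rw [hq]
      simp only
      rw [Finset.mul_sum, ← Finset.prod_pow_eq_pow_sum]
      refine Finset.prod_congr rfl fun v _ => ?_
      split_ifs with h
      · rfl
      · rw [mul_zero, pow_zero]
    rw [h1]
    apply prod_mem
    intro v _
    split_ifs with h
    · have h2 := he2 u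
      rw [if_pos hu] at h2
      have h3 : ((x - algebraMap k F (X v)) ^ m v)⁻¹ * π u ^ (e u * m v) =
          (((x - algebraMap k F (X u)) / π u ^ e u)⁻¹) ^ m v := by
        rw [h, inv_div, div_pow, ← pow_mul]
        field_simp
      rw [h3]
      exact pow_mem h2 _
    · rw [mul_one, ← inv_pow]
      apply pow_mem
      have h2 := ((hX u hu).sub (Place.at_const (v := u) (X v))).inv
        (sub_ne_zero.2 fun h' => h h'.symm)
      exact h2.mem
  have claim2 : ∀ u : Place k F, x ∉ u.ring → p⁻¹ * x ^ d ∈ u.ring := by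
    intro u hu
    have h1 : p⁻¹ * x ^ d = ∏ v ∈ Dn, ((1 - algebraMap k F (X v) * w)⁻¹) ^ m v := by
      rw [hd, ← Finset.prod_pow_eq_pow_sum, hp, ← Finset.prod_inv_distrib,
        ← Finset.prod_mul_distrib]
      refine Finset.prod_congr rfl fun v _ => ?_
      rw [← inv_pow, ← mul_pow]
      congr 1
      have h2 : x - algebraMap k F (X v) = x * (1 - algebraMap k F (X v) * w) := by
        rw [mul_sub, mul_one, mul_left_comm, hw, mul_inv_cancel₀ hx0, mul_one]
      rw [h2, mul_inv, mul_right_comm, inv_mul_cancel₀ hx0, one_mul]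
    rw [h1]
    apply prod_mem
    intro v _
    apply pow_mem
    have h2 := (Place.at_const (v := u) (1 : k)).sub
      ((Place.at_const (v := u) (X v)).mul (Place.at_zero_iff.2 (hPw u hu)))
    rw [mul_zero, sub_zero, map_one] at h2
    exact (h2.inv one_ne_zero).mem
  set N := d + M with hN
  set V₀ : Submodule k F := Submodule.span k (Set.range fun z : Fin (N + 1) × s =>
      x ^ (z.1 : ℕ) * bb z.2) with hV₀
  have hfin₀ : finrank k V₀ = (N + 1) * n₀ := by
    rw [hV₀, riem_dim hxt bb N, hn₀']
  have hfd₀ : FiniteDimensional k V₀ := by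
    rw [hV₀]
    exact FiniteDimensional.span_of_finite k (Set.finite_range _)
  set μ : F →ₗ[k] F := LinearMap.mulLeft k p⁻¹ with hμ
  have hμi : Function.Injective μ := by
    intro a b hab
    exact mul_left_cancel₀ (inv_ne_zero hp0) hab
  set V : Submodule k F := V₀.map μ with hV
  have eV := Submodule.equivMapOfInjective μ hμi V₀
  have hfd : FiniteDimensional k V := Module.Finite.equiv eV
  have hfin : finrank k V = (N + 1) * n₀ := by
    rw [← hfin₀]
    exact eV.finrank_eq.symm
  set E : Place k F → ℤ := fun u =>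
    ((if x ∈ u.ring then e u * q u else e u * (M + c) : ℕ) : ℤ) with hE
  have claim3 : ∀ u : Place k F, V ≤ subv u (π u ^ E u) := by
    intro u
    rw [hV, Submodule.map_le_iff_le_comap, hV₀, Submodule.span_le]
    rintro _ ⟨⟨l, i⟩, rfl⟩
    change p⁻¹ * (x ^ (l : ℕ) * bb i) * π u ^ E u ∈ u.ring
    have hl : (l : ℕ) ≤ N := by
      have := l.2
      omega
    rw [hE]
    simp only
    rw [zpow_natCast]
    by_cases hu : x ∈ u.ring
    · rw [if_pos hu, mul_right_comm]
      exact mul_mem (claim1 u hu) (mul_mem (pow_mem hu _) (int_mem u hu (hbb i)))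
    · rw [if_neg hu]
      have h2 := he2 u
      rw [if_neg hu] at h2
      have h3 : p⁻¹ * (x ^ (l : ℕ) * bb i) * π u ^ (e u * (M + c)) =
          (p⁻¹ * x ^ d) * w ^ (N - (l : ℕ)) * (w ^ c * bb i) *
            ((w / π u ^ e u)⁻¹) ^ (M + c) := by
        have hπ0 := (hπ u).1
        have h4 : w ^ (N - (l : ℕ)) * w ^ (l : ℕ) = w ^ d * w ^ M := by
          rw [← pow_add, ← pow_add]
          congr 1
          omega
        have h5 : x ^ (l : ℕ) = (w ^ (l : ℕ))⁻¹ := by rw [hxw, inv_pow]
        have h6 : x ^ d = (w ^ d)⁻¹ := by rw [hxw, inv_pow]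
        have h7 : w ^ (N - (l : ℕ)) = w ^ d * w ^ M * (w ^ (l : ℕ))⁻¹ := by
          rw [← h4, mul_assoc, mul_inv_cancel₀ (pow_ne_zero _ hw0), mul_one]
        rw [inv_div, div_pow, ← pow_mul, h5, h6, h7, pow_add w M c]
        have hwd : w ^ d ≠ 0 := pow_ne_zero _ hw0
        have hwl : w ^ (l : ℕ) ≠ 0 := pow_ne_zero _ hw0
        have hwM : w ^ M ≠ 0 := pow_ne_zero _ hw0
        have hwc : w ^ c ≠ 0 := pow_ne_zero _ hw0
        generalize w ^ d = a at *
        generalize w ^ (l : ℕ) = a₂ at *
        generalize w ^ M = a₃ at *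
        generalize w ^ c = a₄ at *
        generalize π u ^ (e u * (M + c)) = a₅ at *
        field_simp
      rw [h3]
      exact mul_mem (mul_mem (mul_mem (claim2 u hu) (pow_mem (hPw u hu).mem _))
        (hc u ((hmemP u).2 hu) i)) (pow_mem h2 _)
  -- the places at which there are conditions
  set T : Finset (Place k F) := P ∪ Dn.biUnion fun v => (finite_at hF hxt (X v)).toFinset with hT
  have hDnS : ∀ v ∈ Dn, v ∈ S ∧ x ∈ v.ring := fun v hv => Finset.mem_filter.1 hv
  have hmemT : ∀ u, u ∈ T ↔ x ∉ u.ring ∨ ∃ v ∈ Dn, u.At x (X v) := by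
    intro u
    rw [hT, Finset.mem_union, hmemP, Finset.mem_biUnion]
    simp only [Set.Finite.mem_toFinset, Set.mem_ofPred_eq]
  have hST : S ⊆ T := by
    intro v hv
    rw [hmemT]
    by_cases h : x ∈ v.ring
    · exact Or.inr ⟨v, Finset.mem_filter.2 ⟨hv, h⟩, hX v h⟩
    · exact Or.inl h
  have hDE : ∀ u ∈ T, D u ≤ E u := by
    intro u _
    rw [hE]
    simp only
    by_cases huS : u ∈ S
    · have h0 : D u ≤ (m u : ℤ) := Int.self_le_toNat _
      refine h0.trans ?_
      rw [Nat.cast_le]
      by_cases hu : x ∈ u.ring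
      · rw [if_pos hu]
        have h1 : m u ≤ q u := by
          have h2 : (if X u = X u then m u else 0) ≤ q u :=
            Finset.single_le_sum (f := fun v => if X v = X u then m v else 0)
              (fun _ _ => Nat.zero_le _) (Finset.mem_filter.2 ⟨huS, hu⟩)
          rwa [if_pos rfl] at h2
        exact h1.trans (Nat.le_mul_of_pos_left _ (hepos u))
      · rw [if_neg hu]
        have h1 : m u ≤ M := Finset.single_le_sum (f := m) (fun _ _ => Nat.zero_le _) huS
        exact (h1.trans (Nat.le_add_right _ _)).trans (Nat.le_mul_of_pos_left _ (hepos u))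
    · rw [hD u huS]
      exact Nat.cast_nonneg _
  have hcount := riem_places hF hπ E D T V (fun v _ => claim3 v) hDE
  have hVLD : V ⊓ ⨅ v ∈ T, subv v (π v ^ D v) ≤ LDu D := by
    rintro f ⟨hf1, hf2⟩ v π' hπ'
    by_cases hv : v ∈ T
    · have h3 : f ∈ subv v (π v ^ D v) := by
        have := (Submodule.mem_iInf _).1 hf2 v
        exact (Submodule.mem_iInf _).1 this hv
      exact (unif_iff (hπ v) hπ' f _).1 h3
    · rw [hD v fun h => hv (hST h), zpow_zero, mul_one]
      rw [hmemT, not_or] at hv
      obtain ⟨hv1, hv2⟩ := hv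
      push Not at hv1 hv2
      have h4 : f * π v ^ E v ∈ v.ring := claim3 v hf1
      have h5 : q v = 0 := by
        rw [hq]
        refine Finset.sum_eq_zero fun v' hv' => if_neg fun h => hv2 v' hv' ?_
        rw [h]
        exact hX v hv1
      rw [hE] at h4
      simp only at h4
      rw [if_pos hv1, h5, mul_zero, Nat.cast_zero, zpow_zero, mul_one] at h4
      exact h4
  have hfdL := finite_LDu hF S D hD
  have hmono : finrank k (V ⊓ ⨅ v ∈ T, subv v (π v ^ D v) : Submodule k F) ≤
      finrank k (LDu D) := Submodule.finrank_mono hVLD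
  have hsumD : ∑ v ∈ T, D v = ∑ v ∈ S, D v :=
    (Finset.sum_subset hST fun v _ hv => hD v hv).symm
  have hsumE : ∑ v ∈ T, E v ≤ ((d * n₀ + (M + c) * n₀ : ℕ) : ℤ) := by
    rw [hE]
    simp only
    rw [← Nat.cast_sum, Nat.cast_le, Finset.sum_ite]
    refine Nat.add_le_add ?_ ?_
    · have h1 : ∑ u ∈ T.filter (fun u => x ∈ u.ring), e u * q u =
          ∑ v ∈ Dn, m v * ∑ u ∈ T.filter (fun u => x ∈ u.ring),
            if X v = X u then e u else 0 := by
        rw [hq]
        simp only [Finset.mul_sum]
        rw [Finset.sum_comm]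
        refine Finset.sum_congr rfl fun v _ => Finset.sum_congr rfl fun u _ => ?_
        split_ifs
        · exact mul_comm _ _
        · rw [mul_zero, mul_zero]
      rw [h1, hd, Finset.sum_mul]
      refine Finset.sum_le_sum fun v _ => Nat.mul_le_mul_left _ ?_
      rw [← Finset.sum_filter]
      apply hfund (X v)
      intro u hu
      obtain ⟨hu1, hu2⟩ := Finset.mem_filter.1 hu
      rw [hu2]
      exact hX u (Finset.mem_filter.1 hu1).2
    · rw [← Finset.sum_mul, mul_comm]
      refine Nat.mul_le_mul_left _ (le_trans (Finset.sum_le_sum_of_subset ?_) hfinf)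
      intro u hu
      exact (hmemP u).2 (Finset.mem_filter.1 hu).2
  rw [hfin, Finset.sum_sub_distrib, hsumD] at hcount
  refine riem_arith hN hn₀1 (hcount.trans ?_) hsumE
  exact add_le_add (Nat.cast_le.2 hmono) le_rfl

end Riem

section Genus

variable {k L : Type} [Field k] [IsAlgClosed k] [CharZero k] [Field L] [Algebra k L]

theorem LD_eq_LDu (hL : IsCurve k L) (D : Place k L →₀ ℤ) : LD hL D = LDu fun v => D v := by
  ext f
  rw [mem_LD, mem_LDu]
  by_cases hf : f = 0
  · subst hf
    constructor
    · intro _ v π _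
      rw [zero_mul]
      exact zero_mem _
    · intro _ h
      exact absurd rfl h
  · have key : ∀ (v : Place k L) (π : L), IsUnif v π →
        (f * π ^ D v ∈ v.ring ↔ 0 ≤ ord v f + D v) := by
      intro v π hπ
      have hz : π ^ D v ≠ 0 := zpow_ne_zero _ hπ.1
      rw [mem_iff_ord hL (mul_ne_zero hf hz), ord_mul hL v hf hz, ord_zpow hL, ord_unif hL hπ,
        mul_one]
    constructor
    · intro h v π hπ
      exact (key v π hπ).2 (h hf v)
    · intro h _ v
      obtain ⟨π, hπ⟩ := exists_unif hL v
      exact (key v π hπ).1 (h v π hπ)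

/-- Riemann's inequality for function fields of one variable -/
theorem exists_genus (hL : IsCurve k L) : ∃ g : ℕ, Riemann hL g := by
  obtain ⟨g, hg⟩ := riem_main hL
  refine ⟨g, fun D => ?_⟩
  have hD : ∀ v, v ∉ D.support → D v = 0 := fun v hv => Finsupp.notMem_support_iff.1 hv
  rw [LD_eq_LDu]
  exact ⟨finite_LDu hL D.support (fun v => D v) hD, hg D.support (fun v => D v) hD⟩

end Genus

end Pool.Agent.TInc
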