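import Pool.Agent.TInc.OrdDiv

/-!
# The order of a function at a place, the spaces `L(D)`

The definitions are in `OrdDef` and `OrdDiv`, the theorems on the order in `OrdThy`.
-/

set_option autoImplicit false

noncomputable section

namespace Pool.Agent.TInc

open Pool.Agent.ZCyc Pool.Agent.Dess Pool.Agent.Dess4 Module
open scoped Classical

variable {k L : Type} [Field k] [IsAlgClosed k] [CharZero k] [Field L] [Algebra k L]

theorem dv_apply (hL : IsCurve k L) (f : L) (v : Place k L) : dv hL f v = ord v f := rfl

theorem deg_dv (hL : IsCurve k L) (f : L) : deg (dv hL f) = 0 := by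
  by_cases hf : f = 0
  · unfold deg Finsupp.sum
    apply Finset.sum_eq_zero
    intro v _
    rw [dv_apply, hf, ord_zero]
  · refine degree_zero hL hf (dv hL f).support (fun v => ord v f)
      (fun v _ => ord_hasOrd hL v hf) (fun v hv => ?_)
    rw [Finsupp.notMem_support_iff, dv_apply] at hv
    have h := ord_hasOrd hL v hf
    rwa [hv] at h

theorem mem_LD {hL : IsCurve k L} {D : Place k L →₀ ℤ} {f : L} :
    f ∈ LD hL D ↔ (f ≠ 0 → ∀ v, 0 ≤ ord v f + D v) := Iff.rfl

end Pool.Agent.TInc
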