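import Pool.Agent.TInc.Defs
import Pool.Agent.Dess.Ext

/-!
# Places of `L` and of `Om k`
-/

set_option autoImplicit false

noncomputable section

namespace Pool.Agent.TInc

open Pool.Agent.ZCyc Pool.Agent.Dess Pool.Agent.KFam Module
open Pool.Agent.VFP (Om tt)
open scoped Classical

variable {k L : Type} [Field k] [IsAlgClosed k] [CharZero k] [Field L] [Algebra k L]

omit [IsAlgClosed k] [CharZero k] in
private theorem embA_trdeg : Algebra.trdeg k (Om k) = 1 := by
  have h0 : Algebra.IsAlgebraic (Polynomial k) (RatFunc k) :=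
    (IsFractionRing.comap_isAlgebraic_iff (A := Polynomial k) (K := RatFunc k)
      (C := RatFunc k)).mpr (Algebra.IsAlgebraic.of_finite (RatFunc k) (RatFunc k))
  have h1 : Algebra.IsAlgebraic (Polynomial k) (Om k) :=
    Algebra.IsAlgebraic.trans (Polynomial k) (RatFunc k) (Om k)
  have h2 : FaithfulSMul (Polynomial k) (Om k) := by
    rw [faithfulSMul_iff_algebraMap_injective,
      IsScalarTower.algebraMap_eq (Polynomial k) (RatFunc k) (Om k)]
    exact (algebraMap (RatFunc k) (Om k)).injective.comp
      (IsFractionRing.injective (Polynomial k) (RatFunc k))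
  rw [← trdeg_add_eq k (Polynomial k), Polynomial.trdeg_of_isDomain,
    trdeg_eq_zero, add_zero]

omit [IsAlgClosed k] [CharZero k] in
/-- `Om k` is algebraic over `k(ψ)` for every transcendental `ψ`. -/
private theorem embA_alg {ψ : Om k} (hψ : Transcendental k ψ) :
    Algebra.IsAlgebraic (IntermediateField.adjoin k {ψ}) (Om k) := by
  have hb : AlgebraicIndependent k (fun _ : Unit => ψ) := by
    rw [algebraicIndependent_unique_type_iff]
    exact hψ
  have h5 : IsTranscendenceBasis k (fun _ : Unit => ψ) :=
    hb.isTranscendenceBasis_of_trdeg_le_of_finite (by rw [embA_trdeg]; simp)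
  rw [hb.isTranscendenceBasis_iff_isAlgebraic, Set.range_const,
    ← IntermediateField.isAlgebraic_adjoin_iff_top] at h5
  exact h5

/-- `Om k` is algebraic over `k(ψ)` for every transcendental `ψ`. (`tt k` is algebraic over `k(ψ)`:
`tt k` and `ψ` are algebraically dependent over `k`, because `ψ` is algebraic over `k(tt k)`; see the
proof of `Dess.fin_adjoin`, or use transcendence bases: `Om k` has transcendence degree one.) -/
theorem alg_adjoin {ψ : Om k} (hψ : Transcendental k ψ) :
    Algebra.IsAlgebraic (IntermediateField.adjoin k {ψ}) (Om k) :=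
  embA_alg hψ

omit [IsAlgClosed k] [CharZero k] in
/-- a valuation ring containing a subfield over which the field is algebraic is everything -/
private theorem embA_top {M : Type} [Field M] [Algebra k M] (V : ValuationSubring M)
    (K : IntermediateField k M) [Algebra.IsAlgebraic K M] (h : ∀ x ∈ K, x ∈ V) : V = ⊤ := by
  ext m
  refine ⟨fun _ => ValuationSubring.mem_top m, fun _ => ?_⟩
  have hm : IsIntegral K m := Algebra.IsIntegral.isIntegral m
  obtain ⟨p, hp, hp0⟩ := hm
  let ι : K →+* V := (algebraMap K M).codRestrict V.toSubring fun x => h x.1 x.2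
  have h1 : IsIntegral V m := by
    refine ⟨p.map ι, hp.map ι, ?_⟩
    rw [Polynomial.eval₂_map]
    exact hp0
  obtain ⟨y, hy⟩ := IsIntegrallyClosed.isIntegral_iff.1 h1
  rw [← hy]
  exact y.2

/-- The place of `L` below a place of `Om k`: `σ L` is not contained in `v.ring`, as it contains a
transcendental element `ψ`, `Om k` is algebraic over `k(ψ)` and `v.ring` is integrally closed. -/
theorem exists_below (hL : IsCurve k L) (v : Place k (Om k)) (σ : L →ₐ[k] Om k) :
    ∃ c : Place k L, v.ring.comap (σ : L →+* Om k) = c.ring := by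
  refine ⟨⟨v.ring.comap (σ : L →+* Om k), fun c => ?_, fun htop => ?_⟩, rfl⟩
  · rw [ValuationSubring.mem_comap]
    have h1 : (σ : L →+* Om k) (algebraMap k L c) = algebraMap k (Om k) c := σ.commutes c
    rw [h1]
    exact v.const_mem _
  · obtain ⟨x, hx, -⟩ := hL
    have hx' : Transcendental k (σ x) := fun h =>
      hx ((isAlgebraic_algHom_iff σ (σ : L →+* Om k).injective).1 h)
    have halg := alg_adjoin hx'
    apply v.ne_top
    refine embA_top v.ring (IntermediateField.adjoin k {σ x}) fun y hy => ?_
    have hr : ∀ z : L, σ z ∈ v.ring := by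
      intro z
      have : z ∈ v.ring.comap (σ : L →+* Om k) := by
        rw [htop]
        exact ValuationSubring.mem_top z
      exact ValuationSubring.mem_comap.1 this
    have hle : IntermediateField.adjoin k {σ x} ≤ σ.fieldRange := by
      rw [IntermediateField.adjoin_le_iff]
      rintro _ rfl
      exact ⟨x, rfl⟩
    obtain ⟨z, rfl⟩ := hle hy
    exact hr z

/-- Every place of `L` is below a place of `Om k` (for given `σ`). Proof: as `Dess.exists_ext`
(`IsLocalRing.exists_factor_valuationRing`), `v.ring ≠ ⊤`. -/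
theorem exists_above (hL : IsCurve k L) (c : Place k L) (σ : L →ₐ[k] Om k) :
    ∃ v : Place k (Om k), v.ring.comap (σ : L →+* Om k) = c.ring := by
  obtain ⟨A, h, hloc⟩ := IsLocalRing.exists_factor_valuationRing
    ((σ : L →+* Om k).comp c.ring.subtype)
  have hc : ∀ a : k, algebraMap k (Om k) a ∈ A := by
    intro a
    have h1 := h ⟨algebraMap k L a, c.const_mem a⟩
    have e : ((σ : L →+* Om k).comp c.ring.subtype) ⟨algebraMap k L a, c.const_mem a⟩ =
        algebraMap k (Om k) a := σ.commutes a
    rw [e] at h1
    exact h1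
  have htop : A ≠ ⊤ := by
    intro htop
    obtain ⟨π, hπ0, hπ, -⟩ := exists_unif hL c
    have hmem : π ∈ c.ring := Place.Vanishes.mem c hπ
    have h1 : IsUnit ((((σ : L →+* Om k).comp c.ring.subtype).codRestrict A.toSubring h)
        ⟨π, hmem⟩) := by
      have h2 : (σ π)⁻¹ ∈ A := by
        rw [htop]
        exact ValuationSubring.mem_top _
      have h3 : σ π ≠ 0 := fun h0 => hπ0 (σ.toRingHom.injective (by
        rw [map_zero]
        exact h0))
      refine IsUnit.of_mul_eq_one (⟨(σ π)⁻¹, h2⟩ : A.toSubring) ?_
      apply Subtype.ext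
      exact mul_inv_cancel₀ h3
    have h4 : IsUnit (⟨π, hmem⟩ : c.ring) := hloc.map_nonunit _ h1
    obtain ⟨u, hu⟩ := h4
    have h5 : (((u⁻¹ : (c.ring)ˣ) : c.ring) : L) = π⁻¹ := by
      have h6 : ((u : c.ring) : L) * (((u⁻¹ : (c.ring)ˣ) : c.ring) : L) = 1 := by
        have h7 : (u : c.ring) * ((u⁻¹ : (c.ring)ˣ) : c.ring) = 1 := u.mul_inv
        exact congrArg Subtype.val h7
      rw [hu] at h6
      exact eq_inv_of_mul_eq_one_right h6
    have h8 : π⁻¹ ∈ c.ring := by
      rw [← h5]
      exact Subtype.prop _
    rcases (c.vanishes_iff_or π).1 hπ with h9 | h9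
    · exact hπ0 h9
    · exact h9 h8
  let V : Place k (Om k) := ⟨A, hc, htop⟩
  obtain ⟨w, hw⟩ := exists_below hL V σ
  refine ⟨V, ?_⟩
  have hle : c.ring ≤ w.ring := by
    intro f hf
    rw [← hw, ValuationSubring.mem_comap]
    exact h ⟨f, hf⟩
  rw [hw, place_le hL hle]

/-- An element of `Om k` which is in the rings of all places is a constant: otherwise its inverse
(or the inverse of it minus a constant) is transcendental, and by `ZCyc.exists_place` it vanishes at
some place. -/
theorem const_om {u : Om k} (hu : ∀ v : Place k (Om k), u ∈ v.ring) :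
    ∃ c : k, u = algebraMap k (Om k) c := by
  by_cases halg : IsAlgebraic k u
  · obtain ⟨c, hc⟩ := minpoly.mem_range_of_degree_eq_one k u
      (IsAlgClosed.degree_eq_one_of_irreducible k (minpoly.irreducible halg.isIntegral))
    exact ⟨c, hc.symm⟩
  · exfalso
    have h1 : Transcendental k u⁻¹ := fun h => halg (by
      have := h.inv
      rwa [inv_inv] at this)
    obtain ⟨v, hv⟩ := exists_place (F := Om k) h1 0
    have h2 : v.Vanishes u⁻¹ := by
      have : v.Vanishes (u⁻¹ - algebraMap k (Om k) 0) := hv
      rwa [map_zero, sub_zero] at this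
    rcases (v.vanishes_iff_or u⁻¹).1 h2 with h3 | h3
    · apply halg
      rw [inv_eq_zero.1 h3]
      exact isAlgebraic_zero
    · rw [inv_inv] at h3
      exact h3 (hu v)

end Pool.Agent.TInc
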