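import Pool.Agent.TInc.Defs
import Pool.Agent.Dess.Ext

/-!
# The number of the embeddings with `σ φ = ψ`
-/

set_option autoImplicit false

noncomputable section

namespace Pool.Agent.TInc

open Pool.Agent.ZCyc Pool.Agent.Dess Pool.Agent.KFam Module
open Pool.Agent.VFP (Om tt)
open scoped Classical

variable {k L : Type} [Field k] [IsAlgClosed k] [CharZero k] [Field L] [Algebra k L]

/-- the embedding of `k(φ)` with `φ ↦ ψ` -/
private def eb_j {φ : L} (hφ : Transcendental k φ) {ψ : Om k} (hψ : Transcendental k ψ) :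
    IntermediateField.adjoin k {φ} →ₐ[k] Om k :=
  (IntermediateField.val _).comp (((RatFunc.algEquivOfTranscendental φ hφ).symm.trans
    (RatFunc.algEquivOfTranscendental ψ hψ)).toAlgHom)

omit [IsAlgClosed k] [CharZero k] in
private theorem eb_j_gen {φ : L} (hφ : Transcendental k φ) {ψ : Om k} (hψ : Transcendental k ψ) :
    eb_j hφ hψ (IntermediateField.AdjoinSimple.gen k φ) = ψ := by
  have h1 : (RatFunc.algEquivOfTranscendental φ hφ).symm (IntermediateField.AdjoinSimple.gen k φ) =
      RatFunc.X := by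
    rw [AlgEquiv.symm_apply_eq]
    exact Subtype.ext (by simp)
  simp [eb_j, h1]

omit [IsAlgClosed k] [CharZero k] in
private theorem eb_j_mem {φ : L} (hφ : Transcendental k φ) {ψ : Om k} (hψ : Transcendental k ψ)
    (x : IntermediateField.adjoin k {φ}) :
    eb_j hφ hψ x ∈ IntermediateField.adjoin k {ψ} :=
  ((((RatFunc.algEquivOfTranscendental φ hφ).symm.trans
    (RatFunc.algEquivOfTranscendental ψ hψ)).toAlgHom) x).2

omit [IsAlgClosed k] [CharZero k] in
private theorem eb_ext {φ : L} (hφ : Transcendental k φ) {ψ : Om k} (hψ : Transcendental k ψ)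
    {σ : L →ₐ[k] Om k} (hσ : σ φ = ψ) (x : IntermediateField.adjoin k {φ}) :
    σ x = eb_j hφ hψ x := by
  have h1 : σ.comp (IntermediateField.val (IntermediateField.adjoin k {φ})) = eb_j hφ hψ := by
    refine IntermediateField.algHom_ext_of_eq_adjoin _ rfl ?_
    intro y hy
    have hy' : y = φ := hy
    subst hy'
    change σ y = eb_j hφ hψ (IntermediateField.AdjoinSimple.gen k y)
    rw [eb_j_gen, hσ]
  exact DFunLike.congr_fun h1 x

/-- the equivalence with the homomorphisms over `k(φ)` -/
private theorem eb_main (hL : IsCurve k L) {φ : L} (hφ : Transcendental k φ) {ψ : Om k}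
    (hψ : Transcendental k ψ) : ∃ (A : Type) (_ : Fintype A) (e : A ≃ {σ : L →ₐ[k] Om k // σ φ = ψ}),
      Fintype.card A = finrank (IntermediateField.adjoin k {φ}) L ∧
      ∀ f : L, ∏ a, (e a).1 f ∈ IntermediateField.adjoin k {ψ} := by
  let E := IntermediateField.adjoin k {φ}
  have hfd : FiniteDimensional E L := fin_adjoin hL hφ
  let alg : Algebra E (Om k) := (eb_j hφ hψ).toRingHom.toAlgebra
  have hsc : IsScalarTower k E (Om k) := IsScalarTower.of_algebraMap_eq fun x => by
    change _ = eb_j hφ hψ (algebraMap k E x)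
    rw [AlgHom.commutes]
  have hchar : CharZero E := charZero_of_injective_algebraMap (algebraMap k E).injective
  have hsep : Algebra.IsSeparable E L := inferInstance
  refine ⟨L →ₐ[E] Om k, inferInstance,
    { toFun := fun τ => ⟨τ.restrictScalars k, ?_⟩
      invFun := fun σ => { σ.1 with commutes' := fun x => eb_ext hφ hψ σ.2 x }
      left_inv := fun τ => ?_
      right_inv := fun σ => ?_ }, ?_, fun f => ?_⟩
  · have h1 := τ.commutes (IntermediateField.AdjoinSimple.gen k φ)
    have h2 : algebraMap E L (IntermediateField.AdjoinSimple.gen k φ) = φ := rfl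
    rw [h2] at h1
    exact h1.trans (eb_j_gen hφ hψ)
  · ext x; rfl
  · ext x; rfl
  · exact AlgHom.card E L (Om k)
  · have h1 := Algebra.norm_eq_prod_embeddings E (Om k) f
    change ∏ τ : L →ₐ[E] Om k, τ f ∈ _
    rw [← h1]
    exact eb_j_mem hφ hψ _

/-- The embeddings with `σ φ = ψ` are finite in number, their number is the degree `[L : k(φ)]`.
Proof: `k(φ) → Om k`, `φ ↦ ψ` is an embedding `j` (`ψ` is transcendental), `L` is a finite separable
extension of `k(φ)` and `Om k` is algebraically closed: `AlgHom.card`. -/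
theorem card_emb (hL : IsCurve k L) {φ : L} (hφ : Transcendental k φ) {ψ : Om k}
    (hψ : Transcendental k ψ) : {σ : L →ₐ[k] Om k | σ φ = ψ}.Finite ∧
      {σ : L →ₐ[k] Om k | σ φ = ψ}.ncard = finrank (IntermediateField.adjoin k {φ}) L := by
  obtain ⟨A, hA, e, h1, -⟩ := eb_main hL hφ hψ
  have hfin : Finite {σ : L →ₐ[k] Om k | σ φ = ψ} := Finite.of_equiv A e
  refine ⟨Set.toFinite _, ?_⟩
  rw [← Nat.card_coe_set_eq, ← h1, ← Nat.card_eq_fintype_card]
  exact (Nat.card_congr e).symm

/-- The product of the conjugates is a rational function of `ψ`: `Algebra.norm_eq_prod_embeddings`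
for `L / k(φ)`. -/
theorem prod_emb_mem (hL : IsCurve k L) {φ : L} (hφ : Transcendental k φ) {ψ : Om k}
    (hψ : Transcendental k ψ) (f : L) :
    ∏ σ ∈ (card_emb hL hφ hψ).1.toFinset, σ f ∈ IntermediateField.adjoin k {ψ} := by
  obtain ⟨A, hA, e, -, h2⟩ := eb_main hL hφ hψ
  have h3 : ∏ σ ∈ (card_emb hL hφ hψ).1.toFinset, σ f = ∏ a, (e a).1 f := by
    symm
    refine Finset.prod_bij (fun a _ => (e a).1) (fun a _ => ?_) (fun a _ b _ h => ?_)
      (fun σ hσ => ?_) (fun a _ => rfl)
    · rw [Set.Finite.mem_toFinset]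
      exact (e a).2
    · exact e.injective (Subtype.ext h)
    · rw [Set.Finite.mem_toFinset] at hσ
      exact ⟨e.symm ⟨σ, hσ⟩, Finset.mem_univ _, by rw [Equiv.apply_symm_apply]⟩
  rw [h3]
  exact h2 f

end Pool.Agent.TInc
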