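import Pool.Agent.TInc.EmbA
import Pool.Agent.TInc.EmbB
import Pool.Agent.Dess.Galois

/-!
# Embeddings above every place
-/

set_option autoImplicit false

noncomputable section

namespace Pool.Agent.TInc

open Pool.Agent.ZCyc Pool.Agent.Dess Pool.Agent.KFam Module
open Pool.Agent.VFP (Om tt)
open scoped Classical

variable {k L : Type} [Field k] [IsAlgClosed k] [CharZero k] [Field L] [Algebra k L]

omit [IsAlgClosed k] [CharZero k] in
/-- a rational function of `ψ` is regular at `V` if it is regular at `v`, if `ψ` has the same value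
at both places -/
private theorem embc_ring {v V : Place k (Om k)} {ψ : Om k} {a : k} (hv : v.At ψ a)
    (hV : V.At ψ a) {f : Om k} (hf : f ∈ IntermediateField.adjoin k {ψ}) (h : f ∈ v.ring) :
    f ∈ V.ring := by
  rw [IntermediateField.mem_adjoin_simple_iff] at hf
  obtain ⟨p, q, rfl⟩ := hf
  by_cases hq : q = 0
  · rw [hq, map_zero, div_zero]
    exact zero_mem _
  set g := EuclideanDomain.gcd p q with hg
  obtain ⟨p', hp'⟩ : g ∣ p := EuclideanDomain.gcd_dvd_left p q
  obtain ⟨q', hq'⟩ : g ∣ q := EuclideanDomain.gcd_dvd_right p q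
  have hg0 : g ≠ 0 := by
    intro h0
    rw [h0, zero_mul] at hq'
    exact hq hq'
  have hcop : EuclideanDomain.gcdA p q * p' + EuclideanDomain.gcdB p q * q' = 1 := by
    have h1 := EuclideanDomain.gcd_eq_gcd_ab p q
    rw [← hg] at h1
    apply mul_left_cancel₀ hg0
    calc g * (EuclideanDomain.gcdA p q * p' + EuclideanDomain.gcdB p q * q')
        = (g * p') * EuclideanDomain.gcdA p q + (g * q') * EuclideanDomain.gcdB p q := by ring
      _ = g * 1 := by rw [← hp', ← hq', mul_one, ← h1]
  rw [hp', hq', map_mul, map_mul] at h ⊢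
  by_cases hgψ : Polynomial.aeval ψ g = 0
  · rw [hgψ, zero_mul, zero_div]
    exact zero_mem _
  rw [mul_div_mul_left _ _ hgψ] at h ⊢
  by_cases hqa : q'.eval a = 0
  · by_cases hq0 : Polynomial.aeval ψ q' = 0
    · rw [hq0, div_zero]
      exact zero_mem _
    exfalso
    have h1 : v.Vanishes (Polynomial.aeval ψ q') := by
      rw [← Place.at_zero_iff, ← hqa]
      exact hv.aeval q'
    have h2 := Place.Vanishes.mul' v h1 h
    rw [div_mul_cancel₀ _ hq0, ← Place.at_zero_iff] at h2
    have h3 : p'.eval a = 0 := (hv.aeval p').unique h2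
    have h4 := congrArg (Polynomial.eval a) hcop
    rw [Polynomial.eval_add, Polynomial.eval_mul, Polynomial.eval_mul, hqa, h3, mul_zero, mul_zero,
      add_zero, Polynomial.eval_one] at h4
    exact zero_ne_one h4
  · exact ((hV.aeval p').div (hV.aeval q') hqa).mem

/-- Above every place `c` with `φ(c) = a`, and below `v` with `ψ(v) = a` there is an embedding.
Proof: let `σ₀` be an embedding with `σ₀ φ = ψ` (`card_emb`, the degree is positive), `V` a place of
`Om k` above `c` for `σ₀`. Let `M ⊆ Om k` be the normal closure of `σ₀ L` over `k(ψ)`, a finite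
Galois extension of `k(ψ)`, and `IsCurve k M`. The restrictions of `v` and `V` to `k(ψ)` are the
same (both are the place `ψ = a`: a rational function of `ψ` is in the ring if and only if it has no
pole at `a`). By `Dess.galois_trans` there is `g` in the group of `M / k(ψ)` which maps one of the
restrictions of `v`, `V` to `M` to the other one (they are places: as in `exists_below`). Take
`σ = g ∘ σ₀`. -/
theorem exists_emb_over (hL : IsCurve k L) {φ : L} (hφ : Transcendental k φ) {ψ : Om k}
    (hψ : Transcendental k ψ) {v : Place k (Om k)} {a : k} (ha : v.At ψ a) {c : Place k L}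
    (hc : c.At φ a) : ∃ σ : L →ₐ[k] Om k, σ φ = ψ ∧ v.ring.comap (σ : L →+* Om k) = c.ring := by
  have hfin := fin_adjoin hL hφ
  obtain ⟨hfinite, hcard⟩ := card_emb hL hφ hψ
  obtain ⟨σ₀, hσ₀⟩ : ({σ : L →ₐ[k] Om k | σ φ = ψ}).Nonempty := by
    rw [← Set.ncard_pos hfinite, hcard]
    exact finrank_pos
  have hσ : σ₀ φ = ψ := hσ₀
  obtain ⟨V, hV⟩ := exists_above hL c σ₀
  have hVmem : ∀ g : L, g ∈ c.ring ↔ σ₀ g ∈ V.ring := fun g => by
    rw [← hV]
    exact ValuationSubring.mem_comap
  have hVa : V.At ψ a := by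
    have h2 := hc
    unfold Place.At at h2 ⊢
    rw [Place.vanishes_iff_or] at h2 ⊢
    rcases h2 with h2 | h2
    · left
      have := congrArg σ₀ h2
      rwa [map_sub, AlgHom.commutes, map_zero, hσ] at this
    · right
      rw [hVmem, map_inv₀, map_sub, AlgHom.commutes, hσ] at h2
      exact h2
  -- the normal closure
  have halg : Algebra.IsAlgebraic (IntermediateField.adjoin k {ψ}) (Om k) := alg_adjoin hψ
  have : IsAlgClosure (IntermediateField.adjoin k {ψ}) (Om k) := ⟨inferInstance, inferInstance⟩
  have : Normal (IntermediateField.adjoin k {ψ}) (Om k) := IsAlgClosure.normal _ _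
  let b := Module.finBasis (IntermediateField.adjoin k {φ}) L
  let M₀ : IntermediateField (IntermediateField.adjoin k {ψ}) (Om k) :=
    IntermediateField.adjoin (IntermediateField.adjoin k {ψ}) (Set.range fun i => σ₀ (b i))
  have : FiniteDimensional (IntermediateField.adjoin k {ψ}) M₀ :=
    IntermediateField.finiteDimensional_adjoin fun x _ => Algebra.IsIntegral.isIntegral x
  have hM₀ : ∀ f : L, σ₀ f ∈ M₀ := by
    intro f
    rw [← b.sum_repr f, map_sum]
    refine sum_mem fun i _ => ?_
    have h1 : (b.repr f i) • b i = ((b.repr f i : IntermediateField.adjoin k {φ}) : L) * b i := by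
      rw [IntermediateField.smul_def, smul_eq_mul]
    rw [h1, map_mul]
    refine mul_mem ?_ (IntermediateField.subset_adjoin _ _ ⟨i, rfl⟩)
    have h2 : σ₀ ((b.repr f i : IntermediateField.adjoin k {φ}) : L) ∈
        IntermediateField.adjoin k {ψ} := by
      have h3 : (IntermediateField.adjoin k {φ}).map σ₀ = IntermediateField.adjoin k {ψ} := by
        rw [IntermediateField.adjoin_map, Set.image_singleton, hσ]
      rw [← h3]
      exact ⟨_, (b.repr f i).2, rfl⟩
    exact M₀.algebraMap_mem ⟨_, h2⟩
  let N : IntermediateField (IntermediateField.adjoin k {ψ}) (Om k) :=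
    IntermediateField.normalClosure (IntermediateField.adjoin k {ψ}) M₀ (Om k)
  have hM₀N : M₀ ≤ N := IntermediateField.le_normalClosure M₀
  have : FiniteDimensional (IntermediateField.adjoin k {ψ}) N := inferInstance
  have : Normal (IntermediateField.adjoin k {ψ}) N := inferInstance
  let M : IntermediateField k (Om k) := N.restrictScalars k
  have hKM : IntermediateField.adjoin k {ψ} ≤ M := fun x hx => N.algebraMap_mem ⟨x, hx⟩
  have hψM : ψ ∈ M := hKM (IntermediateField.mem_adjoin_simple_self k ψ)
  let E : IntermediateField k M := IntermediateField.restrict hKM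
  have hE : E = IntermediateField.adjoin k {(⟨ψ, hψM⟩ : M)} := by
    apply IntermediateField.lift_injective M
    rw [IntermediateField.lift_restrict, IntermediateField.lift_adjoin_simple]
  let e₁ : IntermediateField.adjoin k {ψ} ≃+* E :=
    (IntermediateField.restrictAlgEquiv hKM).toRingEquiv
  let e₂ : N ≃+* M :=
    { toFun := fun x => ⟨x.1, x.2⟩
      invFun := fun x => ⟨x.1, x.2⟩
      left_inv := fun _ => rfl
      right_inv := fun _ => rfl
      map_mul' := fun _ _ => rfl
      map_add' := fun _ _ => rfl }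
  have he : (algebraMap E M).comp (e₁ : IntermediateField.adjoin k {ψ} →+* E) =
      (e₂ : N →+* M).comp (algebraMap (IntermediateField.adjoin k {ψ}) N) := by
    ext x
    rfl
  have hfinE : FiniteDimensional E M := Module.Finite.of_equiv_equiv e₁ e₂ he
  have hnorE : Normal E M := Normal.of_equiv_equiv (f := e₁) (g := e₂) he
  have hgalE : IsGalois E M := ⟨⟩
  have hcurve : IsCurve k M := by
    refine ⟨⟨ψ, hψM⟩, ?_, ?_⟩
    · intro h
      exact hψ (h.algHom M.val)
    · rw [← hE]
      exact hfinE
  obtain ⟨v', hv'⟩ := exists_below hcurve v M.val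
  obtain ⟨V', hV'⟩ := exists_below hcurve V M.val
  have hv'mem : ∀ f : M, f ∈ v'.ring ↔ (f : Om k) ∈ v.ring := fun f => by
    rw [← hv']
    exact ValuationSubring.mem_comap
  have hV'mem : ∀ f : M, f ∈ V'.ring ↔ (f : Om k) ∈ V.ring := fun f => by
    rw [← hV']
    exact ValuationSubring.mem_comap
  obtain ⟨g, hg, hgv⟩ := galois_trans hcurve E v' V' (by
    intro f hf
    have hf' : (f : Om k) ∈ IntermediateField.adjoin k {ψ} :=
      (IntermediateField.mem_restrict hKM f).1 hf
    rw [hv'mem, hV'mem]
    exact ⟨embc_ring ha hVa hf', embc_ring hVa ha hf'⟩)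
  let τ : L →ₐ[k] M := σ₀.codRestrict M.toSubalgebra fun f => hM₀N (hM₀ f)
  have hτ : ∀ f, ((τ f : M) : Om k) = σ₀ f := fun f => rfl
  refine ⟨(M.val.comp (g.symm : M →ₐ[k] M)).comp τ, ?_, ?_⟩
  · show ((g.symm (τ φ) : M) : Om k) = ψ
    have h1 : τ φ = ⟨ψ, hψM⟩ := Subtype.ext (by rw [hτ, hσ])
    have h2 : (⟨ψ, hψM⟩ : M) ∈ E := (IntermediateField.mem_restrict hKM _).2
      (IntermediateField.mem_adjoin_simple_self k ψ)
    have h3 : g.symm (⟨ψ, hψM⟩ : M) = ⟨ψ, hψM⟩ := by
      rw [AlgEquiv.symm_apply_eq, hg _ h2]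
    rw [h1, h3]
  · ext f
    rw [ValuationSubring.mem_comap, hVmem]
    show ((g.symm (τ f) : M) : Om k) ∈ v.ring ↔ _
    rw [← hv'mem, ← Place.mem_map, hgv, hV'mem, hτ]

end Pool.Agent.TInc
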