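import Pool.Agent.TInc.EmbC
import Pool.Agent.Dess.CRT

/-!
# The number of the embeddings above a place
-/

set_option autoImplicit false

noncomputable section

namespace Pool.Agent.TInc

open Pool.Agent.ZCyc Pool.Agent.Dess Pool.Agent.KFam Module
open Pool.Agent.VFP (Om tt)
open scoped Classical

variable {k L : Type} [Field k] [IsAlgClosed k] [CharZero k] [Field L] [Algebra k L]

omit [IsAlgClosed k] [CharZero k] in
/-- units have valuation one -/
private theorem embD_val_one {v : Place k (Om k)} {x : Om k} (h1 : x ∈ v.ring)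
    (h2 : x⁻¹ ∈ v.ring) (hx : x ≠ 0) : v.ring.valuation x = 1 := by
  have h3 := (v.ring.valuation_le_one_iff x).2 h1
  have h4 := (v.ring.valuation_le_one_iff x⁻¹).2 h2
  rw [map_inv₀] at h4
  have h5 : v.ring.valuation x ≠ 0 := (Valuation.ne_zero_iff _).2 hx
  exact le_antisymm h3 ((inv_le_one₀ (zero_lt_iff.2 h5)).1 h4)

omit [IsAlgClosed k] [CharZero k] in
private theorem embD_mem {v : Place k (Om k)} {c : Place k L} {σ : L →ₐ[k] Om k}
    (hv : v.ring.comap (σ : L →+* Om k) = c.ring) (g : L) : g ∈ c.ring ↔ σ g ∈ v.ring := by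
  rw [← hv]
  exact ValuationSubring.mem_comap

omit [IsAlgClosed k] [CharZero k] in
private theorem embD_ne {F : Type} [Field F] [Algebra k F] {φ : F} (hφ : Transcendental k φ)
    (a : k) : φ - algebraMap k F a ≠ 0 := by
  intro h
  exact hφ (sub_eq_zero.1 h ▸ isAlgebraic_algebraMap a)

/-- If `σ φ = ψ`, and the place `c` is below `v`, then `σ f` to the power `e = ord_c (φ - a)` is a
unit times `(ψ - a) ^ ord_c f`. Proof: `f ^ e / (φ - a) ^ ord_c f` has order zero at `c`, so it is a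
unit at `c` (`ord_eq_zero_iff`), and its image is a unit at `v`. -/
theorem emb_pow_unit (hL : IsCurve k L) {φ : L} (hφ : Transcendental k φ) {ψ : Om k}
    {v : Place k (Om k)} {a : k} {c : Place k L} {σ : L →ₐ[k] Om k} (hσ : σ φ = ψ)
    (hv : v.ring.comap (σ : L →+* Om k) = c.ring) {f : L} (hf : f ≠ 0) {e : ℕ}
    (he : (e : ℤ) = ord c (φ - algebraMap k L a)) :
    v.ring.valuation (σ f ^ e) = v.ring.valuation ((ψ - algebraMap k (Om k) a) ^ ord c f) := by
  have hφa := embD_ne hφ a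
  set g := f ^ e / (φ - algebraMap k L a) ^ ord c f with hg
  have hg0 : g ≠ 0 := div_ne_zero (pow_ne_zero _ hf) (zpow_ne_zero _ hφa)
  have h1 : ord c g = 0 := by
    rw [hg, div_eq_mul_inv, ord_mul hL c (pow_ne_zero _ hf) (inv_ne_zero (zpow_ne_zero _ hφa)),
      ord_inv hL, ord_zpow hL, ord_pow hL, he]
    ring
  obtain ⟨h2, h3⟩ := (ord_eq_zero_iff hL hg0).1 h1
  have h4 : v.ring.valuation (σ g) = 1 := embD_val_one ((embD_mem hv g).1 h2)
    (by rw [← map_inv₀]; exact (embD_mem hv _).1 h3) ((map_ne_zero σ).2 hg0)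
  have h5 : σ g = σ f ^ e / (ψ - algebraMap k (Om k) a) ^ ord c f := by
    rw [hg, map_div₀, map_pow, map_zpow₀, map_sub, hσ, AlgHom.commutes]
  have h6 : (ψ - algebraMap k (Om k) a) ^ ord c f ≠ 0 := by
    have h7 : ψ - algebraMap k (Om k) a = σ (φ - algebraMap k L a) := by
      rw [map_sub, hσ, AlgHom.commutes]
    rw [h7]
    exact zpow_ne_zero _ ((map_ne_zero σ).2 hφa)
  rw [h5, map_div₀] at h4
  exact (div_eq_one_iff_eq ((Valuation.ne_zero_iff _).2 h6)).1 h4

private theorem embD_poly {ψ : Om k} {v : Place k (Om k)} {a : k}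
    (ha : v.At ψ a) {p : Polynomial k} (hp : p ≠ 0) :
    ∃ n : ℕ, v.ring.valuation (Polynomial.aeval ψ p) =
      v.ring.valuation (ψ - algebraMap k (Om k) a) ^ n := by
  obtain ⟨q, hq, hq'⟩ := Polynomial.exists_eq_pow_rootMultiplicity_mul_and_not_dvd p hp a
  refine ⟨p.rootMultiplicity a, ?_⟩
  have h1 : q.eval a ≠ 0 := fun h => hq' (Polynomial.dvd_iff_isRoot.2 h)
  have h2 := ha.aeval q
  have h3 : Polynomial.aeval ψ q ≠ 0 := by
    intro h
    rw [h] at h2
    exact h1 (h2.unique (by simpa using Place.at_const (v := v) (0 : k)))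
  have h4 := embD_val_one h2.mem (h2.inv h1).mem h3
  conv_lhs => rw [hq]
  rw [map_mul, map_pow, map_sub, Polynomial.aeval_X, Polynomial.aeval_C, map_mul, map_pow, h4,
    mul_one]

private theorem embD_ratio {ψ : Om k} {v : Place k (Om k)} {a : k}
    (ha : v.At ψ a) {x : Om k} (hx : x ∈ IntermediateField.adjoin k {ψ}) (hx0 : x ≠ 0) :
    ∃ N : ℤ, v.ring.valuation x = v.ring.valuation (ψ - algebraMap k (Om k) a) ^ N := by
  obtain ⟨r, s, rfl⟩ := (IntermediateField.mem_adjoin_simple_iff k x).1 hx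
  obtain ⟨h1, h2⟩ := div_ne_zero_iff.1 hx0
  obtain ⟨m, hm⟩ := embD_poly ha (p := r) fun h => h1 (by rw [h, map_zero])
  obtain ⟨n, hn⟩ := embD_poly ha (p := s) fun h => h2 (by rw [h, map_zero])
  refine ⟨(m : ℤ) - n, ?_⟩
  have h3 : v.ring.valuation (ψ - algebraMap k (Om k) a) ≠ 0 ∨ (n = 0 ∧ m = 0) ∨
      v.ring.valuation (ψ - algebraMap k (Om k) a) = 0 := by tauto
  by_cases h0 : v.ring.valuation (ψ - algebraMap k (Om k) a) = 0
  · have hm0 : m = 0 := by
      by_contra hm'
      rw [h0, zero_pow hm'] at hm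
      exact (Valuation.ne_zero_iff _).2 h1 hm
    have hn0 : n = 0 := by
      by_contra hn'
      rw [h0, zero_pow hn'] at hn
      exact (Valuation.ne_zero_iff _).2 h2 hn
    rw [map_div₀, hm, hn, hm0, hn0]
    simp
  · rw [map_div₀, hm, hn, zpow_sub₀ h0, zpow_natCast, zpow_natCast]

/-- a place below `v` has the value `a` too -/
private theorem embD_at {φ : L} {ψ : Om k} {v : Place k (Om k)} {a : k} (ha : v.At ψ a)
    {c : Place k L} {σ : L →ₐ[k] Om k} (hσ : σ φ = ψ)
    (hv : v.ring.comap (σ : L →+* Om k) = c.ring) : c.At φ a := by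
  unfold Place.At at ha ⊢
  rw [Place.vanishes_iff_or] at ha ⊢
  have h1 : σ (φ - algebraMap k L a) = ψ - algebraMap k (Om k) a := by
    rw [map_sub, hσ, AlgHom.commutes]
  rw [← h1] at ha
  rcases ha with ha | ha
  · exact Or.inl ((map_eq_zero σ).1 ha)
  · refine Or.inr fun h => ha ?_
    rw [← map_inv₀]
    exact (embD_mem hv _).1 h

/-- a function with a simple zero at `c` and units at the other zeros of `φ - a` -/
private theorem embD_fun (hL : IsCurve k L) {φ : L} (hφ : Transcendental k φ) {a : k}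
    {c : Place k L} (hc : c.At φ a) :
    ∃ b : L, b ≠ 0 ∧ ord c b = 1 ∧ ∀ c' : Place k L, c'.At φ a → c' ≠ c → ord c' b = 0 := by
  obtain ⟨π, hπ⟩ := exists_unif hL c
  obtain ⟨b, -, hb⟩ := crt hL hφ (finite_at hL hφ a).toFinset
    (fun v hv => ((finite_at hL hφ a).mem_toFinset.1 hv : v.At φ a).mem) 2
    (fun c' => if c' = c then π else 1) (by
      intro v _
      split_ifs with h
      · rw [h]
        exact Place.Vanishes.mem c hπ.2.1
      · exact one_mem _)
  have h1 := hb c ((finite_at hL hφ a).mem_toFinset.2 hc) π hπ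
  rw [if_pos rfl] at h1
  have hπ0 := hπ.1
  have h2 : π ≠ 0 ∧ π + (b - π) ≠ 0 ∧ ord c (π + (b - π)) = ord c π := by
    refine ⟨hπ0, ord_add_eq hL hπ0 fun h => ?_⟩
    rw [ord_unif hL hπ]
    have h3 : (b - π) / π ^ 2 ≠ 0 := div_ne_zero h (pow_ne_zero _ hπ0)
    have h4 := (mem_iff_ord hL h3).1 h1
    rw [div_eq_mul_inv, ord_mul hL c h (inv_ne_zero (pow_ne_zero _ hπ0)), ord_inv hL,
      ord_pow hL, ord_unif hL hπ] at h4
    push_cast at h4
    omega
  rw [add_sub_cancel, ord_unif hL hπ] at h2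
  refine ⟨b, h2.2.1, h2.2.2, fun c' hc' hne => ?_⟩
  obtain ⟨π', hπ'⟩ := exists_unif hL c'
  have h3 := hb c' ((finite_at hL hφ a).mem_toFinset.2 hc') π' hπ'
  rw [if_neg hne] at h3
  have h4 : c'.At b 1 := by
    unfold Place.At
    rw [map_one]
    have h5 : b - 1 = (b - 1) / π' ^ 2 * π' ^ 2 := by
      rw [div_mul_cancel₀ _ (pow_ne_zero _ hπ'.1)]
    rw [h5]
    exact Place.Vanishes.mul' c' (Place.Vanishes.pow c' hπ'.2.1 two_ne_zero) h3
  exact ord_of_at hL h4 one_ne_zero

/-- the number of the embeddings above `c` is at least the order -/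
private theorem embD_le (hL : IsCurve k L) {φ : L} (hφ : Transcendental k φ) {ψ : Om k}
    (hψ : Transcendental k ψ) {v : Place k (Om k)} {a : k} (ha : v.At ψ a) {c : Place k L}
    (hc : c.At φ a) (β : (L →ₐ[k] Om k) → Place k L)
    (hβ : ∀ σ : L →ₐ[k] Om k, v.ring.comap (σ : L →+* Om k) = (β σ).ring) :
    ord c (φ - algebraMap k L a) ≤
      (((card_emb hL hφ hψ).1.toFinset.filter fun σ => β σ = c).card : ℤ) := by
  obtain ⟨b, hb0, hb1, hb2⟩ := embD_fun hL hφ hc
  set S := (card_emb hL hφ hψ).1.toFinset with hS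
  have hmem : ∀ σ ∈ S, σ φ = ψ := fun σ hσ => (card_emb hL hφ hψ).1.mem_toFinset.1 hσ
  obtain ⟨N, hN⟩ := embD_ratio ha (prod_emb_mem hL hφ hψ b)
    (Finset.prod_ne_zero_iff.2 fun σ _ => (map_ne_zero σ).2 hb0)
  have hφa := embD_ne hφ a
  have hpos : 0 < ord c (φ - algebraMap k L a) := (vanishes_iff_ord hL hφa).1 hc
  obtain ⟨e, he⟩ := Int.eq_ofNat_of_zero_le hpos.le
  have he' : (e : ℤ) = ord c (φ - algebraMap k L a) := he.symm
  rw [← he']
  set w := v.ring.valuation (ψ - algebraMap k (Om k) a) with hw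
  have hw0 : w ≠ 0 := (Valuation.ne_zero_iff _).2 (embD_ne hψ a)
  have hw1 : w < 1 := (Place.vanishes_iff _ _).1 ha
  have h1 : ∀ σ ∈ S, v.ring.valuation (σ b) ^ e = if β σ = c then w else 1 := by
    intro σ hσ
    split_ifs with h
    · have h2 := emb_pow_unit hL hφ (hmem σ hσ) (h ▸ hβ σ) hb0 he'
      rw [hb1, zpow_one, map_pow] at h2
      exact h2
    · have h3 : (β σ).At φ a := embD_at ha (hmem σ hσ) (hβ σ)
      obtain ⟨h4, h5⟩ := (ord_eq_zero_iff hL hb0).1 (hb2 _ h3 h)
      rw [embD_val_one ((embD_mem (hβ σ) _).1 h4)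
        (by rw [← map_inv₀]; exact (embD_mem (hβ σ) _).1 h5) ((map_ne_zero σ).2 hb0), one_pow]
  have h2 : (w ^ N) ^ e = w ^ (S.filter fun σ => β σ = c).card := by
    rw [← hN, map_prod, ← Finset.prod_pow, Finset.prod_congr rfl h1, ← Finset.prod_filter,
      Finset.prod_const]
  have h3 : w ^ (N * e) = w ^ (((S.filter fun σ => β σ = c).card : ℕ) : ℤ) := by
    rw [zpow_mul, zpow_natCast, zpow_natCast]
    exact h2
  have h4 : N * e = ((S.filter fun σ => β σ = c).card : ℤ) :=
    zpow_right_injective₀ (zero_lt_iff.2 hw0) hw1.ne h3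
  obtain ⟨σ, hσ1, hσ2⟩ := exists_emb_over hL hφ hψ ha hc
  have h5 : 0 < (S.filter fun σ => β σ = c).card := by
    rw [Finset.card_pos]
    refine ⟨σ, Finset.mem_filter.2 ⟨(card_emb hL hφ hψ).1.mem_toFinset.2 hσ1, ?_⟩⟩
    apply Place.ext
    rw [← hβ σ, hσ2]
  have h6 : (0 : ℤ) < N * e := by
    rw [h4]
    exact_mod_cast h5
  have h7 : (0 : ℤ) < e := by rw [he']; exact hpos
  have h8 : 0 < N := (mul_pos_iff_of_pos_right h7).1 h6
  rw [← h4]
  nlinarith

/-- The number of the embeddings with `σ φ = ψ` above the place `c` is the order `e_c` of `φ - a`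
at `c`. Proof: let `m_c` be this number. (1) `m_c > 0` by `exists_emb_over`. (2) `e_c ≤ m_c`: choose
`f` with the order one at `c` and the order zero at all other (finitely many) places `c'` with
`φ(c') = a` (`Dess.crt`). Then `R = ∏ σ f` (all `σ` with `σ φ = ψ`) is in `k(ψ)`, so its valuation
at `v` is the valuation of `(ψ - a) ^ N` for an integer `N`. By `emb_pow_unit` `R ^ e_c` has the
valuation of `(ψ - a) ^ m_c` (every `σ` lies over some `c'` with `φ(c') = a`, `exists_below`; if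
`c' ≠ c` then `σ f` is a unit; if `c' = c` then `(σ f) ^ e_c` is `(ψ - a)` up to a unit). So
`e_c N = m_c` (the valuation of `ψ - a` is `< 1`, so it has infinite order), hence `e_c ≤ m_c`.
(3) `∑ m_c = [L : k(φ)] = ∑ e_c` (`card_emb`, `deg_zeros'` for `φ - a`, and
`k(φ - a) = k(φ)`). So `m_c = e_c`. -/
theorem card_over (hL : IsCurve k L) {φ : L} (hφ : Transcendental k φ) {ψ : Om k}
    (hψ : Transcendental k ψ) {v : Place k (Om k)} {a : k} (ha : v.At ψ a) {c : Place k L}
    (hc : c.At φ a) :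
    ({σ : L →ₐ[k] Om k | σ φ = ψ ∧ v.ring.comap (σ : L →+* Om k) = c.ring}.ncard : ℤ) =
      ord c (φ - algebraMap k L a) := by
  choose β hβ using fun σ => exists_below hL v σ
  set S := (card_emb hL hφ hψ).1.toFinset with hS
  have hmem : ∀ σ, σ ∈ S ↔ σ φ = ψ := fun σ => (card_emb hL hφ hψ).1.mem_toFinset
  have hm : ∀ c' : Place k L, {σ : L →ₐ[k] Om k | σ φ = ψ ∧
      v.ring.comap (σ : L →+* Om k) = c'.ring}.ncard = (S.filter fun σ => β σ = c').card := by
    intro c'
    rw [← Set.ncard_coe_finset]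
    congr 1
    ext σ
    rw [Set.mem_ofPred_eq, Finset.mem_coe, Finset.mem_filter, hmem, hβ σ]
    exact and_congr_right fun _ => ⟨fun h => Place.ext h, fun h => by rw [h]⟩
  rw [hm]
  have hfin := finite_at hL hφ a
  set C := hfin.toFinset with hC
  have hCm : ∀ c' : Place k L, c' ∈ C ↔ c'.At φ a := fun c' => hfin.mem_toFinset
  have h1 : S.card = ∑ c' ∈ C, (S.filter fun σ => β σ = c').card :=
    Finset.card_eq_sum_card_fiberwise fun σ hσ =>
      (hCm _).2 (embD_at ha ((hmem σ).1 hσ) (hβ σ))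
  have h2 : S.card = finrank (IntermediateField.adjoin k {φ}) L := by
    rw [← (card_emb hL hφ hψ).2, hS, ← Set.ncard_coe_finset, Set.Finite.coe_toFinset]
  have htr : Transcendental k (φ - algebraMap k L a) := by
    apply transc_of_ne hL
    intro b hb
    apply hφ
    rw [sub_eq_iff_eq_add.1 hb, ← map_add]
    exact isAlgebraic_algebraMap _
  have hadj : IntermediateField.adjoin k {φ - algebraMap k L a} =
      IntermediateField.adjoin k {φ} := by
    apply le_antisymm
    · rw [IntermediateField.adjoin_simple_le_iff]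
      exact sub_mem (IntermediateField.mem_adjoin_simple_self k φ)
        (IntermediateField.algebraMap_mem _ a)
    · rw [IntermediateField.adjoin_simple_le_iff]
      have h := add_mem (IntermediateField.mem_adjoin_simple_self k (φ - algebraMap k L a))
        (IntermediateField.algebraMap_mem _ a)
      rwa [sub_add_cancel] at h
  have h3 : ∑ c' ∈ C, ord c' (φ - algebraMap k L a) =
      finrank (IntermediateField.adjoin k {φ}) L := by
    rw [deg_zeros' hL htr C fun c' => hCm c', hadj]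
  have h4 : ∀ c' ∈ C, ord c' (φ - algebraMap k L a) ≤
      (((S.filter fun σ => β σ = c').card : ℕ) : ℤ) := fun c' hc' =>
    embD_le hL hφ hψ ha ((hCm c').1 hc') β hβ
  have h5 : ∑ c' ∈ C, ord c' (φ - algebraMap k L a) =
      ∑ c' ∈ C, (((S.filter fun σ => β σ = c').card : ℕ) : ℤ) := by
    rw [h3, ← h2, h1]
    push_cast
    rfl
  exact ((Finset.sum_eq_sum_iff_of_le h4).1 h5 c ((hCm c).2 hc)).symm

/-- The same for poles: apply `card_over` to `φ⁻¹`, `ψ⁻¹` and `a = 0`. -/
theorem card_over_pole (hL : IsCurve k L) {φ : L} (hφ : Transcendental k φ) {ψ : Om k}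
    (hψ : Transcendental k ψ) {v : Place k (Om k)} (ha : ψ ∉ v.ring) {c : Place k L}
    (hc : φ ∉ c.ring) :
    ({σ : L →ₐ[k] Om k | σ φ = ψ ∧ v.ring.comap (σ : L →+* Om k) = c.ring}.ncard : ℤ) =
      -ord c φ := by
  have hφ' : Transcendental k φ⁻¹ := fun h => hφ (by simpa using h.inv)
  have hψ' : Transcendental k ψ⁻¹ := fun h => hψ (by simpa using h.inv)
  have ha' : v.At ψ⁻¹ 0 := by
    rw [Place.at_zero_iff, Place.vanishes_iff_or, inv_inv]
    exact Or.inr ha
  have hc' : c.At φ⁻¹ 0 := by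
    rw [Place.at_zero_iff, Place.vanishes_iff_or, inv_inv]
    exact Or.inr hc
  have h := card_over hL hφ' hψ' ha' hc'
  rw [map_zero, sub_zero, ord_inv hL] at h
  rw [← h]
  congr 3
  ext σ
  rw [map_inv₀, inv_inj]

end Pool.Agent.TInc
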