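import Pool.Agent.TInc.Ord
import Pool.Agent.KFam.Zero

/-!
# Cubics over the function field of a curve, and the base of `KFam` which they define

The points over `k` are the places `c ∈ U` of `L` with scalings `l q ∈ k ^ *`, one for every place
`q` of `L`. The points over `Om k` are embeddings of `L` or (constant) places, with scalings. The
values of `α_i` and `B_i` at a point are multiplied by `λ ²` and `λ ³`, `λ = ∏ l q ^ (D_i q)`.
-/

set_option autoImplicit false

noncomputable section

namespace Pool.Agent.TInc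

open Pool.Agent.ZCyc Pool.Agent.Dess Pool.Agent.KFam
open Pool.Agent.VFP (Om tt)
open scoped Classical

variable {k L : Type} [Field k] [Field L] [Algebra k L] {r : ℕ}

/-- The cubics `y ² = x ³ - 3 α_i x + B_i` over the function field, and divisors `D_i`. -/
structure Cub (k L : Type) [Field k] [Field L] [Algebra k L] (r : ℕ) where
  /-- the coefficients `α` -/
  α : Fin r → L
  /-- the coefficients `B` -/
  B : Fin r → L
  /-- the divisors -/
  D : Fin r → (Place k L →₀ ℤ)

/-- `α_i` and `B_i` are sections of `2 D_i` and `3 D_i`, and `D_i` has the degree `d i`. -/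
structure Cub.Ok (X : Cub k L r) (d : Fin r → ℕ) : Prop where
  α_ne : ∀ i, X.α i ≠ 0
  B_ne : ∀ i, X.B i ≠ 0
  disc : ∀ i, X.B i ^ 2 - 4 * X.α i ^ 3 ≠ 0
  α_mem : ∀ i v, 0 ≤ ord v (X.α i) + 2 * X.D i v
  B_mem : ∀ i v, 0 ≤ ord v (X.B i) + 3 * X.D i v
  deg : ∀ i, deg (X.D i) = d i

/-- the coefficients and the discriminants are units at the place, which is not in the support of
the divisors -/
def Cub.Good (X : Cub k L r) (c : Place k L) : Prop :=
  ∀ i, (X.α i ∈ c.ring ∧ (X.α i)⁻¹ ∈ c.ring) ∧ (X.B i ∈ c.ring ∧ (X.B i)⁻¹ ∈ c.ring) ∧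
    (X.B i ^ 2 - 4 * X.α i ^ 3)⁻¹ ∈ c.ring ∧ X.D i c = 0

/-- the scaling factor -/
def scl {K : Type} [Field K] (l : Place k L → Kˣ) (D : Place k L →₀ ℤ) : K :=
  D.prod fun q n => ((l q ^ n : Kˣ) : K)

/-- the value of a function at a point over `Om k`: an embedding or a constant place -/
def evO {U : Set (Place k L)} (S : (L →ₐ[k] Om k) ⊕ U) (f : L) : Om k :=
  match S with
  | Sum.inl σ => σ f
  | Sum.inr c => algebraMap k (Om k) (val c.1 f)

/-- the point `c` is the value of the point `S` over `Om k` at the place `v` -/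
def Over {U : Set (Place k L)} (v : Place k (Om k)) (S : (L →ₐ[k] Om k) ⊕ U) (c : Place k L) :
    Prop :=
  match S with
  | Sum.inl σ => v.ring.comap (σ : L →+* Om k) = c.ring
  | Sum.inr c' => c'.1 = c

theorem over_at [IsAlgClosed k] [CharZero k] (hL : IsCurve k L) {U : Set (Place k L)}
    {v : Place k (Om k)} {S : (L →ₐ[k] Om k) ⊕ U} {c : Place k L} (h : Over v S c) {f : L}
    (hf : f ∈ c.ring) : v.At (evO S f) (val c f) := by
  rcases S with σ | c'
  · have h1 : v.ring.comap (σ : L →+* Om k) = c.ring := h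
    have h2 := at_val hL hf
    unfold Place.At at h2 ⊢
    rw [Place.vanishes_iff_or] at h2 ⊢
    have h3 : ∀ g : L, g ∈ c.ring ↔ σ g ∈ v.ring := fun g => by
      rw [← h1]
      exact ValuationSubring.mem_comap
    rcases h2 with h2 | h2
    · left
      have := congrArg σ h2
      rw [map_sub, AlgHom.commutes, map_zero] at this
      exact this
    · right
      rw [h3, map_inv₀, map_sub, AlgHom.commutes] at h2
      exact h2
  · have h1 : c'.1 = c := h
    show v.At (algebraMap k (Om k) (val c'.1 f)) (val c f)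
    rw [h1]
    exact Place.at_const _

theorem at_scl {v : Place k (Om k)} {l : Place k L → (Om k)ˣ} {m : Place k L → kˣ}
    (h : ∀ q, v.At (l q : Om k) (m q : k)) (D : Place k L →₀ ℤ) : v.At (scl l D) (scl m D) := by
  unfold scl Finsupp.prod
  refine Place.At.prod fun q _ => ?_
  show v.At ((l q ^ D q : (Om k)ˣ) : Om k) ((m q ^ D q : kˣ) : k)
  rw [Units.val_zpow_eq_zpow_val, Units.val_zpow_eq_zpow_val]
  have h1 : ∀ (a : (Om k)ˣ) (b : kˣ), v.At (a : Om k) (b : k) → v.At (a : Om k)⁻¹ (b : k)⁻¹ := by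
    intro a b hab
    exact hab.inv b.ne_zero
  rcases Int.eq_nat_or_neg (D q) with ⟨n, hn | hn⟩
  · rw [hn, zpow_natCast, zpow_natCast]
    exact (h q).pow n
  · rw [hn, zpow_neg, zpow_neg, zpow_natCast, zpow_natCast, ← inv_pow, ← inv_pow]
    exact (h1 _ _ (h q)).pow n

theorem scl_map (l : Place k L → kˣ) (D : Place k L →₀ ℤ) :
    scl (fun q => Units.map (algebraMap k (Om k) : k →* Om k) (l q)) D =
      algebraMap k (Om k) (scl l D) := by
  unfold scl Finsupp.prod
  rw [map_prod]
  refine Finset.prod_congr rfl fun q _ => ?_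
  show ((Units.map (algebraMap k (Om k) : k →* Om k) (l q) ^ D q : (Om k)ˣ) : Om k) =
    algebraMap k (Om k) ((l q ^ D q : kˣ) : k)
  rw [Units.val_zpow_eq_zpow_val, Units.val_zpow_eq_zpow_val, map_zpow₀]
  rfl

variable [IsAlgClosed k] [CharZero k]

/-- The base for the cubics `X`, with the set `U` of good places, and the sets `Z i` of the places
where the cubic with the index `i` is singular. -/
def Cub.base (X : Cub k L r) (hL : IsCurve k L) (U : Set (Place k L)) (hU : ∀ c ∈ U, X.Good c)
    (Z : Fin r → Set (Place k L)) : Base k r where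
  P := U × (Place k L → kˣ)
  Q := ((L →ₐ[k] Om k) ⊕ U) × (Place k L → (Om k)ˣ)
  al := fun i s => scl s.2 (X.D i) ^ 2 * val s.1.1 (X.α i)
  be := fun i s => scl s.2 (X.D i) ^ 3 * val s.1.1 (X.B i)
  alQ := fun i S => scl S.2 (X.D i) ^ 2 * evO S.1 (X.α i)
  beQ := fun i S => scl S.2 (X.D i) ^ 3 * evO S.1 (X.B i)
  At := fun v S s => Over v S.1 s.1.1 ∧ ∀ q, v.At (S.2 q : Om k) (s.2 q : k)
  Bad := fun v S i => ∃ δ ∈ Z i, Over v S.1 δ
  cst := fun s => (Sum.inr s.1, fun q => Units.map (algebraMap k (Om k) : k →* Om k) (s.2 q))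
  at_al := by
    rintro v S s ⟨h1, h2⟩ i
    exact ((at_scl h2 _).pow 2).mul (over_at hL h1 (hU s.1.1 s.1.2 i).1.1)
  at_be := by
    rintro v S s ⟨h1, h2⟩ i
    exact ((at_scl h2 _).pow 3).mul (over_at hL h1 (hU s.1.1 s.1.2 i).2.1.1)
  cst_at := by
    intro v s
    refine ⟨rfl, fun q => ?_⟩
    exact Place.at_const _
  cst_al := by
    intro s i
    rw [scl_map]
    show algebraMap k (Om k) _ ^ 2 * algebraMap k (Om k) _ = _
    rw [map_mul, map_pow]
  cst_be := by
    intro s i
    rw [scl_map]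
    show algebraMap k (Om k) _ ^ 3 * algebraMap k (Om k) _ = _
    rw [map_mul, map_pow]

end Pool.Agent.TInc
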