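import Pool.Agent.TInc.NormF

/-!
# The points of the family for given `φ` and `τ`
-/

set_option autoImplicit false

noncomputable section

namespace Pool.Agent.TInc

open Pool.Agent.ZCyc Pool.Agent.Dess Pool.Agent.KFam Module Polynomial
open Pool.Agent.VFP (Om tt)
open scoped Classical

variable {k L : Type} [Field k] [IsAlgClosed k] [CharZero k] [Field L] [Algebra k L] {n r : ℕ}

omit [IsAlgClosed k] in
/-- `1 + τ a` is not zero -/
private theorem one_add_ne {τ : Om k} (hτ : Transcendental k τ) (a : k) :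
    1 + τ * algebraMap k (Om k) a ≠ 0 := by
  intro h
  have ha : algebraMap k (Om k) a ≠ 0 := by
    intro h0
    rw [h0, mul_zero, add_zero] at h
    exact one_ne_zero h
  apply hτ
  have h1 : τ = algebraMap k (Om k) (-a⁻¹) := by
    rw [map_neg, map_inv₀]
    field_simp
    linear_combination h
  rw [h1]
  exact isAlgebraic_algebraMap _

/-- The points of the family at the parameter `τ`: `c j` are different places, `φ` is regular
outside the `c j`, with at most simple poles, and not constant; `T` is a finite set of places, none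
of them a `c j`. There are `σ j` (an embedding with `σ φ = -1/τ` if `φ` has a pole at `c j`, and the
constant place `c j` otherwise), and an index `j₀` (of a pole) such that (1) the products of the
values of the functions `f` of weight `w` (`f ≠ 0` is a unit at the `c j`,
`ord_q f + w D q ≥ 0` for all `q`, the support of `D` is in `T`) are as stated, where the point
with the index `j₀` has the scaling `1 + τ φ(q)`, `q ∈ T`; (2) if `τ → 0` then the points tend to
the `c j`, up to a permutation; (3) if `v.At (-1/τ) a` and `φ(δ) = a` then some `S j` tends to `δ`.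
Proof: `J` = the set of the `j` such that `φ` has a pole at `c j`, `E` = the set of the embeddings
with `σ φ = -1/τ`; `J` and `E` have the same number of elements: `card_emb` and `deg_poles'`. (1):
`norm_formula` with `T' = T ∪ {q | ord q f ≠ 0}`, and the product over `q` of
`(1 + τ φ(q)) ^ (ord_q f + w D q)`. (2) `emb_bij`. (3) `exists_emb_over`. -/
theorem exists_points (hL : IsCurve k L) {U : Set (Place k L)} (c : Fin n → U)
    (hc : Function.Injective c) {φ : L} (hφ : ∀ a : k, φ ≠ algebraMap k L a)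
    (hreg : ∀ v : Place k L, (∀ j, (c j).1 ≠ v) → φ ∈ v.ring)
    (hpole : ∀ j, -1 ≤ ord (c j).1 φ) (T : Finset (Place k L)) (hT : ∀ j, (c j).1 ∉ T)
    {τ : Om k} (hτ : Transcendental k τ) :
    ∃ (S : Fin n → (L →ₐ[k] Om k) ⊕ U) (j₀ : Fin n),
      (∀ (w : ℕ) (D : Place k L →₀ ℤ) (f : L), f ≠ 0 → (∀ j, ord (c j).1 f = 0) →
        (∀ q, 0 ≤ ord q f + w * D q) → (∀ q, D q ≠ 0 → q ∈ T) → ∀ T' : Finset (Place k L),
        (∀ q, ord q f + w * D q ≠ 0 → q ∈ T') → (∀ j, (c j).1 ∉ T') →
        (∏ q ∈ T, (1 + τ * algebraMap k (Om k) (val q φ)) ^ (D q)) ^ w * ∏ j, evO (S j) f =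
          algebraMap k (Om k) (∏ j, val (c j).1 f) *
            ∏ q ∈ T', (1 + τ * algebraMap k (Om k) (val q φ)) ^ (ord q f + w * D q).toNat) ∧
      (∀ v : Place k (Om k), v.At τ 0 → ∃ π : Equiv.Perm (Fin n), ∀ j,
        Over v (S j) (c (π j)).1) ∧
      ∀ (v : Place k (Om k)) (a : k) (δ : Place k L), v.At (-τ⁻¹) a → δ.At φ a →
        ∃ j, Over v (S j) δ := by
  have hφt : Transcendental k φ := transc_of_ne hL hφ
  have hφ0 : φ ≠ 0 := fun h => hφ 0 (by rw [h, map_zero])
  have hψ : Transcendental k (-τ⁻¹) := neg_inv_transc hτ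
  have hcinj : Function.Injective fun j => (c j).1 := fun i j h => hc (Subtype.ext h)
  -- simple poles
  have hs : ∀ v : Place k L, φ ∉ v.ring → ord v φ = -1 := by
    intro v hv
    have h1 : ¬ 0 ≤ ord v φ := fun h => hv ((mem_iff_ord hL hφ0).2 h)
    by_contra h2
    have h3 : ∃ j, (c j).1 = v := by
      by_contra h4
      push Not at h4
      exact hv (hreg v h4)
    obtain ⟨j, rfl⟩ := h3
    have := hpole j
    omega
  -- the poles
  set P : Finset (Place k L) := (Finset.univ.filter fun j => φ ∉ (c j).1.ring).image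
    fun j => (c j).1 with hPdef
  have hP : ∀ v, v ∈ P ↔ φ ∉ v.ring := by
    intro v
    rw [hPdef, Finset.mem_image]
    constructor
    · rintro ⟨j, hj, rfl⟩
      exact (Finset.mem_filter.1 hj).2
    · intro hv
      have h3 : ∃ j, (c j).1 = v := by
        by_contra h4
        push Not at h4
        exact hv (hreg v h4)
      obtain ⟨j, rfl⟩ := h3
      exact ⟨j, Finset.mem_filter.2 ⟨Finset.mem_univ _, hv⟩, rfl⟩
  -- the numbers of elements
  set E : Finset (L →ₐ[k] Om k) := (card_emb hL hφt hψ).1.toFinset with hEdef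
  have hE : ∀ σ, σ ∈ E ↔ σ φ = -τ⁻¹ := by
    intro σ
    rw [hEdef, Set.Finite.mem_toFinset]
    rfl
  have hcardE : E.card = P.card := by
    have h1 := (card_emb hL hφt hψ).2
    rw [Set.ncard_eq_toFinset_card _ (card_emb hL hφt hψ).1] at h1
    have h2 := deg_poles' hL hφt P hP
    have h3 : ∑ v ∈ P, -ord v φ = (P.card : ℤ) := by
      rw [Finset.sum_congr rfl (g := fun _ => (1 : ℤ))]
      · simp
      · intro v hv
        rw [hs v ((hP v).1 hv), neg_neg]
    rw [h3] at h2
    have h4 : (E.card : ℤ) = P.card := by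
      rw [h2]
      exact_mod_cast h1
    exact_mod_cast h4
  have hcardJ : (Finset.univ.filter fun j => φ ∉ (c j).1.ring).card = P.card := by
    rw [hPdef, Finset.card_image_of_injective _ hcinj]
  set J : Finset (Fin n) := Finset.univ.filter fun j => φ ∉ (c j).1.ring with hJdef
  have hJ : ∀ j, j ∈ J ↔ φ ∉ (c j).1.ring := by
    intro j
    simp [hJdef]
  have e : J ≃ E := Finset.equivOfCardEq (hcardJ.trans hcardE.symm)
  -- there is a pole
  have hne : ∃ j, j ∈ J := by
    by_contra h
    push Not at h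
    obtain ⟨a, ha⟩ := const_of_regular hL (f := φ) (by
      intro v
      by_cases hv : ∃ j, (c j).1 = v
      · obtain ⟨j, rfl⟩ := hv
        by_contra h2
        exact h j ((hJ j).2 h2)
      · push Not at hv
        exact hreg v hv)
    exact hφ a ha
  obtain ⟨j₀, hj₀⟩ := hne
  let S : Fin n → (L →ₐ[k] Om k) ⊕ U := fun j =>
    if h : j ∈ J then Sum.inl (e ⟨j, h⟩).1 else Sum.inr (c j)
  have hS1 : ∀ (j : Fin n) (h : j ∈ J), S j = Sum.inl (e ⟨j, h⟩).1 := fun j h => dif_pos h
  have hS2 : ∀ (j : Fin n), j ∉ J → S j = Sum.inr (c j) := fun j h => dif_neg h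
  refine ⟨S, j₀, ?_, ?_, ?_⟩
  · intro w D f hf hu hD hDT T' hT' hcT'
    -- the left side
    have hprod : ∏ j, evO (S j) f =
        (∏ σ ∈ E, σ f) * algebraMap k (Om k) (∏ j ∈ Jᶜ, val (c j).1 f) := by
      rw [← Finset.prod_mul_prod_compl J]
      congr 1
      · rw [← Finset.prod_coe_sort E, ← Finset.prod_coe_sort J]
        refine Fintype.prod_equiv e _ _ ?_
        rintro ⟨j, hj⟩
        rw [hS1 j hj]
        rfl
      · rw [map_prod]
        refine Finset.prod_congr rfl fun j hj => ?_
        rw [hS2 j (Finset.mem_compl.1 hj)]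
        rfl
    set T₂ : Finset (Place k L) := T ∪ T' ∪ (finite_ord hL f).toFinset with hT₂
    have hmem : ∀ q, ord q f ≠ 0 → q ∈ T₂ := by
      intro q hq
      rw [hT₂]
      exact Finset.mem_union_right _ ((Set.Finite.mem_toFinset _).2 hq)
    have hcT₂ : ∀ q ∈ T₂, ∀ j, (c j).1 ≠ q := by
      intro q hq j hj
      rw [hT₂, Finset.mem_union, Finset.mem_union, Set.Finite.mem_toFinset] at hq
      rcases hq with (hq | hq) | hq
      · exact hT j (hj ▸ hq)
      · exact hcT' j (hj ▸ hq)
      · exact hq (hj ▸ hu j)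
    have hnorm := norm_formula hL hφt hs hτ hf P T₂ hP (by
      intro v hv
      rw [hPdef, Finset.mem_image] at hv
      obtain ⟨j, -, rfl⟩ := hv
      exact hu j) hmem (fun q hq => hreg q (hcT₂ q hq))
    have hPv : ∏ v ∈ P, val v f = ∏ j ∈ J, val (c j).1 f := by
      rw [hPdef, Finset.prod_image fun i _ j _ h => hcinj h]
    rw [hprod]
    change ∏ σ ∈ E, σ f = _ at hnorm
    rw [hnorm, hPv, ← Finset.prod_mul_prod_compl J (fun j => val (c j).1 f), map_mul]
    -- the product over `T`
    have hTD : (∏ q ∈ T, (1 + τ * algebraMap k (Om k) (val q φ)) ^ (D q)) ^ w =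
        ∏ q ∈ T₂, (1 + τ * algebraMap k (Om k) (val q φ)) ^ ((w : ℤ) * D q) := by
      rw [← Finset.prod_pow]
      have h1 : ∀ q ∈ T, ((1 + τ * algebraMap k (Om k) (val q φ)) ^ (D q)) ^ w =
          (1 + τ * algebraMap k (Om k) (val q φ)) ^ ((w : ℤ) * D q) := by
        intro q _
        rw [← zpow_natCast, ← zpow_mul, mul_comm (D q)]
      rw [Finset.prod_congr rfl h1]
      refine Finset.prod_subset ?_ ?_
      · rw [hT₂, Finset.union_assoc]
        exact Finset.subset_union_left
      · intro q _ hq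
        have h2 : D q = 0 := by
          by_contra h3
          exact hq (hDT q h3)
        rw [h2, mul_zero, zpow_zero]
    have hT'D : ∏ q ∈ T', (1 + τ * algebraMap k (Om k) (val q φ)) ^ (ord q f + w * D q).toNat =
        ∏ q ∈ T₂, (1 + τ * algebraMap k (Om k) (val q φ)) ^ (ord q f + w * D q) := by
      have h1 : ∀ q ∈ T', (1 + τ * algebraMap k (Om k) (val q φ)) ^ (ord q f + w * D q).toNat =
          (1 + τ * algebraMap k (Om k) (val q φ)) ^ (ord q f + w * D q) := by
        intro q _
        conv_rhs => rw [← Int.toNat_of_nonneg (hD q)]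
        rw [zpow_natCast]
      rw [Finset.prod_congr rfl h1]
      refine Finset.prod_subset ?_ ?_
      · rw [hT₂]
        exact fun q hq => Finset.mem_union_left _ (Finset.mem_union_right _ hq)
      · intro q _ hq
        have h2 : ord q f + w * D q = 0 := by
          by_contra h3
          exact hq (hT' q h3)
        rw [h2, zpow_zero]
    have hsplit : ∏ q ∈ T₂, (1 + τ * algebraMap k (Om k) (val q φ)) ^ (ord q f + w * D q) =
        (∏ q ∈ T₂, (1 + τ * algebraMap k (Om k) (val q φ)) ^ ord q f) *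
          ∏ q ∈ T₂, (1 + τ * algebraMap k (Om k) (val q φ)) ^ ((w : ℤ) * D q) := by
      rw [← Finset.prod_mul_distrib]
      refine Finset.prod_congr rfl fun q _ => ?_
      rw [zpow_add₀ (one_add_ne hτ _)]
    rw [hTD, hT'D, hsplit]
    ring
  · intro v hv
    obtain ⟨π₀, hπ₀⟩ := emb_bij hL hφt hs hτ hv
    -- the poles are the `c j`, `j ∈ J`
    let e₁ : J ≃ {σ : L →ₐ[k] Om k // σ φ = -τ⁻¹} :=
      e.trans (Equiv.subtypeEquivRight fun σ => hE σ)
    let m : J → {c : Place k L // φ ∉ c.ring} := fun j => ⟨(c j.1).1, (hJ j.1).1 j.2⟩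
    have hm : Function.Bijective m := by
      constructor
      · intro i j h
        have h' : (c i.1).1 = (c j.1).1 :=
          congrArg (fun z : {c : Place k L // φ ∉ c.ring} => z.1) h
        exact Subtype.ext (hcinj h')
      · rintro ⟨v', hv'⟩
        have h3 := (hP v').2 hv'
        rw [hPdef, Finset.mem_image] at h3
        obtain ⟨j, hj, hj2⟩ := h3
        exact ⟨⟨j, hj⟩, Subtype.ext hj2⟩
    let e₂ : J ≃ {c : Place k L // φ ∉ c.ring} := Equiv.ofBijective m hm
    let ρ : Equiv.Perm J := e₁.trans (π₀.trans e₂.symm)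
    have hρ : ∀ j : J, (c (ρ j).1).1 = (π₀ (e₁ j)).1 := by
      intro j
      have h1 : e₂ (ρ j) = π₀ (e₁ j) := by
        show e₂ (e₂.symm _) = _
        rw [Equiv.apply_symm_apply]
      exact congrArg Subtype.val h1
    refine ⟨Equiv.Perm.ofSubtype (p := fun j => j ∈ J) ρ, fun j => ?_⟩
    by_cases hj : j ∈ J
    · rw [hS1 j hj]
      show v.ring.comap ((e ⟨j, hj⟩).1 : L →+* Om k) = _
      have h1 := hπ₀ (e₁ ⟨j, hj⟩)
      have h2 := hρ ⟨j, hj⟩
      have h3 : Equiv.Perm.ofSubtype (p := fun j => j ∈ J) ρ j = (ρ ⟨j, hj⟩).1 :=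
        Equiv.Perm.ofSubtype_apply_of_mem ρ hj
      rw [h3, h2]
      exact h1
    · rw [hS2 j hj]
      show (c j).1 = _
      rw [Equiv.Perm.ofSubtype_apply_of_not_mem ρ hj]
  · intro v a δ ha hδ
    obtain ⟨σ, hσ1, hσ2⟩ := exists_emb_over hL hφt hψ ha hδ
    refine ⟨(e.symm ⟨σ, (hE σ).2 hσ1⟩).1, ?_⟩
    rw [hS1 _ (e.symm ⟨σ, (hE σ).2 hσ1⟩).2]
    show v.ring.comap ((e _).1 : L →+* Om k) = _
    rw [Subtype.coe_eta, Equiv.apply_symm_apply]
    exact hσ2

end Pool.Agent.TInc
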