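import Pool.Agent.TInc.OrdDef

/-!
# The order of a function at a place: theorems
-/

set_option autoImplicit false

noncomputable section

namespace Pool.Agent.TInc

open Pool.Agent.ZCyc Pool.Agent.Dess Pool.Agent.Dess4 Module
open scoped Classical

section Copied

open Polynomial
open scoped IntermediateField.algebraAdjoinAdjoin

variable {k F : Type} [Field k] [IsAlgClosed k] [CharZero k] [Field F] [Algebra k F]

omit [CharZero k] in
/-- elements which are algebraic over the constants are constant -/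
private lemma ordz_transc {f : F} (hf : ∀ c : k, f ≠ algebraMap k F c) : Transcendental k f := by
  intro h
  have h1 : IsIntegral k f := h.isIntegral
  have h2 : (minpoly k f).degree = 1 :=
    IsAlgClosed.degree_eq_one_of_irreducible k (minpoly.irreducible h1)
  rw [minpoly.degree_eq_one_iff] at h2
  obtain ⟨c, hc⟩ := h2
  exact hf c hc.symm

/-- one condition cuts the dimension down by at most one -/
private lemma ordz_step (hF : IsCurve k F) {v : Place k F} {π : F} (hπ : IsUnif v π) (M : ℕ)
    (V : Submodule k F) [FiniteDimensional k V] (hV : ∀ f ∈ V, f * π ^ (M + 1) ∈ v.ring) :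
    ∃ V' ≤ V, finrank k V ≤ finrank k V' + 1 ∧ ∀ f ∈ V', f * π ^ M ∈ v.ring := by
  have hex : ∀ f : V, ∃ c, v.At ((f : F) * π ^ (M + 1)) c := fun f => exists_at hF v (hV f f.2)
  choose l hl using hex
  let L : V →ₗ[k] k :=
    { toFun := l
      map_add' := by
        intro f g
        apply (hl (f + g)).unique
        have := (hl f).add (hl g)
        rwa [← add_mul] at this
      map_smul' := by
        intro c f
        apply (hl (c • f)).unique
        have := (Place.at_const (v := v) c).mul (hl f)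
        rw [← mul_assoc, ← Algebra.smul_def] at this
        simpa using this }
  refine ⟨(LinearMap.ker L).map V.subtype, Submodule.map_subtype_le V _, ?_, ?_⟩
  · rw [Submodule.finrank_map_subtype_eq, ← LinearMap.finrank_range_add_finrank_ker L, add_comm]
    have h1 := Submodule.finrank_le (LinearMap.range L)
    rw [Module.finrank_self] at h1
    omega
  · rintro f ⟨g, hg, rfl⟩
    have h1 : l g = 0 := hg
    have h2 := hl g
    rw [h1, Place.at_zero_iff] at h2
    have h3 := hπ.2.2 _ h2
    have h4 : (g : F) * π ^ (M + 1) / π = (g : F) * π ^ M := by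
      rw [pow_succ, ← mul_assoc, mul_div_assoc, div_self hπ.1, mul_one]
    rw [h4] at h3
    exact h3

/-- a bounded pole at one place is removed by finitely many conditions -/
private lemma ordz_steps (hF : IsCurve k F) {v : Place k F} {π : F} (hπ : IsUnif v π) (M : ℕ) :
    ∀ (V : Submodule k F) [FiniteDimensional k V], (∀ f ∈ V, f * π ^ M ∈ v.ring) →
      ∃ V' ≤ V, finrank k V ≤ finrank k V' + M ∧ ∀ f ∈ V', f ∈ v.ring := by
  induction M with
  | zero =>
    intro V _ hV
    refine ⟨V, le_rfl, by omega, fun f hf => ?_⟩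
    simpa using hV f hf
  | succ M ih =>
    intro V _ hV
    obtain ⟨V₁, h1, h2, h3⟩ := ordz_step hF hπ M V hV
    have : FiniteDimensional k V₁ := Submodule.finiteDimensional_of_le h1
    obtain ⟨V', h4, h5, h6⟩ := ih V₁ h3
    exact ⟨V', h4.trans h1, by omega, h6⟩

/-- bounded poles at finitely many places are removed by finitely many conditions -/
private lemma ordz_places (hF : IsCurve k F) {π : Place k F → F} (hπ : ∀ v, IsUnif v (π v))
    (M : Place k F → ℕ) (T : Finset (Place k F)) :
    ∀ (V : Submodule k F) [FiniteDimensional k V],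
      (∀ v ∈ T, ∀ f ∈ V, f * π v ^ M v ∈ v.ring) →
      ∃ V' ≤ V, finrank k V ≤ finrank k V' + ∑ v ∈ T, M v ∧ ∀ f ∈ V', ∀ v ∈ T, f ∈ v.ring := by
  induction T using Finset.induction_on with
  | empty =>
    intro V _ hV
    exact ⟨V, le_rfl, by simp, by simp⟩
  | insert a T ha ih =>
    intro V _ hV
    obtain ⟨V₁, h1, h2, h3⟩ := ih V fun v hv => hV v (Finset.mem_insert_of_mem hv)
    have : FiniteDimensional k V₁ := Submodule.finiteDimensional_of_le h1
    obtain ⟨V', h4, h5, h6⟩ := ordz_steps hF (hπ a) (M a) V₁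
      fun f hf => hV a (Finset.mem_insert_self a T) f (h1 hf)
    refine ⟨V', h4.trans h1, ?_, ?_⟩
    · rw [Finset.sum_insert ha]
      omega
    · intro f hf v hv
      rcases Finset.mem_insert.1 hv with rfl | hv
      · exact h6 f hf
      · exact h3 f (h4 hf) v hv
/-- the functions `f` for which `f * a` is regular at `v` -/
private def ordzSub (v : Place k F) (a : F) : Submodule k F where
  carrier := {f | f * a ∈ v.ring}
  add_mem' := by
    intro f g hf hg
    rw [Set.mem_ofPred_eq, add_mul]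
    exact add_mem hf hg
  zero_mem' := by
    rw [Set.mem_ofPred_eq, zero_mul]
    exact zero_mem _
  smul_mem' := by
    intro c f hf
    rw [Set.mem_ofPred_eq, Algebra.smul_def, mul_assoc]
    exact mul_mem (v.const_mem c) hf

/-- powers of a function with a zero kill the poles -/
private lemma ordz_clear (hF : IsCurve k F) {v : Place k F} {w π : F} (hπ : IsUnif v π)
    {e : ℕ} (he : 1 ≤ e) (hw : w / π ^ e ∈ v.ring) (f : F) : ∃ c : ℕ, w ^ c * f ∈ v.ring := by
  by_cases hf : f = 0
  · exact ⟨0, by rw [hf, mul_zero]; exact zero_mem _⟩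
  obtain ⟨n, hn, -⟩ := exists_ord hF v hπ hf
  refine ⟨n.natAbs, ?_⟩
  have h1 : w ^ n.natAbs * f = (w / π ^ e) ^ n.natAbs * (f / π ^ n) *
      π ^ ((e * n.natAbs : ℕ) + n : ℤ) := by
    have hπ0 := hπ.1
    rw [zpow_add₀ hπ0, zpow_natCast, div_pow, ← pow_mul]
    field_simp
  rw [h1]
  have h2 : (0 : ℤ) ≤ (e * n.natAbs : ℕ) + n := by
    have : (n.natAbs : ℤ) ≤ (e * n.natAbs : ℕ) := by
      exact_mod_cast Nat.le_mul_of_pos_left _ he
    omega
  obtain ⟨l, hl⟩ := Int.eq_ofNat_of_zero_le h2
  rw [hl, zpow_natCast]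
  exact mul_mem (mul_mem (pow_mem hw _) hn) (pow_mem hπ.2.1.mem _)
private lemma ordz_identity {A B C : F} (hA : A ≠ 0) (hB : B ≠ 0) (hC : C ≠ 0) (b P : F) :
    A⁻¹ * b * P = B * (C * b) * (P / (B * A * C)) := by
  field_simp
private lemma ordz_arith {N n₀ c E d : ℕ} (hN : N = n₀ * c + 2)
    (h3 : E < n₀) (h4 : (N + 1) * n₀ ≤ d + E * (N + c)) : 2 ≤ d := by
  obtain ⟨q, rfl⟩ := Nat.exists_eq_add_of_le' (show 1 ≤ n₀ by omega)
  have h5 : E * (N + c) ≤ q * (N + c) := Nat.mul_le_mul_right _ (by omega)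
  nlinarith

/-- a function which is regular everywhere is constant -/
private lemma ordz_const (hF : IsCurve k F) {f : F} (hf : ∀ v : Place k F, f ∈ v.ring) :
    ∃ a : k, f = algebraMap k F a := by
  by_contra hcon
  push Not at hcon
  have hft : Transcendental k f := ordz_transc hcon
  have hf0 : f ≠ 0 := by
    intro h
    exact hcon 0 (by rw [h, map_zero])
  have hwt : Transcendental k f⁻¹ := by
    intro h
    apply hft
    simpa using h.inv
  obtain ⟨P, hP, hP0⟩ := int_of_regular hF hwt (f := f) fun v _ => hf v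
  have hp : ∀ i, ∃ p : k[X], aeval f⁻¹ p = (P.coeff i : F) := by
    intro i
    have h : ((P.coeff i : Algebra.adjoin k {f⁻¹}) : F) ∈ (aeval f⁻¹ : k[X] →ₐ[k] F).range := by
      rw [← Algebra.adjoin_singleton_eq_range_aeval]
      exact (P.coeff i).2
    exact h
  choose p hp using hp
  rw [eval₂_eq_sum_range, Finset.sum_range_succ, hP.coeff_natDegree, map_one, one_mul] at hP0
  set n := P.natDegree with hn
  have h1 : aeval f⁻¹ (∑ i ∈ Finset.range n, p i * X ^ (n - i) + 1) = 0 := by
    rw [map_add, map_sum, map_one]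
    have h2 : (f⁻¹) ^ n * (∑ i ∈ Finset.range n,
        (algebraMap (Algebra.adjoin k {f⁻¹}) F) (P.coeff i) * f ^ i + f ^ n) = 0 := by
      rw [hP0, mul_zero]
    rw [mul_add, Finset.mul_sum, ← mul_pow, inv_mul_cancel₀ hf0, one_pow] at h2
    rw [← h2]
    congr 1
    apply Finset.sum_congr rfl
    intro i hi
    have hi' := Finset.mem_range.1 hi
    rw [_root_.map_mul, hp, map_pow, aeval_X]
    have h3 : (f⁻¹) ^ n = (f⁻¹) ^ (n - i) * (f⁻¹) ^ i := by
      rw [← pow_add]
      congr 1
      omega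
    have h4 : (f⁻¹) ^ i * f ^ i = 1 := by
      rw [← mul_pow, inv_mul_cancel₀ hf0, one_pow]
    rw [h3]
    change (P.coeff i : F) * (f⁻¹) ^ (n - i) =
      (f⁻¹) ^ (n - i) * (f⁻¹) ^ i * ((P.coeff i : F) * f ^ i)
    linear_combination (-((P.coeff i : F) * (f⁻¹) ^ (n - i))) * h4
  have h5 := (transcendental_iff.1 hwt) _ h1
  have h6 := congrArg (fun q => q.coeff 0) h5
  simp only [coeff_add, finsetSum_coeff, coeff_one_zero, coeff_zero] at h6
  rw [Finset.sum_eq_zero, zero_add] at h6
  · exact one_ne_zero h6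
  · intro i hi
    have hi' := Finset.mem_range.1 hi
    rw [coeff_mul_X_pow', if_neg (by omega)]

/-- the sum of the multiplicities of the zeros of `w` is the degree of the extension -/
private lemma ordz_finrank (hF : IsCurve k F) {w x : F} (hxw : x = w⁻¹) (hw0 : w ≠ 0)
    (hwt : Transcendental k w) (hxt : Transcendental k x) (S : Finset (Place k F))
    (hmemS : ∀ v, v ∈ S ↔ x ∉ v.ring) {π : Place k F → F} (hπ : ∀ v, IsUnif v (π v))
    (e : Place k F → ℕ) (hepos : ∀ v ∈ S, 1 ≤ e v) (he1 : ∀ v ∈ S, w / π v ^ e v ∈ v.ring)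
    (he2 : ∀ v ∈ S, (w / π v ^ e v)⁻¹ ∈ v.ring) :
    ∑ v ∈ S, e v = finrank (IntermediateField.adjoin k {x}) F := by
  have := fin_adjoin hF hxt
  obtain ⟨s, bb, hbb⟩ := FiniteDimensional.exists_is_basis_integral (Algebra.adjoin k {x})
    (IntermediateField.adjoin k {x}) F
  set n₀ := finrank (IntermediateField.adjoin k {x}) F with hn₀
  have hn₀' : n₀ = Fintype.card s := Module.finrank_eq_card_basis bb
  have hSw : ∀ v ∈ S, v.Vanishes w := by
    intro v hv
    rw [Place.vanishes_iff_or, ← hxw]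
    exact Or.inr ((hmemS v).1 hv)
  have hfund := pole_fund hF hxw hw0 hwt hxt S hSw hπ e he1
  -- bound for the poles of the basis
  have hc : ∃ c : ℕ, ∀ v ∈ S, ∀ i : s, w ^ c * bb i ∈ v.ring := by
    have h1 : ∀ (v : S) (i : s), ∃ c : ℕ, w ^ c * bb i ∈ (v : Place k F).ring :=
      fun v i => ordz_clear hF (hπ v) (hepos v v.2) (he1 v v.2) _
    choose c hc using h1
    refine ⟨Finset.univ.sup fun p : S × s => c p.1 p.2, fun v hv i => ?_⟩
    have h2 : c ⟨v, hv⟩ i ≤ Finset.univ.sup fun p : S × s => c p.1 p.2 :=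
      Finset.le_sup (f := fun p : S × s => c p.1 p.2) (Finset.mem_univ (⟨v, hv⟩, i))
    obtain ⟨l, hl⟩ := Nat.exists_eq_add_of_le h2
    rw [hl, pow_add, mul_comm (w ^ _) (w ^ l), mul_assoc]
    exact mul_mem (pow_mem (hSw v hv).mem _) (hc ⟨v, hv⟩ i)
  obtain ⟨c, hc⟩ := hc
  -- the space of functions
  set N := n₀ * c + 2 with hN
  set V : Submodule k F := Submodule.span k
    (Set.range fun p : Fin (N + 1) × s => x ^ (p.1 : ℕ) * bb p.2) with hV
  have hfin : finrank k V = (N + 1) * n₀ := by
    have hli : LinearIndependent k fun p : Fin (N + 1) × s => x ^ (p.1 : ℕ) * bb p.2 := by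
      have h1 : LinearIndependent k fun l : Fin (N + 1) =>
          (IntermediateField.AdjoinSimple.gen k x) ^ (l : ℕ) := by
        rw [Fintype.linearIndependent_iff]
        intro g hg
        have h2 : aeval x (∑ l : Fin (N + 1), C (g l) * X ^ (l : ℕ)) = 0 := by
          have h3 := congrArg (algebraMap (IntermediateField.adjoin k {x}) F) hg
          rw [map_sum, map_zero] at h3
          rw [map_sum, ← h3]
          apply Finset.sum_congr rfl
          intro l _
          rw [_root_.map_mul, aeval_C, map_pow, aeval_X, Algebra.smul_def, _root_.map_mul,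
            map_pow]
          rfl
        have h4 := (transcendental_iff.1 hxt) _ h2
        intro l
        have h5 := congrArg (fun q => q.coeff (l : ℕ)) h4
        simp only [finsetSum_coeff, coeff_C_mul, coeff_X_pow, coeff_zero] at h5
        rw [Finset.sum_eq_single l] at h5
        · simpa using h5
        · intro l' _ hl'
          rw [if_neg (fun h => hl' (Fin.ext h).symm), mul_zero]
        · intro h
          exact absurd (Finset.mem_univ l) h
      exact linearIndependent_smul h1 bb.linearIndependent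
    rw [hV, finrank_span_eq_card hli, Fintype.card_prod, Fintype.card_fin, hn₀']
  have : FiniteDimensional k V := by
    rw [hV]
    exact FiniteDimensional.span_of_finite k (Set.finite_range _)
  obtain ⟨V', h1, h2, h3⟩ := ordz_places hF hπ (fun v => e v * (N + c)) S V (by
    intro v hv f hf
    have hle : V ≤ ordzSub v (π v ^ (e v * (N + c))) := by
      rw [hV, Submodule.span_le]
      rintro _ ⟨⟨l, i⟩, rfl⟩
      change x ^ (l : ℕ) * bb i * π v ^ (e v * (N + c)) ∈ v.ring
      have hl : (l : ℕ) ≤ N := by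
        have := l.2
        omega
      have h4 : x ^ (l : ℕ) * bb i * π v ^ (e v * (N + c)) =
          w ^ (N - l) * (w ^ c * bb i) * ((w / π v ^ e v)⁻¹) ^ (N + c) := by
        have hπ0 := (hπ v).1
        have h5 : w ^ N = w ^ (N - (l : ℕ)) * w ^ (l : ℕ) := by
          rw [← pow_add]
          congr 1
          omega
        have h6 : x ^ (l : ℕ) = (w ^ (l : ℕ))⁻¹ := by rw [hxw]; exact inv_pow w _
        rw [inv_div, div_pow, pow_mul, pow_add w N c, h5, h6]
        exact ordz_identity (pow_ne_zero _ hw0) (pow_ne_zero _ hw0) (pow_ne_zero _ hw0) _ _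
      rw [h4]
      exact mul_mem (mul_mem (pow_mem (hSw v hv).mem _) (hc v hv i)) (pow_mem (he2 v hv) _)
    exact hle hf)
  rw [hfin, ← Finset.sum_mul] at h2
  refine le_antisymm hfund ?_
  by_contra hlt
  push Not at hlt
  have hdim : 2 ≤ finrank k V' := ordz_arith hN hlt h2
  have hle : V' ≤ LinearMap.range (Algebra.linearMap k F) := by
    intro f hf
    have hreg : ∀ v : Place k F, f ∈ v.ring := by
      intro v
      by_cases hv : v ∈ S
      · exact h3 f hf v hv
      · have hxv : x ∈ v.ring := by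
          by_contra h
          exact hv ((hmemS v).2 h)
        have hle : V ≤ ordzSub v 1 := by
          rw [hV, Submodule.span_le]
          rintro _ ⟨⟨l, i⟩, rfl⟩
          change x ^ (l : ℕ) * bb i * 1 ∈ v.ring
          rw [mul_one]
          exact mul_mem (pow_mem hxv _) (int_mem v hxv (hbb i))
        have h4 : f * 1 ∈ v.ring := hle (h1 hf)
        rwa [mul_one] at h4
    obtain ⟨a, ha⟩ := ordz_const hF hreg
    exact ⟨a, ha.symm⟩
  have h4 := Submodule.finrank_mono hle
  have h5 := LinearMap.finrank_range_le (Algebra.linearMap k F)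
  rw [Module.finrank_self] at h5
  omega

omit [IsAlgClosed k] [CharZero k] in
/-- powers of two uniformizers differ by units -/
private lemma ordz_unif {v : Place k F} {π ϖ : F} (hπ : IsUnif v π) (hϖ : IsUnif v ϖ) {g : F}
    {n : ℤ} (h1 : g / ϖ ^ n ∈ v.ring) (h2 : (g / ϖ ^ n)⁻¹ ∈ v.ring) :
    g / π ^ n ∈ v.ring ∧ (g / π ^ n)⁻¹ ∈ v.ring := by
  have hπ0 := hπ.1
  have hϖ0 := hϖ.1
  have h3 := hπ.2.2 ϖ hϖ.2.1
  have h4 := hϖ.2.2 π hπ.2.1
  have h5 : ∀ m : ℤ, (ϖ / π) ^ m ∈ v.ring := by
    intro m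
    obtain ⟨l, rfl | rfl⟩ := Int.eq_nat_or_neg m
    · rw [zpow_natCast]
      exact pow_mem h3 _
    · rw [zpow_neg, zpow_natCast, ← inv_pow, inv_div]
      exact pow_mem h4 _
  have h6 : g / π ^ n = g / ϖ ^ n * (ϖ / π) ^ n := by
    rw [div_zpow]
    have := zpow_ne_zero n hπ0
    have := zpow_ne_zero n hϖ0
    field_simp
  rw [h6]
  refine ⟨mul_mem h1 (h5 n), ?_⟩
  rw [mul_inv, ← zpow_neg]
  exact mul_mem h2 (h5 _)

omit [IsAlgClosed k] [CharZero k] in
private lemma ordz_zpow {v : Place k F} {π : F} (hπ : IsUnif v π) {m : ℤ}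
    (h : π ^ m ∈ v.ring) : 0 ≤ m := by
  by_contra hm
  push Not at hm
  obtain ⟨l, hl⟩ := Int.eq_ofNat_of_zero_le (show (0 : ℤ) ≤ -m - 1 by omega)
  have h1 : π⁻¹ = π ^ m * π ^ l := by
    rw [← zpow_natCast, ← zpow_add₀ hπ.1]
    rw [show m + (l : ℤ) = -1 by omega, zpow_neg_one]
  have h2 : π⁻¹ ∈ v.ring := by
    rw [h1]
    exact mul_mem h (pow_mem hπ.2.1.mem _)
  have h3 := (v.vanishes_iff_or π).1 hπ.2.1
  rcases h3 with h3 | h3
  · exact hπ.1 h3
  · exact h3 h2

omit [IsAlgClosed k] [CharZero k] in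
/-- the order with respect to a given uniformizer -/
private lemma ordz_ord {v : Place k F} {π : F} (hπ : IsUnif v π) {g : F} {n : ℤ}
    (h : HasOrd v g n) : g / π ^ n ∈ v.ring ∧ (g / π ^ n)⁻¹ ∈ v.ring := by
  obtain ⟨ϖ, hϖ, h1, h2⟩ := h
  exact ordz_unif hπ hϖ h1 h2

omit [IsAlgClosed k] [CharZero k] in
/-- the order of the inverse -/
private lemma ordz_ord_inv {v : Place k F} {g : F} {n : ℤ}
    (h : HasOrd v g n) : HasOrd v g⁻¹ (-n) := by
  obtain ⟨ϖ, hϖ, h1, h2⟩ := h
  have e : g⁻¹ / ϖ ^ (-n) = (g / ϖ ^ n)⁻¹ := by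
    rw [zpow_neg, div_inv_eq_mul, inv_div, mul_comm, div_eq_mul_inv]
  refine ⟨ϖ, hϖ, ?_, ?_⟩
  · rw [e]
    exact h2
  · rw [e, inv_inv]
    exact h1

omit [IsAlgClosed k] [CharZero k] in
private lemma ordz_sign {v : Place k F} {g : F} (hg : g ≠ 0) {m : ℤ} (h : HasOrd v g m) :
    g⁻¹ ∈ v.ring ↔ m ≤ 0 := by
  obtain ⟨π, hπ, h1, h2⟩ := h
  have hπ0 := hπ.1
  constructor
  · intro h3
    have h4 : π ^ (-m) ∈ v.ring := by
      have : π ^ (-m) = g / π ^ m * g⁻¹ := by
        rw [zpow_neg]
        have := zpow_ne_zero m hπ0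
        field_simp
      rw [this]
      exact mul_mem h1 h3
    have := ordz_zpow hπ h4
    omega
  · intro h3
    have h4 : g⁻¹ = (g / π ^ m)⁻¹ * π ^ (-m) := by
      rw [zpow_neg]
      have := zpow_ne_zero m hπ0
      field_simp
    rw [h4]
    obtain ⟨l, hl⟩ := Int.eq_ofNat_of_zero_le (show (0 : ℤ) ≤ -m by omega)
    rw [hl, zpow_natCast]
    exact mul_mem h2 (pow_mem hπ.2.1.mem _)

omit [IsAlgClosed k] [CharZero k] in
private lemma ordz_adjoin (g : F) :
    IntermediateField.adjoin k {g⁻¹} = IntermediateField.adjoin k {g} := by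
  apply le_antisymm
  · rw [IntermediateField.adjoin_simple_le_iff]
    exact inv_mem (IntermediateField.mem_adjoin_simple_self k g)
  · rw [IntermediateField.adjoin_simple_le_iff]
    have := inv_mem (IntermediateField.mem_adjoin_simple_self k g⁻¹)
    rwa [inv_inv] at this

/-- the degree of the divisor of zeros -/
private lemma ordz_zeros (hF : IsCurve k F) {g : F} (hg : g ≠ 0) (hgt : Transcendental k g)
    (S : Finset (Place k F)) (n : Place k F → ℤ) (h1 : ∀ v ∈ S, HasOrd v g (n v))
    (h2 : ∀ v ∉ S, HasOrd v g 0) :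
    ∑ v ∈ S, (n v).toNat = finrank (IntermediateField.adjoin k {g}) F := by
  choose π hπ using fun v => exists_unif hF v
  have hxt : Transcendental k g⁻¹ := by
    intro h
    apply hgt
    simpa using h.inv
  set Z := S.filter fun v => 0 < n v with hZ
  have hsum : ∑ v ∈ S, (n v).toNat = ∑ v ∈ Z, (n v).toNat := by
    symm
    apply Finset.sum_subset (Finset.filter_subset _ _)
    intro v hv hv'
    rw [Finset.mem_filter, not_and] at hv'
    have := hv' hv
    omega
  have hmem : ∀ v, v ∈ Z ↔ g⁻¹ ∉ v.ring := by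
    intro v
    rw [hZ, Finset.mem_filter]
    constructor
    · rintro ⟨hv, hn⟩
      rw [ordz_sign hg (h1 v hv)]
      omega
    · intro h
      by_cases hv : v ∈ S
      · refine ⟨hv, ?_⟩
        rw [ordz_sign hg (h1 v hv)] at h
        omega
      · exfalso
        apply h
        rw [ordz_sign hg (h2 v hv)]
  have hpow : ∀ v ∈ Z, π v ^ n v = π v ^ (n v).toNat := by
    intro v hv
    have := (Finset.mem_filter.1 hv).2
    rw [← zpow_natCast]
    congr 1
    omega
  rw [hsum, ← ordz_adjoin g]
  refine ordz_finrank hF rfl hg hgt hxt Z hmem hπ (fun v => (n v).toNat) ?_ ?_ ?_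
  · intro v hv
    have := (Finset.mem_filter.1 hv).2
    omega
  · intro v hv
    have := (ordz_ord (hπ v) (h1 v (Finset.mem_filter.1 hv).1)).1
    rwa [hpow v hv] at this
  · intro v hv
    have := (ordz_ord (hπ v) (h1 v (Finset.mem_filter.1 hv).1)).2
    rwa [hpow v hv] at this

end Copied

variable {k L : Type} [Field k] [IsAlgClosed k] [CharZero k] [Field L] [Algebra k L]

omit [IsAlgClosed k] [CharZero k] in
theorem val_eq {v : Place k L} {f : L} {c : k} (h : v.At f c) : val v f = c := by
  have h1 : ∃ c, v.At f c := ⟨c, h⟩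
  unfold val
  rw [dif_pos h1]
  exact h1.choose_spec.unique h

theorem at_val (hL : IsCurve k L) {v : Place k L} {f : L} (hf : f ∈ v.ring) :
    v.At f (val v f) := by
  obtain ⟨c, hc⟩ := exists_at hL v hf
  rw [val_eq hc]
  exact hc

theorem ord_hasOrd (hL : IsCurve k L) (v : Place k L) {f : L} (hf : f ≠ 0) :
    HasOrd v f (ord v f) := by
  obtain ⟨π, hπ⟩ := exists_unif hL v
  obtain ⟨n, h1, h2⟩ := exists_ord hL v hπ hf
  have h : f ≠ 0 ∧ ∃ n, HasOrd v f n := ⟨hf, n, π, hπ, h1, h2⟩
  unfold ord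
  rw [dif_pos h]
  exact h.2.choose_spec

theorem ord_eq (hL : IsCurve k L) {v : Place k L} {f : L} (hf : f ≠ 0) {n : ℤ}
    (h : HasOrd v f n) : ord v f = n :=
  hasOrd_unique hL hf (ord_hasOrd hL v hf) h

omit [IsAlgClosed k] [CharZero k] in
theorem ord_zero (v : Place k L) : ord v (0 : L) = 0 := by
  unfold ord
  rw [dif_neg]
  exact fun h => h.1 rfl

theorem ord_unif (hL : IsCurve k L) {v : Place k L} {π : L} (hπ : IsUnif v π) : ord v π = 1 := by
  apply ord_eq hL hπ.1
  refine ⟨π, hπ, ?_, ?_⟩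
  · rw [zpow_one, div_self hπ.1]
    exact one_mem _
  · rw [zpow_one, div_self hπ.1, inv_one]
    exact one_mem _

/-- the normal form for a given uniformizer -/
theorem ord_unit (hL : IsCurve k L) {v : Place k L} {π : L} (hπ : IsUnif v π) {f : L}
    (hf : f ≠ 0) : f / π ^ ord v f ∈ v.ring ∧ (f / π ^ ord v f)⁻¹ ∈ v.ring := by
  exact ordz_ord hπ (ord_hasOrd hL v hf)

theorem ord_mul (hL : IsCurve k L) (v : Place k L) {f g : L} (hf : f ≠ 0) (hg : g ≠ 0) :
    ord v (f * g) = ord v f + ord v g := by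
  obtain ⟨π, hπ⟩ := exists_unif hL v
  obtain ⟨h1, h2⟩ := ord_unit hL hπ hf
  obtain ⟨h3, h4⟩ := ord_unit hL hπ hg
  apply ord_eq hL (mul_ne_zero hf hg)
  have e : f * g / π ^ (ord v f + ord v g) = f / π ^ ord v f * (g / π ^ ord v g) := by
    rw [zpow_add₀ hπ.1, mul_div_mul_comm]
  refine ⟨π, hπ, ?_, ?_⟩
  · rw [e]
    exact mul_mem h1 h3
  · rw [e, mul_inv]
    exact mul_mem h2 h4

theorem ord_inv (hL : IsCurve k L) (v : Place k L) (f : L) : ord v f⁻¹ = -ord v f := by
  by_cases hf : f = 0
  · rw [hf, inv_zero, ord_zero, neg_zero]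
  · exact ord_eq hL (inv_ne_zero hf) (ordz_ord_inv (ord_hasOrd hL v hf))

private lemma ord_one_aux (hL : IsCurve k L) (v : Place k L) : ord v (1 : L) = 0 := by
  obtain ⟨π, hπ⟩ := exists_unif hL v
  apply ord_eq hL one_ne_zero
  refine ⟨π, hπ, ?_, ?_⟩
  · rw [zpow_zero, div_one]
    exact one_mem _
  · rw [zpow_zero, div_one, inv_one]
    exact one_mem _

theorem ord_pow (hL : IsCurve k L) (v : Place k L) (f : L) (n : ℕ) :
    ord v (f ^ n) = n * ord v f := by
  by_cases hf : f = 0
  · subst hf
    rw [ord_zero, mul_zero]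
    rcases Nat.eq_zero_or_pos n with rfl | hn
    · rw [pow_zero]
      exact ord_one_aux hL v
    · rw [zero_pow hn.ne', ord_zero]
  · induction n with
    | zero =>
      rw [pow_zero, ord_one_aux hL v, Nat.cast_zero, zero_mul]
    | succ n ih =>
      rw [pow_succ, ord_mul hL v (pow_ne_zero n hf) hf, ih]
      push_cast
      ring

theorem ord_zpow (hL : IsCurve k L) (v : Place k L) (f : L) (n : ℤ) :
    ord v (f ^ n) = n * ord v f := by
  obtain ⟨l, rfl | rfl⟩ := Int.eq_nat_or_neg n
  · rw [zpow_natCast, ord_pow hL]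
  · rw [zpow_neg, zpow_natCast, ord_inv hL, ord_pow hL]
    ring

theorem ord_prod (hL : IsCurve k L) (v : Place k L) {ι : Type*} (s : Finset ι) (f : ι → L)
    (hf : ∀ i ∈ s, f i ≠ 0) : ord v (∏ i ∈ s, f i) = ∑ i ∈ s, ord v (f i) := by
  induction s using Finset.induction_on with
  | empty =>
    rw [Finset.prod_empty, Finset.sum_empty]
    exact ord_one_aux hL v
  | insert a s ha ih =>
    rw [Finset.prod_insert ha, Finset.sum_insert ha,
      ord_mul hL v (hf a (Finset.mem_insert_self a s))
        (Finset.prod_ne_zero_iff.2 fun i hi => hf i (Finset.mem_insert_of_mem hi)),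
      ih fun i hi => hf i (Finset.mem_insert_of_mem hi)]

theorem ord_const (hL : IsCurve k L) (v : Place k L) (c : k) :
    ord v (algebraMap k L c) = 0 := by
  by_cases hc : algebraMap k L c = 0
  · rw [hc, ord_zero]
  · obtain ⟨π, hπ⟩ := exists_unif hL v
    apply ord_eq hL hc
    refine ⟨π, hπ, ?_, ?_⟩
    · rw [zpow_zero, div_one]
      exact v.const_mem c
    · rw [zpow_zero, div_one, ← map_inv₀]
      exact v.const_mem _

theorem ord_neg (hL : IsCurve k L) (v : Place k L) (f : L) : ord v (-f) = ord v f := by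
  by_cases hf : f = 0
  · rw [hf, neg_zero]
  · have e : -f = algebraMap k L (-1) * f := by
      rw [_root_.map_neg, _root_.map_one, neg_one_mul]
    have h1 : algebraMap k L (-1) ≠ 0 := by
      rw [_root_.map_neg, _root_.map_one]
      exact neg_ne_zero.2 one_ne_zero
    rw [e, ord_mul hL v h1 hf, ord_const hL, zero_add]

theorem mem_iff_ord (hL : IsCurve k L) {v : Place k L} {f : L} (hf : f ≠ 0) :
    f ∈ v.ring ↔ 0 ≤ ord v f := by
  have h := ordz_sign (inv_ne_zero hf) (ord_hasOrd hL v (inv_ne_zero hf))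
  rw [inv_inv, ord_inv hL] at h
  rw [h]
  omega

theorem vanishes_iff_ord (hL : IsCurve k L) {v : Place k L} {f : L} (hf : f ≠ 0) :
    v.Vanishes f ↔ 0 < ord v f := by
  rw [Place.vanishes_iff_or, ordz_sign hf (ord_hasOrd hL v hf)]
  constructor
  · rintro (h | h)
    · exact absurd h hf
    · omega
  · intro h
    right
    omega

theorem ord_eq_zero_iff (hL : IsCurve k L) {v : Place k L} {f : L} (hf : f ≠ 0) :
    ord v f = 0 ↔ f ∈ v.ring ∧ f⁻¹ ∈ v.ring := by
  rw [mem_iff_ord hL hf, mem_iff_ord hL (inv_ne_zero hf), ord_inv hL]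
  omega

/-- a function with the value `c ≠ 0` has order zero -/
theorem ord_of_at (hL : IsCurve k L) {v : Place k L} {f : L} {c : k} (h : v.At f c)
    (hc : c ≠ 0) : ord v f = 0 := by
  have hf : f ≠ 0 := by
    rintro rfl
    apply hc
    have h0 := Place.at_const (v := v) (0 : k)
    rw [_root_.map_zero] at h0
    exact h.unique h0
  rw [ord_eq_zero_iff hL hf]
  exact ⟨h.mem, (h.inv hc).mem⟩

private lemma ord_div_aux (hL : IsCurve k L) {v : Place k L} {π : L} (hπ : IsUnif v π) {f : L}
    (hf : f ≠ 0) (n : ℤ) : f / π ^ n ∈ v.ring ↔ n ≤ ord v f := by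
  rw [mem_iff_ord hL (div_ne_zero hf (zpow_ne_zero _ hπ.1)), div_eq_mul_inv,
    ord_mul hL v hf (inv_ne_zero (zpow_ne_zero _ hπ.1)), ord_inv hL, ord_zpow hL,
    ord_unif hL hπ]
  omega

theorem le_ord_add (hL : IsCurve k L) {v : Place k L} {f g : L} {n : ℤ}
    (hfg : f + g ≠ 0) (hf : f ≠ 0 → n ≤ ord v f) (hg : g ≠ 0 → n ≤ ord v g) :
    n ≤ ord v (f + g) := by
  obtain ⟨π, hπ⟩ := exists_unif hL v
  have key : ∀ h : L, (h ≠ 0 → n ≤ ord v h) → h / π ^ n ∈ v.ring := by
    intro h hh
    by_cases h0 : h = 0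
    · rw [h0, zero_div]
      exact zero_mem _
    · exact (ord_div_aux hL hπ h0 n).2 (hh h0)
  have h1 := add_mem (key f hf) (key g hg)
  rw [← add_div] at h1
  exact (ord_div_aux hL hπ hfg n).1 h1

theorem ord_add_eq (hL : IsCurve k L) {v : Place k L} {f g : L} (hf : f ≠ 0)
    (hg : g ≠ 0 → ord v f < ord v g) : f + g ≠ 0 ∧ ord v (f + g) = ord v f := by
  by_cases hg0 : g = 0
  · rw [hg0, add_zero]
    exact ⟨hf, rfl⟩
  have hlt := hg hg0
  have hne : f + g ≠ 0 := by
    intro h
    have h1 : f = -g := eq_neg_of_add_eq_zero_left h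
    rw [h1, ord_neg hL] at hlt
    exact lt_irrefl _ hlt
  refine ⟨hne, le_antisymm ?_ ?_⟩
  · by_contra h
    push Not at h
    have h1 := le_ord_add hL (v := v) (f := f + g) (g := -g) (n := ord v f + 1)
      (by rw [add_neg_cancel_right]; exact hf) (fun _ => by omega)
      (fun _ => by rw [ord_neg hL]; omega)
    rw [add_neg_cancel_right] at h1
    omega
  · exact le_ord_add hL hne (fun _ => le_rfl) (fun _ => hlt.le)

/-- A function has finitely many zeros and poles. -/
theorem finite_ord_aux (hL : IsCurve k L) (f : L) :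
    {v : Place k L | ord v f ≠ 0}.Finite := by
  by_cases hc : ∃ c : k, f = algebraMap k L c
  · obtain ⟨c, rfl⟩ := hc
    apply Set.Finite.subset Set.finite_empty
    intro v hv
    exact hv (ord_const hL v c)
  · push Not at hc
    have hft := ordz_transc hc
    have hf0 : f ≠ 0 := by
      intro h
      exact hc 0 (by rw [h, _root_.map_zero])
    apply ((finite_at hL hft 0).union (finite_pole hL hft)).subset
    intro v hv
    by_contra hcon
    apply hv
    rw [Set.mem_union, not_or] at hcon
    obtain ⟨h1, h2⟩ := hcon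
    have h1' : ¬ v.Vanishes f := fun h => h1 (Place.at_zero_iff.2 h)
    have h2' : f ∈ v.ring := by
      by_contra h
      exact h2 h
    rw [vanishes_iff_ord hL hf0] at h1'
    rw [mem_iff_ord hL hf0] at h2'
    omega

/-- the number of zeros with multiplicities is the degree of the field extension -/
theorem deg_zeros' (hL : IsCurve k L) {f : L} (hf : Transcendental k f) (S : Finset (Place k L))
    (hS : ∀ v, v ∈ S ↔ v.Vanishes f) :
    ∑ v ∈ S, ord v f = finrank (IntermediateField.adjoin k {f}) L := by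
  have hf0 : f ≠ 0 := by
    rintro rfl
    exact hf isAlgebraic_zero
  have h1 := ordz_zeros hL hf0 hf (finite_ord_aux hL f).toFinset (fun v => ord v f)
    (fun v _ => ord_hasOrd hL v hf0) (fun v hv => by
      have h2 : ord v f = 0 := by
        by_contra h
        exact hv ((Set.Finite.mem_toFinset _).2 h)
      have h3 := ord_hasOrd hL v hf0
      rwa [h2] at h3)
  rw [← h1, Nat.cast_sum]
  have hsub : S ⊆ (finite_ord_aux hL f).toFinset := by
    intro v hv
    rw [Set.Finite.mem_toFinset]
    have h2 := (vanishes_iff_ord hL hf0).1 ((hS v).1 hv)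
    exact ne_of_gt h2
  rw [← Finset.sum_subset hsub]
  · apply Finset.sum_congr rfl
    intro v hv
    have h2 := (vanishes_iff_ord hL hf0).1 ((hS v).1 hv)
    omega
  · intro v _ hv
    have h2 : ¬ 0 < ord v f := fun h => hv ((hS v).2 ((vanishes_iff_ord hL hf0).2 h))
    omega

/-- the number of poles with multiplicities is the degree of the field extension -/
theorem deg_poles' (hL : IsCurve k L) {f : L} (hf : Transcendental k f) (S : Finset (Place k L))
    (hS : ∀ v, v ∈ S ↔ f ∉ v.ring) :
    ∑ v ∈ S, -ord v f = finrank (IntermediateField.adjoin k {f}) L := by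
  have hft : Transcendental k f⁻¹ := by
    intro h
    apply hf
    simpa using h.inv
  have hf0 : f ≠ 0 := by
    rintro rfl
    exact hf isAlgebraic_zero
  have h1 := deg_zeros' hL hft S (fun v => by
    rw [hS, Place.vanishes_iff_or, inv_inv]
    constructor
    · exact Or.inr
    · rintro (h | h)
      · exact absurd h (inv_ne_zero hf0)
      · exact h)
  rw [ordz_adjoin] at h1
  rw [← h1]
  apply Finset.sum_congr rfl
  intro v _
  rw [ord_inv hL]

/-- a function without poles is constant -/
theorem const_of_regular (hL : IsCurve k L) {f : L} (hf : ∀ v : Place k L, f ∈ v.ring) :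
    ∃ a : k, f = algebraMap k L a := by
  exact ordz_const hL hf

/-- a function which is not constant is transcendental -/
theorem transc_of_ne (hL : IsCurve k L) {f : L} (hf : ∀ a : k, f ≠ algebraMap k L a) :
    Transcendental k f := by
  exact ordz_transc hf

end Pool.Agent.TInc
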