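import Pool.Agent.TInc.OrdThy

/-!
# The divisor of a function, the spaces `L(D)`
-/

set_option autoImplicit false

noncomputable section

namespace Pool.Agent.TInc

open Pool.Agent.ZCyc Pool.Agent.Dess Pool.Agent.Dess4 Module
open scoped Classical

variable {k L : Type} [Field k] [IsAlgClosed k] [CharZero k] [Field L] [Algebra k L]

theorem finite_ord (hL : IsCurve k L) (f : L) : {v : Place k L | ord v f ≠ 0}.Finite :=
  finite_ord_aux hL f

/-- the divisor of a function -/
def dv (hL : IsCurve k L) (f : L) : Place k L →₀ ℤ :=
  Finsupp.ofSupportFinite (fun v => ord v f) (finite_ord hL f)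

/-- the space `L(D)` -/
def LD (hL : IsCurve k L) (D : Place k L →₀ ℤ) : Submodule k L where
  carrier := {f | InL D f}
  add_mem' := by
    intro f g hf hg h v
    have := le_ord_add hL (v := v) (n := -D v) h (fun h1 => by have := hf h1 v; omega)
      (fun h1 => by have := hg h1 v; omega)
    omega
  zero_mem' := fun h => absurd rfl h
  smul_mem' := by
    intro c f hf h v
    have hc : algebraMap k L c ≠ 0 := by
      intro h1
      apply h
      rw [Algebra.smul_def, h1, zero_mul]
    have hf0 : f ≠ 0 := by
      rintro rfl
      exact h (smul_zero c)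
    rw [Algebra.smul_def, ord_mul hL v hc hf0, ord_const hL, zero_add]
    exact hf hf0 v

/-- Riemann's inequality with the constant `g` -/
def Riemann (hL : IsCurve k L) (g : ℕ) : Prop :=
  ∀ D : Place k L →₀ ℤ, FiniteDimensional k (LD hL D) ∧
    deg D + 1 ≤ finrank k (LD hL D) + g

end Pool.Agent.TInc
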