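import Pool.Agent.TInc.EmbD
import Pool.Agent.DCI57.At

/-!
# The norm of a function (reciprocity), and the bijection of the embeddings with the poles
-/

set_option autoImplicit false

noncomputable section

namespace Pool.Agent.TInc

open Pool.Agent.ZCyc Pool.Agent.Dess Pool.Agent.KFam Module
open Pool.Agent.VFP (Om tt)
open scoped Classical

variable {k L : Type} [Field k] [IsAlgClosed k] [CharZero k] [Field L] [Algebra k L]

omit [IsAlgClosed k] [CharZero k] in
/-- units have valuation one -/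
private theorem normF_val_one {v : Place k (Om k)} {x : Om k} (h1 : x ∈ v.ring)
    (h2 : x⁻¹ ∈ v.ring) (hx : x ≠ 0) : v.ring.valuation x = 1 := by
  have h3 := (v.ring.valuation_le_one_iff x).2 h1
  have h4 := (v.ring.valuation_le_one_iff x⁻¹).2 h2
  rw [map_inv₀] at h4
  have h5 : v.ring.valuation x ≠ 0 := (Valuation.ne_zero_iff _).2 hx
  exact le_antisymm h3 ((inv_le_one₀ (zero_lt_iff.2 h5)).1 h4)

omit [IsAlgClosed k] [CharZero k] in
/-- a function with a value `≠ 0` has valuation one -/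
private theorem normF_val_at {v : Place k (Om k)} {x : Om k} {a : k} (h : v.At x a)
    (ha : a ≠ 0) : v.ring.valuation x = 1 := by
  refine normF_val_one h.mem (h.inv ha).mem ?_
  rintro rfl
  exact ha (h.unique (by simpa using Place.at_const (v := v) (0 : k)))

omit [IsAlgClosed k] [CharZero k] in
private theorem normF_mem {v : Place k (Om k)} {c : Place k L} {σ : L →ₐ[k] Om k}
    (hv : v.ring.comap (σ : L →+* Om k) = c.ring) (g : L) : g ∈ c.ring ↔ σ g ∈ v.ring := by
  rw [← hv]
  exact ValuationSubring.mem_comap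

omit [IsAlgClosed k] [CharZero k] in
private theorem normF_ne {F : Type} [Field F] [Algebra k F] {φ : F} (hφ : Transcendental k φ)
    (a : k) : φ - algebraMap k F a ≠ 0 := by
  intro h
  exact hφ (sub_eq_zero.1 h ▸ isAlgebraic_algebraMap a)

omit [IsAlgClosed k] [CharZero k] in
/-- a place below `v` has the value `a` too -/
private theorem normF_at {φ : L} {ψ : Om k} {v : Place k (Om k)} {a : k} (ha : v.At ψ a)
    {c : Place k L} {σ : L →ₐ[k] Om k} (hσ : σ φ = ψ)
    (hv : v.ring.comap (σ : L →+* Om k) = c.ring) : c.At φ a := by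
  unfold Place.At at ha ⊢
  rw [Place.vanishes_iff_or] at ha ⊢
  have h1 : σ (φ - algebraMap k L a) = ψ - algebraMap k (Om k) a := by
    rw [map_sub, hσ, AlgHom.commutes]
  rw [← h1] at ha
  rcases ha with ha | ha
  · exact Or.inl ((map_eq_zero σ).1 ha)
  · refine Or.inr fun h => ha ?_
    rw [← map_inv₀]
    exact (normF_mem hv _).1 h

omit [IsAlgClosed k] [CharZero k] in
theorem neg_inv_transc {τ : Om k} (hτ : Transcendental k τ) : Transcendental k (-τ⁻¹) := by
  intro h
  apply hτ
  have h1 := h.neg.inv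
  rwa [neg_neg, inv_inv] at h1

/-- `φ` has only simple poles, `P` is the set of the poles, `σ φ = -1/τ`, `τ → 0` at `v`: the places
below `v` (for the different `σ`) are the poles, each one occurs for exactly one `σ`
(`card_over_pole`, `exists_below`; if `c` is below `v` for `σ` then `φ` is not in `c.ring`, because
`σ φ` is not in `v.ring`). -/
theorem emb_bij (hL : IsCurve k L) {φ : L} (hφ : Transcendental k φ)
    (hs : ∀ c : Place k L, φ ∉ c.ring → ord c φ = -1) {τ : Om k} (hτ : Transcendental k τ)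
    {v : Place k (Om k)} (hv : v.At τ 0) :
    ∃ π : {σ : L →ₐ[k] Om k // σ φ = -τ⁻¹} ≃ {c : Place k L // φ ∉ c.ring},
      ∀ σ, v.ring.comap (σ.1 : L →+* Om k) = (π σ).1.ring := by
  have hψ := neg_inv_transc hτ
  have hτ0 : τ ≠ 0 := by
    rintro rfl
    exact hτ isAlgebraic_zero
  have hψv : -τ⁻¹ ∉ v.ring := by
    intro h
    have h1 := (Place.at_zero_iff.1 hv)
    rw [Place.vanishes_iff_or] at h1
    rcases h1 with h1 | h1
    · exact hτ0 h1
    · exact h1 (by simpa using neg_mem h)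
  choose β hβ using fun σ => exists_below hL v σ
  have hpole : ∀ σ : L →ₐ[k] Om k, σ φ = -τ⁻¹ → φ ∉ (β σ).ring := by
    intro σ hσ h
    apply hψv
    rw [← hσ]
    exact (normF_mem (hβ σ) _).1 h
  have hone : ∀ c : Place k L, φ ∉ c.ring → ∃ σ₀ : L →ₐ[k] Om k, σ₀ φ = -τ⁻¹ ∧
      v.ring.comap (σ₀ : L →+* Om k) = c.ring ∧ ∀ σ : L →ₐ[k] Om k, σ φ = -τ⁻¹ →
        v.ring.comap (σ : L →+* Om k) = c.ring → σ = σ₀ := by
    intro c hc
    have h1 := card_over_pole hL hφ hψ hψv hc
    rw [hs c hc, neg_neg] at h1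
    obtain ⟨σ₀, h2⟩ := Set.ncard_eq_one.1 (Int.natCast_inj.1 h1 :
      {σ : L →ₐ[k] Om k | σ φ = -τ⁻¹ ∧ v.ring.comap (σ : L →+* Om k) = c.ring}.ncard = 1)
    have h3 : σ₀ ∈ {σ : L →ₐ[k] Om k | σ φ = -τ⁻¹ ∧
        v.ring.comap (σ : L →+* Om k) = c.ring} := by
      rw [h2]
      exact Set.mem_singleton _
    refine ⟨σ₀, h3.1, h3.2, fun σ hσ1 hσ2 => ?_⟩
    have h4 : σ ∈ {σ : L →ₐ[k] Om k | σ φ = -τ⁻¹ ∧
        v.ring.comap (σ : L →+* Om k) = c.ring} := ⟨hσ1, hσ2⟩
    rw [h2] at h4
    exact h4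
  refine ⟨Equiv.ofBijective (fun σ => ⟨β σ.1, hpole σ.1 σ.2⟩) ⟨?_, ?_⟩, fun σ => hβ σ.1⟩
  · intro σ σ' h
    have h1 : β σ.1 = β σ'.1 := congrArg Subtype.val h
    obtain ⟨σ₀, -, -, h2⟩ := hone (β σ.1) (hpole σ.1 σ.2)
    apply Subtype.ext
    rw [h2 σ.1 σ.2 (hβ σ.1), h2 σ'.1 σ'.2 (by rw [hβ σ'.1, h1])]
  · rintro ⟨c, hc⟩
    obtain ⟨σ₀, h1, h2, -⟩ := hone c hc
    refine ⟨⟨σ₀, h1⟩, Subtype.ext (Place.ext ?_)⟩
    rw [← hβ σ₀, h2]

private theorem normF_zpow {G ι : Type*} [CommGroupWithZero G] {w : G} (hw : w ≠ 0)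
    {C : Finset ι} {n : ι → ℤ} : ∏ c ∈ C, w ^ n c = w ^ ∑ c ∈ C, n c := by
  induction C using Finset.induction_on with
  | empty => simp
  | insert c C hc ih => rw [Finset.prod_insert hc, Finset.sum_insert hc, zpow_add₀ hw, ih]

/-- the sum of the orders of the zeros and poles -/
private theorem normF_sum (hL : IsCurve k L) {f : L} (T : Finset (Place k L))
    (hT : ∀ q, ord q f ≠ 0 → q ∈ T) : ∑ q ∈ T, ord q f = 0 := by
  rw [← deg_dv hL f]
  unfold deg
  rw [Finsupp.sum]
  refine (Finset.sum_subset (fun q hq => hT q ?_) fun q _ hq => ?_).symm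
  · rw [Finsupp.mem_support_iff] at hq
    exact hq
  · rw [Finsupp.notMem_support_iff] at hq
    exact hq

/-- the valuation of the product of the conjugates -/
private theorem normF_left (hL : IsCurve k L) {φ : L} (hφ : Transcendental k φ) {ψ : Om k}
    (hψ : Transcendental k ψ) {v : Place k (Om k)} {a : k} (ha : v.At ψ a) {f : L}
    (hf : f ≠ 0) {C : Finset (Place k L)} (hC : ∀ c, c ∈ C ↔ c.At φ a) :
    v.ring.valuation (∏ σ ∈ (card_emb hL hφ hψ).1.toFinset, σ f) =
      v.ring.valuation (ψ - algebraMap k (Om k) a) ^ ∑ c ∈ C, ord c f := by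
  choose β hβ using fun σ => exists_below hL v σ
  set S := (card_emb hL hφ hψ).1.toFinset with hS
  have hmem : ∀ σ, σ ∈ S ↔ σ φ = ψ := fun σ => (card_emb hL hφ hψ).1.mem_toFinset
  set w := v.ring.valuation (ψ - algebraMap k (Om k) a) with hw
  have hw0 : w ≠ 0 := (Valuation.ne_zero_iff _).2 (normF_ne hψ a)
  have hφa := normF_ne hφ a
  rw [map_prod, ← Finset.prod_fiberwise_of_maps_to (t := C) (g := β)
    (fun σ hσ => (hC _).2 (normF_at ha ((hmem σ).1 hσ) (hβ σ)))]
  rw [← normF_zpow hw0]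
  refine Finset.prod_congr rfl fun c hc => ?_
  have hcat := (hC c).1 hc
  have hpos : 0 < ord c (φ - algebraMap k L a) := (vanishes_iff_ord hL hφa).1 hcat
  obtain ⟨e, he⟩ := Int.eq_ofNat_of_zero_le hpos.le
  have he' : (e : ℤ) = ord c (φ - algebraMap k L a) := he.symm
  have he0 : e ≠ 0 := by
    rintro rfl
    rw [he] at hpos
    exact absurd hpos (lt_irrefl _)
  have hcard : (S.filter fun σ => β σ = c).card = e := by
    have h1 := card_over hL hφ hψ ha hcat
    rw [← he'] at h1
    have h2 := Int.natCast_inj.1 h1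
    rw [← h2, ← Set.ncard_coe_finset]
    congr 1
    ext σ
    rw [Set.mem_ofPred_eq, Finset.mem_coe, Finset.mem_filter, hmem, hβ σ]
    exact and_congr_right fun _ => ⟨fun h => by rw [h], fun h => Place.ext h⟩
  refine (pow_left_inj₀ zero_le zero_le he0).1 ?_
  have h1 : ∀ σ ∈ S.filter fun σ => β σ = c, v.ring.valuation (σ f) ^ e = w ^ ord c f := by
    intro σ hσ
    obtain ⟨h2, h3⟩ := Finset.mem_filter.1 hσ
    have h4 := emb_pow_unit hL hφ ((hmem σ).1 h2) (h3 ▸ hβ σ) hf he'
    rw [map_pow, map_zpow₀] at h4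
    exact h4
  rw [← Finset.prod_pow, Finset.prod_congr rfl h1, Finset.prod_const, hcard]

/-- `φ` has only simple poles, `P` is the set of the poles, `f` is a unit at the poles, `T` contains
the zeros and poles of `f`, and no pole of `φ`. Then the product of the `σ f` over all `σ` with
`σ φ = -1/τ` is `∏_P f(c) * ∏_T (1 + τ φ(q)) ^ ord_q f`.
Proof. Let `u` be the quotient of the two sides. All factors are nonzero. We show that `u` is a unit
at every place `v` of `Om k`; so it is a constant (`const_om`), and at a place `v` with `τ → 0`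
(`ZCyc.exists_place`) both sides have the value `∏_P f(c)` (`emb_bij`, `over_at`), which is not `0`.
* `τ → 0` at `v`: see above, both sides have a value `≠ 0`.
* otherwise `ψ = -1/τ` has a value `a` at `v` (`DCI57.exists_at`). Left side: group the `σ` by the
  place below `v`, `c` with `φ(c) = a`: by `card_over` and `emb_pow_unit` the product of the `σ f`
  above `c` has the valuation of `(ψ - a) ^ ord_c f` (its `e_c`-th power has the valuation of
  `(ψ - a) ^ (e_c ord_c f)`, valuations are torsion free). So the left side has the valuation of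
  `(ψ - a) ^ m`, `m` = the sum of `ord_c f` over all `c ∈ T` with `φ(c) = a`.
  Right side: `1 + τ φ(q) = (ψ - φ(q)) / ψ`. If `φ(q) ≠ a` then `ψ - φ(q)` is a unit at `v`. The
  sum of `ord_q f` over `T` is zero (`deg_dv`), so the power of `ψ` cancels, and the right side has
  the valuation of `(ψ - a) ^ m` too. -/
theorem norm_formula (hL : IsCurve k L) {φ : L} (hφ : Transcendental k φ)
    (hs : ∀ c : Place k L, φ ∉ c.ring → ord c φ = -1) {τ : Om k} (hτ : Transcendental k τ)
    {f : L} (hf : f ≠ 0) (P T : Finset (Place k L)) (hP : ∀ c, c ∈ P ↔ φ ∉ c.ring)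
    (hfP : ∀ c ∈ P, ord c f = 0) (hT : ∀ q, ord q f ≠ 0 → q ∈ T) (hφT : ∀ q ∈ T, φ ∈ q.ring) :
    ∏ σ ∈ (card_emb hL hφ (neg_inv_transc hτ)).1.toFinset, σ f =
      algebraMap k (Om k) (∏ c ∈ P, val c f) *
        ∏ q ∈ T, (1 + τ * algebraMap k (Om k) (val q φ)) ^ ord q f := by
  have hψ := neg_inv_transc hτ
  have hτ0 : τ ≠ 0 := by
    rintro rfl
    exact hτ isAlgebraic_zero
  set A := ∏ σ ∈ (card_emb hL hφ hψ).1.toFinset, σ f with hA
  set B := algebraMap k (Om k) (∏ c ∈ P, val c f) *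
    ∏ q ∈ T, (1 + τ * algebraMap k (Om k) (val q φ)) ^ ord q f with hB
  have hA0 : A ≠ 0 := Finset.prod_ne_zero_iff.2 fun σ _ => (map_ne_zero σ).2 hf
  have hval : ∀ c ∈ P, c.At f (val c f) ∧ val c f ≠ 0 := by
    intro c hc
    obtain ⟨h1, h2⟩ := (ord_eq_zero_iff hL hf).1 (hfP c hc)
    refine ⟨at_val hL h1, fun h3 => ?_⟩
    have h4 := at_val hL h1
    rw [h3, Place.at_zero_iff, Place.vanishes_iff_or] at h4
    rcases h4 with h4 | h4
    · exact hf h4
    · exact h4 h2
  have hP0 : ∏ c ∈ P, val c f ≠ 0 := Finset.prod_ne_zero_iff.2 fun c hc => (hval c hc).2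
  have hfac : ∀ b : k, 1 + τ * algebraMap k (Om k) b = (-τ⁻¹ - algebraMap k (Om k) b) * -τ := by
    intro b
    field_simp
    ring
  have hfac0 : ∀ b : k, 1 + τ * algebraMap k (Om k) b ≠ 0 := by
    intro b
    rw [hfac]
    exact mul_ne_zero (normF_ne hψ b) (neg_ne_zero.2 hτ0)
  have hB0 : B ≠ 0 := mul_ne_zero ((map_ne_zero _).2 hP0)
    (Finset.prod_ne_zero_iff.2 fun q _ => zpow_ne_zero _ (hfac0 _))
  -- the values where `τ` vanishes
  have hzero : ∀ v : Place k (Om k), v.At τ 0 →
      v.At A (∏ c ∈ P, val c f) ∧ v.At B (∏ c ∈ P, val c f) := by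
    intro v hv
    constructor
    · obtain ⟨π, hπ⟩ := emb_bij hL hφ hs hτ hv
      have h1 : A = ∏ c ∈ P.attach, (π.symm ⟨c.1, (hP _).1 c.2⟩).1 f := by
        rw [hA]
        symm
        refine Finset.prod_bij (fun c _ => (π.symm ⟨c.1, (hP _).1 c.2⟩).1) ?_ ?_ ?_ ?_
        · intro c _
          exact (card_emb hL hφ hψ).1.mem_toFinset.2 (π.symm ⟨c.1, (hP _).1 c.2⟩).2
        · intro c _ c' _ h
          have h2 := π.symm.injective (Subtype.ext h)
          exact Subtype.ext (congrArg (fun x : {c : Place k L // φ ∉ c.ring} => x.1) h2)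
        · intro σ hσ
          have h2 : σ φ = -τ⁻¹ := (card_emb hL hφ hψ).1.mem_toFinset.1 hσ
          refine ⟨⟨(π ⟨σ, h2⟩).1, (hP _).2 (π ⟨σ, h2⟩).2⟩, Finset.mem_attach _ _, ?_⟩
          have h3 : (⟨(π ⟨σ, h2⟩).1, (π ⟨σ, h2⟩).2⟩ : {c : Place k L // φ ∉ c.ring}) =
              π ⟨σ, h2⟩ := rfl
          rw [h3, Equiv.symm_apply_apply]
        · intro c _
          rfl
      rw [h1, ← Finset.prod_attach P]
      refine Place.At.prod fun c _ => ?_
      have h2 := hπ (π.symm ⟨c.1, (hP _).1 c.2⟩)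
      rw [Equiv.apply_symm_apply] at h2
      exact over_at hL (U := Set.univ) (S := Sum.inl (π.symm ⟨c.1, (hP _).1 c.2⟩).1) h2
        (hval c.1 c.2).1.mem
    · have h1 : v.At (∏ q ∈ T, (1 + τ * algebraMap k (Om k) (val q φ)) ^ ord q f) 1 := by
        have h2 : ∀ q ∈ T, v.At ((1 + τ * algebraMap k (Om k) (val q φ)) ^ ord q f) 1 := by
          intro q _
          have h3 : v.At (1 + τ * algebraMap k (Om k) (val q φ)) 1 := by
            have h4 := (Place.at_const (v := v) (1 : k)).add (hv.mul (Place.at_const (val q φ)))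
            simpa using h4
          obtain ⟨n, hn | hn⟩ := Int.eq_nat_or_neg (ord q f)
          · rw [hn, zpow_natCast]
            simpa using h3.pow n
          · rw [hn, zpow_neg, zpow_natCast]
            simpa using (h3.pow n).inv (by simp)
        have h3 := Place.At.prod h2
        rwa [Finset.prod_const_one] at h3
      have h2 := (Place.at_const (v := v) (∏ c ∈ P, val c f)).mul h1
      rwa [mul_one] at h2
  -- the valuations are the same
  have hvals : ∀ v : Place k (Om k), v.ring.valuation A = v.ring.valuation B := by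
    intro v
    by_cases hv : v.At τ 0
    · rw [normF_val_at (hzero v hv).1 hP0, normF_val_at (hzero v hv).2 hP0]
    have hψv : -τ⁻¹ ∈ v.ring := by
      rw [Place.at_zero_iff, Place.vanishes_iff_or] at hv
      push Not at hv
      exact neg_mem hv.2
    obtain ⟨a, ha⟩ := DCI57.exists_at v hψv
    have hfin := finite_at hL hφ a
    have hCm : ∀ c, c ∈ hfin.toFinset ↔ c.At φ a := fun c => hfin.mem_toFinset
    rw [hA, normF_left hL hφ hψ ha hf hCm, hB, map_mul,
      normF_val_at (Place.at_const _) hP0, one_mul]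
    set w := v.ring.valuation (-τ⁻¹ - algebraMap k (Om k) a) with hw
    have hw0 : w ≠ 0 := (Valuation.ne_zero_iff _).2 (normF_ne hψ a)
    have h1 : ∏ q ∈ T, (1 + τ * algebraMap k (Om k) (val q φ)) ^ ord q f =
        ∏ q ∈ T, (-τ⁻¹ - algebraMap k (Om k) (val q φ)) ^ ord q f := by
      simp only [hfac, mul_zpow]
      rw [Finset.prod_mul_distrib, normF_zpow (neg_ne_zero.2 hτ0), normF_sum hL T hT, zpow_zero,
        mul_one]
    rw [h1, map_prod]
    have h2 : ∀ q ∈ T, v.ring.valuation ((-τ⁻¹ - algebraMap k (Om k) (val q φ)) ^ ord q f) =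
        w ^ (if val q φ = a then ord q f else 0) := by
      intro q _
      rw [map_zpow₀]
      split_ifs with h
      · rw [h]
      · have h3 := ha.sub (Place.at_const (v := v) (val q φ))
        rw [normF_val_at h3 (sub_ne_zero.2 (Ne.symm h)), one_zpow, zpow_zero]
    rw [Finset.prod_congr rfl h2, normF_zpow hw0]
    congr 1
    rw [← Finset.sum_filter]
    symm
    refine Finset.sum_subset (fun q hq => ?_) fun q hq hq' => ?_
    · obtain ⟨h3, h4⟩ := Finset.mem_filter.1 hq
      rw [hCm, ← h4]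
      exact at_val hL (hφT q h3)
    · by_contra h3
      exact hq' (Finset.mem_filter.2 ⟨hT q h3, val_eq ((hCm q).1 hq)⟩)
  obtain ⟨c, hc⟩ := const_om (u := A / B) fun v => by
    rw [← v.ring.valuation_le_one_iff, map_div₀, hvals v,
      div_self ((Valuation.ne_zero_iff _).2 hB0)]
  obtain ⟨v, hv⟩ := exists_place hτ 0
  obtain ⟨h1, h2⟩ := hzero v hv
  have h3 := h1.div h2 hP0
  rw [hc, div_self hP0] at h3
  have h4 : c = 1 := (Place.at_const c).unique h3
  rw [h4, map_one, div_eq_one_iff_eq hB0] at hc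
  exact hc

end Pool.Agent.TInc
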