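import Pool.Agent.Dess4.Deg

/-!
# The order of a function at a place, the spaces `L(D)`: definitions
-/

set_option autoImplicit false

noncomputable section

namespace Pool.Agent.TInc

open Pool.Agent.ZCyc Pool.Agent.Dess Pool.Agent.Dess4 Module
open scoped Classical

section Defs

variable {k L : Type} [Field k] [Field L] [Algebra k L]

/-- The order of the function `f` at the place `v` (zero for `f = 0`). -/
def ord (v : Place k L) (f : L) : ℤ :=
  if h : f ≠ 0 ∧ ∃ n, HasOrd v f n then h.2.choose else 0

/-- The divisor of `f` plus `D` is effective, or `f = 0`. -/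
def InL (D : Place k L →₀ ℤ) (f : L) : Prop := f ≠ 0 → ∀ v, 0 ≤ ord v f + D v

/-- The degree of a divisor. -/
def deg (D : Place k L →₀ ℤ) : ℤ := D.sum fun _ n => n

/-- The value of `f` at the place `v` (zero if `f` is not regular at `v`). -/
def val (v : Place k L) (f : L) : k := if h : ∃ c, v.At f c then h.choose else 0

end Defs

end Pool.Agent.TInc
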